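import Pool.Agent.P.MP_106a28_lc.Defs

set_option autoImplicit false

namespace Pool.Agent.P.MP_106a28_lc

open Filter Topology Set

open Classical in
/-- number of elements below `n` missed by `S` -/
noncomputable def miss (S : Set ℕ) (n : ℕ) : ℕ := ((Finset.range n).filter (· ∉ S)).card

/-- combinatorial form of density one -/
def D1 (S : Set ℕ) : Prop := ∀ t : ℕ, ∀ᶠ n in atTop, t * miss S n ≤ n

theorem ncard_add_miss (S : Set ℕ) (n : ℕ) : (S ∩ Iio n).ncard + miss S n = n := by
  classical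
  have : S ∩ Iio n = ↑((Finset.range n).filter (· ∈ S)) := by
    ext x; simp [and_comm]
  rw [this, Set.ncard_coe_finset, miss]
  convert Finset.card_filter_add_card_filter_not (s := Finset.range n) (fun x => x ∈ S)
  simp

theorem dens1_iff (S : Set ℕ) : Dens1 S ↔ D1 S := by
  have key : ∀ n : ℕ, 0 < n → ((S ∩ Iio n).ncard : ℝ) / n = 1 - (miss S n : ℝ) / n := by
    intro n hn
    have h : ((S ∩ Iio n).ncard : ℝ) + miss S n = n := by exact_mod_cast ncard_add_miss S n
    have : (n : ℝ) ≠ 0 := by positivity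
    field_simp; linarith
  have e : Dens1 S ↔ Tendsto (fun n : ℕ => (miss S n : ℝ) / n) atTop (𝓝 0) := by
    unfold Dens1
    constructor
    · intro h
      have := (tendsto_const_nhds (x := (1 : ℝ))).sub h
      rw [sub_self] at this
      refine this.congr' ?_
      filter_upwards [eventually_gt_atTop 0] with n hn
      rw [key n hn]; ring
    · intro h
      have := (tendsto_const_nhds (x := (1 : ℝ))).sub h
      rw [sub_zero] at this
      refine this.congr' ?_
      filter_upwards [eventually_gt_atTop 0] with n hn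
      rw [key n hn]
  rw [e]
  constructor
  · intro h t
    have h1 : (0 : ℝ) < 1 / (t + 1) := by positivity
    filter_upwards [h.eventually (gt_mem_nhds h1), eventually_gt_atTop 0] with n hn hn0
    have hn' : (0 : ℝ) < n := by exact_mod_cast hn0
    rw [div_lt_div_iff₀ hn' (by positivity)] at hn
    have : (t : ℝ) * miss S n ≤ n := by nlinarith [Nat.cast_nonneg (α := ℝ) (miss S n)]
    exact_mod_cast this
  · intro h
    rw [Metric.tendsto_atTop]
    intro ε hε
    obtain ⟨t, ht⟩ := exists_nat_gt (1 / ε)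
    obtain ⟨N, hN⟩ := eventually_atTop.1 ((h t).and (eventually_gt_atTop 0))
    refine ⟨N, fun n hn => ?_⟩
    obtain ⟨h1, h2⟩ := hN n hn
    have hn' : (0 : ℝ) < n := by exact_mod_cast h2
    have h1' : (t : ℝ) * miss S n ≤ n := by exact_mod_cast h1
    rw [Real.dist_eq, sub_zero, abs_of_nonneg (by positivity), div_lt_iff₀ hn']
    rw [div_lt_iff₀ hε] at ht
    have ht0 : (0 : ℝ) < t := by
      by_contra h0
      have : (t : ℝ) = 0 := le_antisymm (not_lt.1 h0) (Nat.cast_nonneg _)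
      rw [this] at ht; linarith
    by_contra hc
    push Not at hc
    have : (t : ℝ) * (ε * n) ≤ n := le_trans (by gcongr) h1'
    nlinarith

theorem miss_mono {S T : Set ℕ} (h : S ⊆ T) (n : ℕ) : miss T n ≤ miss S n := by
  classical
  unfold miss
  apply Finset.card_le_card
  intro x hx
  simp only [Finset.mem_filter] at hx ⊢
  exact ⟨hx.1, fun h' => hx.2 (h h')⟩

theorem miss_congr {S T : Set ℕ} {n : ℕ} (h : ∀ m < n, m ∈ S ↔ m ∈ T) : miss S n = miss T n := by
  classical
  unfold miss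
  congr 1
  ext x
  simp only [Finset.mem_filter, Finset.mem_range]
  constructor
  · rintro ⟨h1, h2⟩; exact ⟨h1, fun h' => h2 ((h x h1).2 h')⟩
  · rintro ⟨h1, h2⟩; exact ⟨h1, fun h' => h2 ((h x h1).1 h')⟩

theorem miss_le_of_imp {S T : Set ℕ} {n : ℕ} (h : ∀ m < n, m ∈ S → m ∈ T) :
    miss T n ≤ miss S n := by
  classical
  unfold miss
  apply Finset.card_le_card
  intro x hx
  simp only [Finset.mem_filter, Finset.mem_range] at hx ⊢
  exact ⟨hx.1, fun h' => hx.2 (h x hx.1 h')⟩

theorem miss_inter (S T : Set ℕ) (n : ℕ) : miss (S ∩ T) n ≤ miss S n + miss T n := by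
  classical
  unfold miss
  refine le_trans (Finset.card_le_card ?_) (Finset.card_union_le _ _)
  intro x hx
  simp only [Finset.mem_filter, Finset.mem_union, mem_inter_iff, not_and_or] at hx ⊢
  tauto

theorem miss_Ici (L n : ℕ) : miss (Ici L) n ≤ L := by
  classical
  unfold miss
  refine le_trans (Finset.card_le_card (t := Finset.range L) ?_) (by simp)
  intro x hx
  simp only [Finset.mem_filter, mem_Ici, not_le, Finset.mem_range] at hx ⊢
  exact hx.2

theorem miss_le_add {S T : Set ℕ} (L n : ℕ) (h : ∀ m, L ≤ m → m ∈ S → m ∈ T) :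
    miss T n ≤ L + miss S n :=
  le_trans (miss_mono (S := Ici L ∩ S) (fun m hm => h m hm.1 hm.2) n)
    (le_trans (miss_inter _ _ _) (by have := miss_Ici L n; omega))

theorem D1.mono {S T : Set ℕ} (hS : D1 S) (h : S ⊆ T) : D1 T := fun t =>
  (hS t).mono fun n hn => le_trans (Nat.mul_le_mul_left _ (miss_mono h n)) hn

theorem D1.inter {S T : Set ℕ} (hS : D1 S) (hT : D1 T) : D1 (S ∩ T) := fun t => by
  filter_upwards [hS (2 * t), hT (2 * t)] with n h1 h2
  have := Nat.mul_le_mul_left t (miss_inter S T n)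
  nlinarith

theorem miss_not_dvd (q n : ℕ) (hq : 0 < q) : q * miss {x | ¬ q ∣ x} n ≤ n + q := by
  classical
  have : miss {x | ¬ q ∣ x} n ≤ n / q + 1 := by
    unfold miss
    refine le_trans (Finset.card_le_card (t := (Finset.range (n / q + 1)).image (q * ·)) ?_)
      (le_trans Finset.card_image_le (by simp))
    intro x hx
    simp only [Finset.mem_filter, Finset.mem_range, mem_ofPred_eq, not_not] at hx
    obtain ⟨hx, a, rfl⟩ := hx
    refine Finset.mem_image.2 ⟨a, Finset.mem_range.2 ?_, rfl⟩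
    have : a ≤ n / q := (Nat.le_div_iff_mul_le hq).2 (by nlinarith)
    omega
  have h2 := Nat.mul_div_le n q
  nlinarith

/-- the finite sets which are removed -/
def PP (q i : ℕ) : Finset ℕ := (Finset.Ico i (2 * i)).image (q * ·)

theorem mem_PP {q i x : ℕ} (hq : 0 < q) (hx : x ∈ PP q i) : i ≤ x ∧ q ∣ x := by
  obtain ⟨a, ha, rfl⟩ := Finset.mem_image.1 hx
  exact ⟨by have := (Finset.mem_Ico.1 ha).1; nlinarith, dvd_mul_right _ _⟩

theorem not_D1_of_PP {S : Set ℕ} {q : ℕ} (hq : 0 < q)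
    (h : ∀ i0, ∃ i ≥ i0, ∀ n ∈ PP q i, n ∉ S) : ¬ D1 S := by
  classical
  intro hS
  obtain ⟨N, hN⟩ := eventually_atTop.1 (hS (2 * q + 1))
  obtain ⟨i, hi, h⟩ := h (N + 1)
  have h1 := hN (2 * q * i) (by nlinarith)
  have h2 : i ≤ miss S (2 * q * i) := by
    have hc : (PP q i).card = i := by
      rw [PP, Finset.card_image_of_injective _ (mul_right_injective₀ hq.ne')]
      simp; omega
    rw [← hc]
    unfold miss
    rw [hc]
    conv_lhs => rw [← hc]
    apply Finset.card_le_card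
    intro x hx
    refine Finset.mem_filter.2 ⟨Finset.mem_range.2 ?_, h x hx⟩
    obtain ⟨a, ha, rfl⟩ := Finset.mem_image.1 hx
    have := (Finset.mem_Ico.1 ha).2
    nlinarith
  nlinarith

/-- diagonalisation in a compact space -/
theorem diag {X ι : Type} [TopologicalSpace X] [CompactSpace X] [Countable ι]
    (Good : ℕ → Set X → Prop) (hcl : ∀ t K, Good t K → IsClosed K ∧ K.Nonempty)
    (Win : ι → Set X) (hne : Nonempty ι)
    (step : ∀ t K r, Good t K → ∃ K' ⊆ K, Good (t + 1) K' ∧ K' ⊆ Win r)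
    (K0 : Set X) (h0 : Good 0 K0) :
    ∃ x ∈ K0, (∀ r, x ∈ Win r) ∧ ∀ t, ∃ K, Good t K ∧ x ∈ K := by
  obtain ⟨f, hf⟩ := exists_surjective_nat ι
  choose! nx hnx using step
  let K : ℕ → Set X := fun t => Nat.rec K0 (fun t K => nx t K (f t)) t
  have hK : ∀ t, Good t (K t) := by
    intro t
    induction t with
    | zero => exact h0
    | succ t ih => exact (hnx t _ (f t) ih).2.1
  obtain ⟨x, hx⟩ := IsCompact.nonempty_iInter_of_sequence_nonempty_isCompact_isClosed K
    (fun t => (hnx t _ (f t) (hK t)).1) (fun t => (hcl t _ (hK t)).2)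
    (hcl 0 _ (hK 0)).1.isCompact (fun t => (hcl t _ (hK t)).1)
  rw [mem_iInter] at hx
  refine ⟨x, hx 0, fun r => ?_, fun t => ⟨K t, hK t, hx t⟩⟩
  obtain ⟨t, rfl⟩ := hf r
  exact (hnx t _ (f t) (hK t)).2.2 (hx (t + 1))

/-- invariance under changes on `P` -/
def Inv (P : Finset ℕ) (S : Set (ℕ → ℕ)) : Prop :=
  ∀ g g' : ℕ → ℕ, (∀ n ∉ P, g n = g' n) → g ∈ S → g' ∈ S

theorem Inv.compl {P : Finset ℕ} {S : Set (ℕ → ℕ)} (h : Inv P S) : Inv P Sᶜ :=
  fun g g' e hg hg' => hg (h g' g (fun n hn => (e n hn).symm) hg')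

theorem Inv.interior {P : Finset ℕ} {S : Set (ℕ → ℕ)} (h : Inv P S) : Inv P (interior S) := by
  intro g g' e hg
  let φ : (ℕ → ℕ) → ℕ → ℕ := fun x n => if n ∈ P then g n else x n
  have hφ : Continuous φ := by
    refine continuous_pi fun n => ?_
    by_cases hn : n ∈ P
    · simp only [φ, hn, if_true]; exact continuous_const
    · simp only [φ, hn, if_false]; exact continuous_apply n
  have h1 : φ g' = g := by
    funext n
    by_cases hn : n ∈ P
    · simp [φ, hn]
    · simp [φ, hn, e n hn]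
  rw [mem_interior]
  refine ⟨φ ⁻¹' _root_.interior S, fun x hx => ?_, isOpen_interior.preimage hφ, by simpa [h1] using hg⟩
  exact h (φ x) x (fun n hn => by simp [φ, hn]) (interior_subset hx)

theorem dec_open {O : Set (ℕ → ℕ)} (hO : IsOpen O) :
    ∀ᶠ g in residual (ℕ → ℕ), g ∈ O ∨ g ∈ interior Oᶜ := by
  apply residual_of_dense_open (hO.union isOpen_interior)
  rw [interior_compl]
  intro x
  by_cases hx : x ∈ closure O
  · exact closure_mono subset_union_left hx
  · exact subset_closure (Or.inr hx)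

/-- the genericity lemma -/
theorem generic_lemma {γ : Type} [Countable γ] (P : ℕ → Finset ℕ)
    (hP : ∀ i, ∀ x ∈ P i, i ≤ x)
    (O : ℕ → ℕ → Set (ℕ → ℕ)) (hO : ∀ i j, IsOpen (O i j)) (hOi : ∀ i j, Inv (P i) (O i j))
    (T : ℕ → Finset γ)
    (C : ℕ → ℕ → γ → ℕ → ℕ → Set (ℕ → ℕ)) (hC : ∀ i j κ n v, IsOpen (C i j κ n v))
    (hCi : ∀ i j κ n v, Inv (P i) (C i j κ n v)) (i0 : ℕ) :
    ∀ᶠ g in residual (ℕ → ℕ), (∀ i ≥ i0, ∀ᶠ j in atTop, g ∈ O i j) →
      ∃ i ≥ i0, ∃ j ≥ i0, (∀ j' ≥ j, g ∈ O i j') ∧ ∀ κ ∈ T j, ∀ n ∈ P i,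
        (∀ v, g ∉ C i j κ n v) ∨ ∃ v, v ≠ g n ∧ g ∈ C i j κ n v := by
  classical
  let N : ℕ → ℕ → Set (ℕ → ℕ) := fun i j => ⋃ j' ≥ j, interior (O i j')ᶜ
  have hN : ∀ i j, IsOpen (N i j) := fun i j =>
    isOpen_iUnion fun _ => isOpen_iUnion fun _ => isOpen_interior
  have hNi : ∀ i j, Inv (P i) (N i j) := by
    intro i j g g' e hg
    simp only [N, mem_iUnion] at hg ⊢
    obtain ⟨j', h1, h2⟩ := hg
    exact ⟨j', h1, (hOi i j').compl.interior g g' e h2⟩
  let E : ℕ → ℕ → γ → ℕ → Set (ℕ → ℕ) := fun i j κ n =>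
    interior (⋃ v, C i j κ n v)ᶜ ∪ ⋃ v, (C i j κ n v ∩ {h | h n ≠ v})
  have hE : ∀ i j κ n, IsOpen (E i j κ n) := fun i j κ n =>
    isOpen_interior.union (isOpen_iUnion fun v => (hC _ _ _ _ _).inter
      ((isOpen_discrete {x : ℕ | x ≠ v}).preimage (continuous_apply (A := fun _ : ℕ => ℕ) n)))
  let R : Set (ℕ → ℕ) := ⋃ i ≥ i0, ⋃ j ≥ i0,
    (interior (N i j)ᶜ ∩ ⋂ κ ∈ T j, ⋂ n ∈ P i, E i j κ n)
  have hR : IsOpen R := isOpen_iUnion fun i => isOpen_iUnion fun _ => isOpen_iUnion fun j =>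
    isOpen_iUnion fun _ => isOpen_interior.inter
      (isOpen_biInter_finset fun κ _ => isOpen_biInter_finset fun n _ => hE i j κ n)
  have e1 : ∀ᶠ g in residual (ℕ → ℕ), ∀ i j, g ∈ O i j ∨ g ∈ interior (O i j)ᶜ :=
    eventually_countable_forall.2 fun i => eventually_countable_forall.2 fun j => dec_open (hO i j)
  have e2 : ∀ᶠ g in residual (ℕ → ℕ), ∀ i j, g ∈ N i j ∨ g ∈ interior (N i j)ᶜ :=
    eventually_countable_forall.2 fun i => eventually_countable_forall.2 fun j => dec_open (hN i j)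
  have e3 : ∀ᶠ g in residual (ℕ → ℕ), ∀ i j κ n,
      g ∈ (⋃ v, C i j κ n v) ∨ g ∈ interior (⋃ v, C i j κ n v)ᶜ :=
    eventually_countable_forall.2 fun i => eventually_countable_forall.2 fun j =>
      eventually_countable_forall.2 fun κ => eventually_countable_forall.2 fun n =>
        dec_open (isOpen_iUnion fun v => hC i j κ n v)
  filter_upwards [e1, e2, e3, dec_open hR] with g h1 h2 h3 h4 hyp
  have hgR : g ∈ R := by
    refine h4.resolve_right fun h4 => ?_
    obtain ⟨F, u, hu, hsub⟩ := isOpen_pi_iff.1 isOpen_interior g h4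
    obtain ⟨b, hb⟩ := F.bddAbove
    let i := max i0 (b + 1)
    have hi : i ≥ i0 := le_max_left _ _
    obtain ⟨j, hj, hj0⟩ := ((eventually_forall_ge_atTop.2 (hyp i hi)).and
      (eventually_ge_atTop i0)).exists
    have hM : g ∈ interior (N i j)ᶜ := by
      refine (h2 i j).resolve_left fun h => ?_
      simp only [N, mem_iUnion] at h
      obtain ⟨j', hj', h⟩ := h
      exact interior_subset h (hj j' hj')
    have : ∀ κ n, ∃ v, g ∈ C i j κ n v ∨ g ∈ interior (⋃ v, C i j κ n v)ᶜ := by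
      intro κ n
      rcases h3 i j κ n with h | h
      · obtain ⟨v, hv⟩ := mem_iUnion.1 h
        exact ⟨v, Or.inl hv⟩
      · exact ⟨0, Or.inr h⟩
    choose v hv using this
    let g' : ℕ → ℕ := fun n => if n ∈ P i then (T j).sup (fun κ => v κ n) + 1 else g n
    have hgg : ∀ n ∉ P i, g n = g' n := fun n hn => by simp [g', hn]
    have hg'R : g' ∈ R := by
      simp only [R, mem_iUnion]
      refine ⟨i, hi, j, hj0, (hNi i j).compl.interior g g' hgg hM, ?_⟩
      simp only [mem_iInter]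
      intro κ hκ n hn
      rcases hv κ n with h | h
      · refine Or.inr (mem_iUnion.2 ⟨v κ n, hCi _ _ _ _ _ g g' hgg h, ?_⟩)
        have : v κ n ≤ (T j).sup (fun κ => v κ n) := Finset.le_sup (f := fun κ => v κ n) hκ
        simp only [g', hn, if_true, mem_ofPred_eq]
        omega
      · refine Or.inl (Inv.interior (Inv.compl ?_) g g' hgg h)
        intro x x' e hx
        obtain ⟨w, hw⟩ := mem_iUnion.1 hx
        exact mem_iUnion.2 ⟨w, hCi _ _ _ _ _ x x' e hw⟩
    have : g' ∈ interior Rᶜ := by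
      apply hsub
      intro a ha
      have : a ∉ P i := fun h => by
        have h5 := hP i a h
        have h6 := hb ha
        have : b + 1 ≤ i := le_max_right _ _
        omega
      rw [← hgg a this]
      exact (hu a ha).2
    exact interior_subset this hg'R
  simp only [R, mem_iUnion] at hgR
  obtain ⟨i, hi, j, hj, hM, hK⟩ := hgR
  refine ⟨i, hi, j, hj, fun j' hj' => ?_, fun κ hκ n hn => ?_⟩
  · refine (h1 i j').resolve_right fun h => interior_subset hM ?_
    simp only [N, mem_iUnion]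
    exact ⟨j', hj', h⟩
  · simp only [mem_iInter] at hK
    rcases hK κ hκ n hn with h | h
    · exact Or.inl fun v hv => interior_subset h (mem_iUnion.2 ⟨v, hv⟩)
    · obtain ⟨v, hv, hv'⟩ := mem_iUnion.1 h
      exact Or.inr ⟨v, fun e => hv' e.symm, hv⟩

end Pool.Agent.P.MP_106a28_lc
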