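import Pool.Agent.P.MP_106a28_lc.Basic

set_option autoImplicit false

namespace Pool.Agent.P.MP_106a28_lc

open Filter Topology Set

/-- operators -/
abbrev Op : Type := Set (Finset (ℕ × ℕ) × (ℕ × ℕ))

/-- graph of `h` off `P` -/
def gr (h : ℕ → ℕ) (P : Finset ℕ) : Set (ℕ × ℕ) := {x | x.1 ∉ P ∧ h x.1 = x.2}

/-- places with a zero-one value -/
def dom01 (X : Set (ℕ × ℕ)) : Set ℕ := {m | (m, 0) ∈ X ∨ (m, 1) ∈ X}

theorem app_mono (W : Op) {X Y : Set (ℕ × ℕ)} (h : X ⊆ Y) : app W X ⊆ app W Y :=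
  fun _ ⟨F, h1, h2⟩ => ⟨F, h1, h2.trans h⟩

theorem gr_anti (h : ℕ → ℕ) {P Q : Finset ℕ} (hPQ : P ⊆ Q) : gr h Q ⊆ gr h P :=
  fun _ hx => ⟨fun h' => hx.1 (hPQ h'), hx.2⟩

theorem dom01_mono {X Y : Set (ℕ × ℕ)} (h : X ⊆ Y) : dom01 X ⊆ dom01 Y :=
  fun _ hm => hm.imp (fun h' => h h') (fun h' => h h')

theorem isOpen_app (W : Op) (P : Finset ℕ) (y : ℕ × ℕ) :
    IsOpen {h : ℕ → ℕ | y ∈ app W (gr h P)} := by
  have : {h : ℕ → ℕ | y ∈ app W (gr h P)} =
      ⋃ F, ⋃ (_ : (F, y) ∈ W), ⋂ x ∈ F, {h | x.1 ∉ P ∧ h x.1 = x.2} := by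
    ext h
    simp only [app, gr, mem_ofPred_eq, mem_iUnion, mem_iInter, exists_prop]
    rfl
  rw [this]
  refine isOpen_iUnion fun F => isOpen_iUnion fun _ => isOpen_biInter_finset fun x _ => ?_
  by_cases hx : x.1 ∈ P
  · simp [hx]
  · simp only [hx, not_false_eq_true, true_and]
    exact (isOpen_discrete {z : ℕ | z = x.2}).preimage
      (continuous_apply (A := fun _ : ℕ => ℕ) x.1)

theorem gr_eq {g g' : ℕ → ℕ} {P Q : Finset ℕ} (hPQ : P ⊆ Q) (e : ∀ n ∉ P, g n = g' n) :
    gr g Q = gr g' Q := by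
  ext x
  simp only [gr, mem_ofPred_eq]
  constructor
  · rintro ⟨h1, h2⟩; exact ⟨h1, by rw [← e _ fun h => h1 (hPQ h), h2]⟩
  · rintro ⟨h1, h2⟩; exact ⟨h1, by rw [e _ fun h => h1 (hPQ h), h2]⟩

theorem isOpen_miss (W : Op) (P : Finset ℕ) (c n : ℕ) :
    IsOpen {h : ℕ → ℕ | c * miss (dom01 (app W (gr h P))) n ≤ n} := by
  rw [isOpen_iff_mem_nhds]
  intro h hh
  have : ∀ᶠ h' in 𝓝 h, ∀ m ∈ Finset.range n,
      m ∈ dom01 (app W (gr h P)) → m ∈ dom01 (app W (gr h' P)) := by
    rw [eventually_all_finset]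
    intro m _
    by_cases hm : m ∈ dom01 (app W (gr h P))
    · have : IsOpen {h' : ℕ → ℕ | m ∈ dom01 (app W (gr h' P))} :=
        (isOpen_app W P (m, 0)).union (isOpen_app W P (m, 1))
      filter_upwards [this.mem_nhds hm] with h' hh' _ using hh'
    · exact Eventually.of_forall fun _ h' => absurd h' hm
  filter_upwards [this] with h' hh'
  exact le_trans (Nat.mul_le_mul_left _
    (miss_le_of_imp fun m hm => hh' m (Finset.mem_range.2 hm))) hh

/-- continuous relations -/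
structure Fnl where
  rel : (ℕ → ℕ) → ℕ → ℕ → Prop
  cont : ∀ σ n v, rel σ n v → ∃ L, ∀ σ', (∀ m < L, σ' m = σ m) → rel σ' n v

open Classical in
/-- the bit given by `X` -/
noncomputable def bit (X : Set (ℕ × ℕ)) (m : ℕ) : ℕ := if (m, 1) ∈ X then 1 else 0

/-- code of a restriction -/
def cd (b : ℕ → ℕ) (Y : ℕ → Bool) : ℕ → ℕ := fun m => if Y m then b m + 1 else 0

/-- finite table -/
def val (κ : Finset ℕ × Finset ℕ) (m : ℕ) : ℕ := if m ∈ κ.1 then 1 else if m ∈ κ.2 then 2 else 0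

/-- the sets deciding the values of a functional -/
def CC (W : Op) (Ψ : Fnl) (P : Finset ℕ) (c : ℕ) (j : ℕ) (κ : Finset ℕ × Finset ℕ) (n v : ℕ) :
    Set (ℕ → ℕ) :=
  {h | ∃ j'' ≥ j, ∃ σ : ℕ → ℕ, (∀ m < j, σ m = val κ m) ∧
    (∀ m ∈ Finset.Ico j j'', σ m = 0 ∨ (σ m = 1 ∧ (m, 0) ∈ app W (gr h P)) ∨
      (σ m = 2 ∧ (m, 1) ∈ app W (gr h P))) ∧
    (∀ n', j ≤ n' → n' ≤ j'' → c * miss {m | σ m ≠ 0} n' ≤ n') ∧
    ∀ σ', (∀ m < j'', σ' m = σ m) → Ψ.rel σ' n v}

theorem isOpen_CC (W : Op) (Ψ : Fnl) (P : Finset ℕ) (c j : ℕ) (κ : Finset ℕ × Finset ℕ)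
    (n v : ℕ) : IsOpen (CC W Ψ P c j κ n v) := by
  rw [isOpen_iff_mem_nhds]
  rintro h ⟨j'', hj, σ, h1, h2, h3, h4⟩
  have : ∀ᶠ h' in 𝓝 h, ∀ m ∈ Finset.Ico j j'', σ m = 0 ∨ (σ m = 1 ∧ (m, 0) ∈ app W (gr h' P)) ∨
      (σ m = 2 ∧ (m, 1) ∈ app W (gr h' P)) := by
    rw [eventually_all_finset]
    intro m hm
    rcases h2 m hm with h | h | h
    · exact Eventually.of_forall fun _ => Or.inl h
    · filter_upwards [(isOpen_app W P (m, 0)).mem_nhds h.2] with h' hh' using
        Or.inr (Or.inl ⟨h.1, hh'⟩)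
    · filter_upwards [(isOpen_app W P (m, 1)).mem_nhds h.2] with h' hh' using
        Or.inr (Or.inr ⟨h.1, hh'⟩)
  filter_upwards [this] with h' hh'
  exact ⟨j'', hj, σ, h1, hh', h3, h4⟩

/-- compatible sets -/
def Comp (D : Set ℕ) (L : ℕ) (y : ℕ → Bool) (c : ℕ) : Set (ℕ → Bool) :=
  {Y | (∀ m < L, Y m = y m) ∧ (∀ m ≥ L, Y m = true → m ∈ D) ∧
    ∀ n ≥ L, c * miss {m | Y m = true} n ≤ n}

theorem isClosed_Comp (D : Set ℕ) (L : ℕ) (y : ℕ → Bool) (c : ℕ) : IsClosed (Comp D L y c) := by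
  rw [← isOpen_compl_iff, isOpen_iff_mem_nhds]
  intro Y hY
  have key : ∀ n, ∀ᶠ Y' in 𝓝 Y, ∀ m < n, Y' m = Y m := by
    intro n
    have : ∀ᶠ Y' in 𝓝 Y, ∀ m ∈ Finset.range n, Y' m = Y m := by
      rw [eventually_all_finset]
      intro m _
      exact ((isOpen_discrete {z : Bool | z = Y m}).preimage
        (continuous_apply (A := fun _ : ℕ => Bool) m)).mem_nhds rfl
    filter_upwards [this] with Y' h m hm using h m (Finset.mem_range.2 hm)
  simp only [Comp, mem_compl_iff, mem_ofPred_eq, not_and_or, not_forall] at hY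
  rcases hY with ⟨m, hm, h⟩ | ⟨m, hm, h, h'⟩ | ⟨n, hn, h⟩
  · filter_upwards [key (m + 1)] with Y' hY' hc
    exact h (by rw [← hY' m (by omega), hc.1 m hm])
  · filter_upwards [key (m + 1)] with Y' hY' hc
    exact h' (hc.2.1 m hm (by rw [hY' m (by omega), h]))
  · filter_upwards [key n] with Y' hY' hc
    apply h
    rw [miss_congr (T := {m | Y' m = true}) fun m hm => by simp [hY' m hm]]
    exact hc.2.2 n hn

theorem Comp_sup {D : Set ℕ} {L : ℕ} {y : ℕ → Bool} {c : ℕ} {Y Y' : ℕ → Bool}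
    (hY : Y ∈ Comp D L y c) (h1 : ∀ m < L, Y' m = y m) (h2 : ∀ m ≥ L, Y' m = true → m ∈ D)
    (h3 : ∀ m, Y m = true → Y' m = true) : Y' ∈ Comp D L y c :=
  ⟨h1, h2, fun n hn => le_trans (Nat.mul_le_mul_left _ (miss_mono (fun m hm => h3 m hm) n))
    (hY.2.2 n hn)⟩

theorem Comp_refine {D D' : Set ℕ} {L L1 L' c : ℕ} {y Y1 : ℕ → Bool}
    (hY1 : Y1 ∈ Comp D L y c) (hD : D' ⊆ D) (hL : L ≤ L') (hL1 : 4 * c * L1 ≤ L')
    (hmax : ∀ m ≥ L1, m ∈ D' → Y1 m = true) (hd : ∀ n ≥ L', 4 * c * miss D' n ≤ n) :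
    Comp D' L' Y1 (2 * c) ⊆ Comp D L y c ∧ (Comp D' L' Y1 (2 * c)).Nonempty := by
  classical
  constructor
  · rintro Y ⟨h1, h2, h3⟩
    refine ⟨fun m hm => by rw [h1 m (by omega), hY1.1 m hm], fun m hm h => ?_, fun n hn => ?_⟩
    · by_cases hm' : m < L'
      · exact hY1.2.1 m hm (by rw [← h1 m hm', h])
      · exact hD (h2 m (by omega) h)
    · by_cases hn' : n ≤ L'
      · rw [miss_congr (T := {m | Y1 m = true}) fun m hm => by simp [h1 m (by omega)]]
        exact hY1.2.2 n hn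
      · have := h3 n (by omega)
        nlinarith
  · refine ⟨fun m => if m < L' then Y1 m else decide (m ∈ D'), fun m hm => by simp [hm],
      fun m hm h => by simpa [not_lt.2 hm] using h, fun n hn => ?_⟩
    have h1 := miss_le_add (S := D')
      (T := {m | (if m < L' then Y1 m else decide (m ∈ D')) = true}) L1 n (fun m hm h => by
        by_cases hm' : m < L'
        · simp [hm', hmax m hm h]
        · simp [hm', h])
    have h2 := hd n hn
    nlinarith

theorem core {ιW ιΨ : Type} [Countable ιW] [Countable ιΨ] [Nonempty ιΨ]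
    (W : ιW → Op) (Ψ : ιΨ → Fnl) :
    ∀ᶠ g in residual (ℕ → ℕ), ∀ (w : ιW) (Z0 : Finset ℕ) (q k : ℕ), 0 < q →
      (∀ m, (m, 0) ∈ app (W w) (gr g Z0) → (m, 1) ∉ app (W w) (gr g Z0)) →
      (∀ P : Finset ℕ, (∀ x ∈ P, k ≤ x ∧ q ∣ x) → D1 (dom01 (app (W w) (gr g (Z0 ∪ P))))) →
      ∀ Fatal : ιΨ → (ℕ → Bool) → Prop,
      (∀ ψ Y, Fatal ψ Y → ∃ L, ∀ Y', (∀ m < L, Y' m = Y m) → Fatal ψ Y') →
      (∀ ψ Y Y' n v, (Ψ ψ).rel (cd (bit (app (W w) (gr g Z0))) Y) n (g n) →
        (Ψ ψ).rel (cd (bit (app (W w) (gr g Z0))) Y') n v → v ≠ g n →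
        Fatal ψ Y' ∨ Fatal ψ (fun m => Y m || Y' m)) →
      ∃ Y : ℕ → Bool, D1 {m | Y m = true} ∧
        (∀ m, Y m = true → m ∈ dom01 (app (W w) (gr g Z0))) ∧
        ∀ ψ, Fatal ψ Y ∨ ¬ D1 {n | (Ψ ψ).rel (cd (bit (app (W w) (gr g Z0))) Y) n (g n)} := by
  classical
  have gen : ∀ᶠ g in residual (ℕ → ℕ), ∀ (w : ιW) (ψ : ιΨ) (P : Finset ℕ) (c q' i0 : ℕ),
      (∀ i ≥ i0, ∀ᶠ j in atTop,
        4 * c * miss (dom01 (app (W w) (gr g (P ∪ PP (q' + 1) i)))) j ≤ j) →
      ∃ i ≥ i0, ∃ j ≥ i0,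
        (∀ j' ≥ j, 4 * c * miss (dom01 (app (W w) (gr g (P ∪ PP (q' + 1) i)))) j' ≤ j') ∧
        ∀ κ ∈ (Finset.range j).powerset ×ˢ (Finset.range j).powerset, ∀ n ∈ PP (q' + 1) i,
        (∀ v, g ∉ CC (W w) (Ψ ψ) (P ∪ PP (q' + 1) i) (2 * c) j κ n v) ∨
          ∃ v, v ≠ g n ∧ g ∈ CC (W w) (Ψ ψ) (P ∪ PP (q' + 1) i) (2 * c) j κ n v := by
    simp only [eventually_countable_forall]
    intro w ψ P c q' i0
    refine generic_lemma (PP (q' + 1)) (fun i x hx => (mem_PP (Nat.succ_pos _) hx).1)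
      (fun i j => {g | 4 * c * miss (dom01 (app (W w) (gr g (P ∪ PP (q' + 1) i)))) j ≤ j})
      (fun i j => isOpen_miss _ _ _ _) (fun i j g g' e hg => ?_) _
      (fun i j κ n v => CC (W w) (Ψ ψ) (P ∪ PP (q' + 1) i) (2 * c) j κ n v)
      (fun i j κ n v => isOpen_CC _ _ _ _ _ _ _ _) (fun i j κ n v g g' e hg => ?_) i0
    · simp only [mem_ofPred_eq] at hg ⊢
      rwa [← gr_eq Finset.subset_union_right e]
    · simp only [CC, mem_ofPred_eq] at hg ⊢
      rwa [← gr_eq Finset.subset_union_right e]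
  filter_upwards [gen] with g hg w Z0 q k hq hsv hD Fatal hF1 hF2
  obtain ⟨q', rfl⟩ : ∃ q', q = q' + 1 := ⟨q - 1, by omega⟩
  set B0 := app (W w) (gr g Z0) with hB0
  let DD : Finset ℕ → Set ℕ := fun P => dom01 (app (W w) (gr g (Z0 ∪ P)))
  let Good : ℕ → Set (ℕ → Bool) → Prop := fun t K => ∃ L y P,
    (∀ x ∈ P, k ≤ x ∧ q' + 1 ∣ x) ∧ K = Comp (DD P) L y (2 ^ t) ∧ K.Nonempty
  let Win : ιΨ × ℕ → Set (ℕ → Bool) := fun r => {Y | Fatal r.1 Y ∨
    ∃ i ≥ r.2, ∀ n ∈ PP (q' + 1) i, ¬ (Ψ r.1).rel (cd (bit B0) Y) n (g n)}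
  have step : ∀ t K r, Good t K → ∃ K' ⊆ K, Good (t + 1) K' ∧ K' ⊆ Win r := by
    rintro t K ⟨ψ, i0⟩ ⟨L, y, P, hP, rfl, hne⟩
    by_cases hc : ∃ Y ∈ Comp (DD P) L y (2 ^ t), Fatal ψ Y
    · obtain ⟨Y, hY, hfat⟩ := hc
      obtain ⟨L0, hL0⟩ := hF1 ψ Y hfat
      let L1 := max L L0
      let Y1 : ℕ → Bool := fun m => if m < L1 then Y m else decide (m ∈ DD P)
      have hY1 : Y1 ∈ Comp (DD P) L y (2 ^ t) := by
        refine Comp_sup hY (fun m hm => ?_) (fun m hm h => ?_) (fun m h => ?_)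
        · have : m < L1 := lt_of_lt_of_le hm (le_max_left _ _)
          simp [Y1, this, hY.1 m hm]
        · by_cases hm' : m < L1
          · exact hY.2.1 m hm (by simpa [Y1, hm'] using h)
          · simpa [Y1, hm'] using h
        · by_cases hm' : m < L1
          · simpa [Y1, hm'] using h
          · have := hY.2.1 m (le_trans (le_max_left _ _) (not_lt.1 hm')) h
            simpa [Y1, hm'] using this
      obtain ⟨N, hN⟩ := eventually_atTop.1 (hD P hP (4 * 2 ^ t))
      let L' := max N (4 * 2 ^ t * L1)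
      have hL1 : L1 ≤ L' := le_trans (Nat.le_mul_of_pos_left _ (by positivity)) (le_max_right _ _)
      have := Comp_refine (D' := DD P) (L1 := L1) (L' := L') hY1 subset_rfl
        (le_trans (le_max_left _ _) hL1) (le_max_right _ _)
        (fun m hm h => by simpa [Y1, not_lt.2 hm] using h)
        (fun n hn => hN n (le_trans (le_max_left _ _) hn))
      refine ⟨_, this.1, ⟨L', Y1, P, hP, by rw [pow_succ'], this.2⟩, fun Y' hY' => Or.inl ?_⟩
      refine hL0 Y' fun m hm => ?_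
      have h1 : m < L1 := lt_of_lt_of_le hm (le_max_right _ _)
      rw [hY'.1 m (lt_of_lt_of_le h1 hL1)]
      simp [Y1, h1]
    · push Not at hc
      obtain ⟨Y0, hY0⟩ := hne
      let Y1 : ℕ → Bool := fun m => if m < L then y m else decide (m ∈ DD P)
      have hY1 : Y1 ∈ Comp (DD P) L y (2 ^ t) := by
        refine Comp_sup hY0 (fun m hm => by simp [Y1, hm])
          (fun m hm h => by simpa [Y1, not_lt.2 hm] using h) (fun m h => ?_)
        by_cases hm' : m < L
        · simpa [Y1, hm', ← hY0.1 m hm'] using h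
        · simpa [Y1, hm'] using hY0.2.1 m (not_lt.1 hm') h
      have hP' : ∀ i ≥ k, ∀ x ∈ P ∪ PP (q' + 1) i, k ≤ x ∧ q' + 1 ∣ x := by
        intro i hi x hx
        rcases Finset.mem_union.1 hx with h | h
        · exact hP x h
        · exact ⟨le_trans hi (mem_PP (Nat.succ_pos _) h).1, (mem_PP (Nat.succ_pos _) h).2⟩
      obtain ⟨i, hi, j, hj, h1, h2⟩ := hg w ψ (Z0 ∪ P) (2 ^ t) q' (i0 + k + 4 * 2 ^ t * L)
        (fun i hi => by
          have := hD _ (hP' i (by omega)) (4 * 2 ^ t)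
          rwa [← Finset.union_assoc] at this)
      rw [Finset.union_assoc] at h1 h2
      set P' := P ∪ PP (q' + 1) i with hP'def
      have hDD : DD P' ⊆ DD P := dom01_mono (app_mono _ (gr_anti _
        (Finset.union_subset_union_right Finset.subset_union_left)))
      have hBB : app (W w) (gr g (Z0 ∪ P')) ⊆ B0 := app_mono _ (gr_anti _ Finset.subset_union_left)
      have hLj : L ≤ j := le_trans (Nat.le_mul_of_pos_left L (by positivity : 0 < 4 * 2 ^ t))
        (by omega)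
      have := Comp_refine (D' := DD P') (L1 := L) (L' := j) hY1 hDD hLj (by omega)
        (fun m hm h => by simpa [Y1, not_lt.2 hm] using hDD h) h1
      refine ⟨_, this.1, ⟨j, Y1, P', hP' i (by omega), by rw [pow_succ'], this.2⟩,
        fun Y hY => Or.inr ⟨i, by simp only; omega, fun n hn hrel => ?_⟩⟩
      let κ : Finset ℕ × Finset ℕ := ((Finset.range j).filter (fun m => cd (bit B0) Y1 m = 1),
        (Finset.range j).filter (fun m => cd (bit B0) Y1 m = 2))
      have hκ : ∀ m < j, val κ m = cd (bit B0) Y1 m := by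
        intro m hm
        simp only [val, κ, Finset.mem_filter, Finset.mem_range, hm, true_and]
        have : cd (bit B0) Y1 m = 0 ∨ cd (bit B0) Y1 m = 1 ∨ cd (bit B0) Y1 m = 2 := by
          unfold cd bit; split_ifs <;> simp
        rcases this with h | h | h <;> simp [h]
      have hbit0 : ∀ m, (m, 0) ∈ app (W w) (gr g (Z0 ∪ P')) → bit B0 m = 0 := fun m h => by
        simp [bit, hsv m (hBB h)]
      have hbit1 : ∀ m, (m, 1) ∈ app (W w) (gr g (Z0 ∪ P')) → bit B0 m = 1 := fun m h => by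
        simp [bit, hBB h]
      rcases h2 κ (Finset.mem_product.2 ⟨Finset.mem_powerset.2 (Finset.filter_subset _ _),
        Finset.mem_powerset.2 (Finset.filter_subset _ _)⟩) n hn with h | ⟨v, hv, h⟩
      · obtain ⟨L0, hL0⟩ := (Ψ ψ).cont _ _ _ hrel
        refine h (g n) ⟨max j L0, le_max_left _ _, cd (bit B0) Y, fun m hm => ?_, fun m hm => ?_,
          fun n' hn' _ => ?_, fun σ' hσ' => hL0 σ' fun m hm =>
            hσ' m (lt_of_lt_of_le hm (le_max_right _ _))⟩
        · rw [hκ m hm]; simp [cd, hY.1 m hm]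
        · by_cases hYm : Y m = true
          · rcases hY.2.1 m (Finset.mem_Ico.1 hm).1 hYm with h' | h'
            · exact Or.inr (Or.inl ⟨by simp [cd, hYm, hbit0 m h'], h'⟩)
            · exact Or.inr (Or.inr ⟨by simp [cd, hYm, hbit1 m h'], h'⟩)
          · exact Or.inl (by simp [cd, hYm])
        · rw [miss_congr (T := {m | Y m = true}) fun m _ => by simp [cd]]
          exact hY.2.2 n' hn'
      · obtain ⟨j'', hj'', σ, s1, s2, s3, s4⟩ := h
        let Y' : ℕ → Bool := fun m => if m < j'' then decide (σ m ≠ 0) else decide (m ∈ DD P')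
        have hY'lt : ∀ m < j, Y' m = Y1 m := by
          intro m hm
          have : m < j'' := by omega
          simp only [Y', this, if_true, s1 m hm, hκ m hm, cd]
          by_cases h : Y1 m = true <;> simp [h]
        have hY'ge : ∀ m ≥ j, Y' m = true → m ∈ DD P' := by
          intro m hm h
          by_cases hm' : m < j''
          · simp only [Y', hm', if_true, decide_eq_true_eq] at h
            rcases s2 m (Finset.mem_Ico.2 ⟨hm, hm'⟩) with h' | h' | h'
            · exact absurd h' h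
            · exact Or.inl h'.2
            · exact Or.inr h'.2
          · simpa [Y', hm'] using h
        have hY'K : Y' ∈ Comp (DD P) L y (2 ^ t) := by
          refine ⟨fun m hm => by rw [hY'lt m (by omega), hY1.1 m hm], fun m hm h => ?_,
            fun n' hn' => ?_⟩
          · by_cases hm' : m < j
            · exact hY1.2.1 m hm (by rw [← hY'lt m hm', h])
            · exact hDD (hY'ge m (not_lt.1 hm') h)
          · by_cases a1 : n' ≤ j
            · rw [miss_congr (T := {m | Y1 m = true}) fun m hm => by simp [hY'lt m (by omega)]]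
              exact hY1.2.2 n' hn'
            · by_cases a2 : n' ≤ j''
              · rw [miss_congr (T := {m | σ m ≠ 0}) fun m hm => by
                  have : m < j'' := by omega
                  simp [Y', this]]
                have := s3 n' (by omega) a2
                nlinarith
              · have b1 := s3 j'' hj'' le_rfl
                have b2 := h1 n' (by omega)
                have b3 : miss {m | Y' m = true} n' ≤
                    miss {m | σ m ≠ 0} j'' + miss (DD P') n' := by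
                  have c1 : miss {m | σ m ≠ 0 ∨ j'' ≤ m} n' ≤ miss {m | σ m ≠ 0} j'' := by
                    unfold miss
                    apply Finset.card_le_card
                    intro x hx
                    simp only [Finset.mem_filter, Finset.mem_range, mem_ofPred_eq, not_or,
                      not_le] at hx ⊢
                    exact ⟨hx.2.2, hx.2.1⟩
                  refine le_trans (miss_mono (S := {m | σ m ≠ 0 ∨ j'' ≤ m} ∩ DD P') ?_ n')
                    (le_trans (miss_inter _ _ _) (by omega))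
                  rintro m ⟨d1, d2⟩
                  by_cases hm' : m < j''
                  · have : σ m ≠ 0 := d1.resolve_right (by omega)
                    simp [Y', hm', this]
                  · simp [Y', hm', d2]
                change 4 * 2 ^ t * miss (DD P') n' ≤ n' at b2
                have b4 := Nat.mul_le_mul_left (2 ^ t) b3
                have b5 : j'' ≤ n' := by omega
                rw [mul_add] at b4
                rw [mul_assoc] at b1 b2
                omega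
        have hrel' : (Ψ ψ).rel (cd (bit B0) Y') n v := by
          refine s4 _ fun m hm => ?_
          by_cases hm' : m < j
          · rw [s1 m hm', hκ m hm']; simp [cd, hY'lt m hm']
          · rcases s2 m (Finset.mem_Ico.2 ⟨not_lt.1 hm', hm⟩) with h' | h' | h'
            · simp [cd, Y', hm, h']
            · simp [cd, Y', hm, h'.1, hbit0 m h'.2]
            · simp [cd, Y', hm, h'.1, hbit1 m h'.2]
        rcases hF2 ψ Y Y' n v hrel hrel' hv with h' | h'
        · exact hc Y' hY'K h'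
        · have hYK := this.1 hY
          refine hc _ (Comp_sup hYK (fun m hm => ?_) (fun m hm h => ?_) (fun m h => ?_)) h'
          · simp [hYK.1 m hm, hY'K.1 m hm]
          · rcases Bool.or_eq_true_iff.1 h with h | h
            · exact hYK.2.1 m hm h
            · exact hY'K.2.1 m hm h
          · simp [h]
  obtain ⟨Y, hY0, hW, hG⟩ := diag Good
    (fun t K ⟨L, y, P, _, e, hne⟩ => ⟨e ▸ isClosed_Comp _ _ _ _, hne⟩) Win inferInstance step
    (Comp (DD ∅) 0 (fun _ => false) (2 ^ 0))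
    ⟨0, _, ∅, by simp, rfl, ⟨fun _ => false, fun _ _ => rfl, by simp, fun n _ => by
      have := ncard_add_miss {m : ℕ | (fun _ : ℕ => false) m = true} n
      omega⟩⟩
  refine ⟨Y, fun t => ?_, fun m hm => by simpa [DD] using hY0.2.1 m (Nat.zero_le _) hm,
    fun ψ => ?_⟩
  · obtain ⟨K, ⟨L, y, P, -, rfl, -⟩, hK⟩ := hG t
    filter_upwards [eventually_ge_atTop L] with n hn
    exact le_trans (Nat.mul_le_mul_right _ Nat.lt_two_pow_self.le) (hK.2.2 n hn)
  · by_cases hf : Fatal ψ Y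
    · exact Or.inl hf
    · exact Or.inr (not_D1_of_PP hq fun i0 => (hW (ψ, i0)).resolve_left hf)

end Pool.Agent.P.MP_106a28_lc
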