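import Pool.Agent.P.MP_106a28_lc.TR

set_option autoImplicit false

namespace Pool.Agent.P.MP_106a28_lc

open Filter Topology Set

theorem cnt_zero (P : ℕ → Prop) : cnt P 0 = 0 := by simp [cnt]

theorem cnt_mono {P Q : ℕ → Prop} {m : ℕ} (h : ∀ u < m, P u → Q u) : cnt P m ≤ cnt Q m := by
  classical
  unfold cnt
  apply Finset.card_le_card
  intro x hx
  simp only [Finset.mem_filter, Finset.mem_range] at hx ⊢
  exact ⟨hx.1, h x hx.1 hx.2⟩

theorem cnt_congr {P Q : ℕ → Prop} {m : ℕ} (h : ∀ u < m, P u ↔ Q u) : cnt P m = cnt Q m :=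
  le_antisymm (cnt_mono fun u hu => (h u hu).1) (cnt_mono fun u hu => (h u hu).2)

theorem cnt_or (P Q : ℕ → Prop) (m : ℕ) : cnt (fun u => P u ∨ Q u) m ≤ cnt P m + cnt Q m := by
  classical
  unfold cnt
  refine le_trans (Finset.card_le_card ?_) (Finset.card_union_le _ _)
  intro x hx
  simp only [Finset.mem_filter, Finset.mem_union] at hx ⊢
  tauto

theorem cnt_le_add {P Q R : ℕ → Prop} {m : ℕ} (h : ∀ u < m, P u → Q u ∨ R u) :
    cnt P m ≤ cnt Q m + cnt R m := le_trans (cnt_mono h) (cnt_or _ _ _)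

theorem cnt_true {P : ℕ → Prop} {m : ℕ} (h : ∀ u < m, P u) : cnt P m = m := by
  classical
  unfold cnt
  rw [Finset.filter_true_of_mem fun x hx => h x (Finset.mem_range.1 hx), Finset.card_range]

theorem cnt_false {P : ℕ → Prop} {m : ℕ} (h : ∀ u < m, ¬ P u) : cnt P m = 0 := by
  classical
  unfold cnt
  rw [Finset.filter_false_of_mem fun x hx => h x (Finset.mem_range.1 hx), Finset.card_empty]

theorem cnt_split (P Q : ℕ → Prop) (m : ℕ) :
    cnt (fun u => P u ∧ Q u) m + cnt (fun u => P u ∧ ¬ Q u) m = cnt P m := by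
  classical
  induction m with
  | zero => simp [cnt_zero]
  | succ m ih =>
    rw [cnt_succ, cnt_succ, cnt_succ, ← ih]
    by_cases h : P m <;> by_cases h' : Q m <;> simp [h, h'] <;> omega

theorem cnt_add (P : ℕ → Prop) (m n : ℕ) :
    cnt P (m + n) = cnt P m + cnt (fun u => P (m + u)) n := by
  classical
  induction n with
  | zero => simp [cnt_zero]
  | succ n ih => rw [← add_assoc, cnt_succ, cnt_succ, ih, add_assoc]

open Classical in
theorem cnt_eq_sum (P : ℕ → Prop) (m : ℕ) :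
    cnt P m = ∑ u ∈ Finset.range m, if P u then 1 else 0 := by
  unfold cnt; rw [Finset.card_filter]

theorem cnt_grid (P : ℕ → Prop) (N R : ℕ) :
    cnt P (N * R) = ∑ a ∈ Finset.range N, cnt (fun u => P (a + N * u)) R := by
  classical
  induction R with
  | zero => simp [cnt_zero]
  | succ R ih =>
    rw [mul_add_one, cnt_add, ih, cnt_eq_sum, ← Finset.sum_add_distrib]
    refine Finset.sum_congr rfl fun a _ => ?_
    rw [cnt_succ, add_comm a]

theorem cnt_prod (Q Q' : ℕ → Prop) (N R : ℕ) :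
    cnt (fun p => Q (p % N) ∧ Q' (p / N)) (N * R) = cnt Q N * cnt Q' R := by
  classical
  rw [cnt_grid, cnt_eq_sum Q, Finset.sum_mul]
  refine Finset.sum_congr rfl fun a ha => ?_
  have ha := Finset.mem_range.1 ha
  have e1 : ∀ u, (a + N * u) % N = a := fun u => by
    rw [Nat.add_mul_mod_self_left, Nat.mod_eq_of_lt ha]
  have e2 : ∀ u, (a + N * u) / N = u := fun u => by
    rw [Nat.add_mul_div_left _ _ (by omega), Nat.div_eq_of_lt ha, zero_add]
  simp only [e1, e2]
  by_cases h : Q a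
  · simp [h]
  · simp [h, cnt_false]

theorem markov (x : ℕ → ℕ) (c U N : ℕ) :
    cnt (fun a => U ≤ c * x a) N * U ≤ c * ∑ a ∈ Finset.range N, x a := by
  classical
  rw [cnt_eq_sum, Finset.sum_mul, Finset.mul_sum]
  refine Finset.sum_le_sum fun a _ => ?_
  split_ifs with h <;> simp [h]

theorem cnt_exists (B : ℕ → ℕ → Prop) (c M N k0 : ℕ) (h : ∀ k < k0, c * cnt (B k) N ≤ M) :
    c * cnt (fun a => ∃ k < k0, B k a) N ≤ k0 * M := by
  induction k0 with
  | zero => simp [cnt_false]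
  | succ k0 ih =>
    have h1 := ih fun k hk => h k (by omega)
    have h2 := h k0 (by omega)
    have h3 : cnt (fun a => ∃ k < k0 + 1, B k a) N ≤
        cnt (fun a => ∃ k < k0, B k a) N + cnt (B k0) N := cnt_le_add fun u _ ⟨k, hk, hb⟩ => by
      by_cases e : k = k0
      · exact Or.inr (e ▸ hb)
      · exact Or.inl ⟨k, by omega, hb⟩
    have := Nat.mul_le_mul_left c h3
    nlinarith

/-- bit test -/
def tb (r w : ℕ) : Prop := r / 2 ^ w % 2 = 1

theorem tb_iff (r w : ℕ) : tb r w ↔ r.testBit w = true := by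
  simp [tb, Nat.testBit_eq_decide_div_mod_eq]

theorem cnt_half (m v : ℕ) (hv : v < m) (P : ℕ → Prop) (hP : ∀ r, P r → P (r ^^^ 2 ^ v)) :
    cnt (fun r => P r ∧ tb r v) (2 ^ m) = cnt (fun r => P r ∧ ¬ tb r v) (2 ^ m) := by
  classical
  unfold cnt
  have hlt : ∀ r < 2 ^ m, r ^^^ 2 ^ v < 2 ^ m := fun r hr =>
    Nat.xor_lt_two_pow hr (Nat.pow_lt_pow_right (by omega) hv)
  refine Finset.card_nbij' (fun r => r ^^^ 2 ^ v) (fun r => r ^^^ 2 ^ v) ?_ ?_ ?_ ?_
  · intro r hr
    simp only [Finset.coe_filter, Finset.mem_range, mem_ofPred_eq, tb_iff] at hr ⊢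
    exact ⟨hlt r hr.1, hP r hr.2.1, by simp [Nat.testBit_xor, hr.2.2]⟩
  · intro r hr
    simp only [Finset.coe_filter, Finset.mem_range, mem_ofPred_eq, tb_iff] at hr ⊢
    exact ⟨hlt r hr.1, hP r hr.2.1, by simp [Nat.testBit_xor, hr.2.2]⟩
  · intro r _; simp
  · intro r _; simp

theorem cnt_tb (m v : ℕ) (hv : v < m) : 2 * cnt (fun r => tb r v) (2 ^ m) = 2 ^ m := by
  have h1 := cnt_half m v hv (fun _ => True) (fun _ _ => trivial)
  have h2 := cnt_split (fun _ => True) (fun r => tb r v) (2 ^ m)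
  rw [cnt_true (P := fun _ => True) (fun _ _ => trivial)] at h2
  simp only [true_and] at h1 h2
  omega

theorem cnt_tb2 (m v w : ℕ) (hv : v < m) (hw : w < m) (hvw : v ≠ w) :
    4 * cnt (fun r => tb r v ∧ ¬ tb r w) (2 ^ m) = 2 ^ m := by
  have h1 := cnt_half m w hw (fun r => tb r v) (fun r hr => by
    rw [tb_iff] at hr ⊢
    simp [Nat.testBit_xor, hr, hvw.symm])
  have h2 := cnt_split (fun r => tb r v) (fun r => tb r w) (2 ^ m)
  have h3 := cnt_tb m v hv
  omega

/-- number of elements of the `i`-th dyadic block missed by `S` -/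
noncomputable def bm (S : Set ℕ) (i : ℕ) : ℕ := cnt (fun p => 2 ^ i + p ∉ S) (2 ^ i)

theorem miss_eq_cnt (S : Set ℕ) (n : ℕ) : miss S n = cnt (· ∉ S) n := by
  unfold miss cnt; congr

theorem miss_pow (S : Set ℕ) (i : ℕ) : miss S (2 ^ (i + 1)) = miss S (2 ^ i) + bm S i := by
  rw [miss_eq_cnt, miss_eq_cnt, pow_succ, mul_two, cnt_add, bm]

theorem miss_le_self (S : Set ℕ) (n : ℕ) : miss S n ≤ n := by
  have := ncard_add_miss S n; omega

theorem miss_mono_right (S : Set ℕ) {m n : ℕ} (h : m ≤ n) : miss S m ≤ miss S n := by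
  obtain ⟨k, rfl⟩ := Nat.exists_eq_add_of_le h
  rw [miss_eq_cnt, miss_eq_cnt, cnt_add]; omega

theorem D1_iff_bm (S : Set ℕ) : D1 S ↔ ∀ t, ∀ᶠ i in atTop, t * bm S i ≤ 2 ^ i := by
  constructor
  · intro h t
    obtain ⟨N, hN⟩ := eventually_atTop.1 (h (2 * t))
    filter_upwards [eventually_ge_atTop N] with i hi
    have h1 := hN (2 ^ (i + 1)) (by have := Nat.lt_two_pow_self (n := i + 1); omega)
    rw [miss_pow, pow_succ] at h1
    nlinarith [Nat.zero_le (t * miss S (2 ^ i))]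
  · intro h t
    obtain ⟨i0, h0⟩ := eventually_atTop.1 (h (3 * t))
    have key : ∀ m, 3 * t * miss S (2 ^ (i0 + m)) ≤ 3 * t * 2 ^ i0 + 2 ^ (i0 + m) := by
      intro m
      induction m with
      | zero =>
        have := Nat.mul_le_mul_left (3 * t) (miss_le_self S (2 ^ i0))
        have := Nat.two_pow_pos i0
        simp only [add_zero]; omega
      | succ m ih =>
        have := h0 (i0 + m) (by omega)
        rw [← add_assoc, miss_pow, pow_succ, mul_add]
        omega
    filter_upwards [eventually_ge_atTop (3 * t * 2 ^ i0 + 2 ^ i0)] with n hn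
    have hn0 : n ≠ 0 := by have := Nat.two_pow_pos i0; omega
    have h1 := Nat.pow_log_le_self 2 hn0
    have h2 := Nat.lt_pow_succ_log_self (b := 2) (by omega) n
    have h3 : i0 ≤ Nat.log 2 n := Nat.le_log_of_pow_le (by omega) (by omega)
    obtain ⟨m, hm⟩ := Nat.exists_eq_add_of_le h3
    have h4 := key (m + 1)
    have h5 := Nat.mul_le_mul_left (3 * t) (miss_mono_right S h2.le)
    rw [hm] at h1 h2 h5
    rw [Nat.succ_eq_add_one, add_assoc] at h5
    rw [← add_assoc, pow_succ] at h4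
    rw [← add_assoc, pow_succ] at h5
    rw [mul_assoc] at h4 h5
    rw [mul_assoc 3 t (2 ^ i0)] at h4 hn
    rw [mul_assoc] at h5
    have := Nat.two_pow_pos i0
    omega

end Pool.Agent.P.MP_106a28_lc
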