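import Pool.Agent.P.MP_106a28_lc.Enc

set_option autoImplicit false

namespace Pool.Agent.P.MP_106a28_lc

open Filter Topology Set

/-- observed number of ones in block `j` -/
noncomputable def ones (e : ℕ → ℕ) (j : ℕ) : ℕ := cnt (fun p => e (2 ^ j + p) = 1) (2 ^ j)

/-- the threshold at level `k` -/
noncomputable def SS (e : ℕ → ℕ) (i k : ℕ) : ℕ :=
  sInf {s | 2 * (k + 1) * ones e (Nat.pair i (s + 1)) < 2 ^ Nat.pair i (s + 1)}

/-- the number of ones in a row which contradict the value `w` -/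
noncomputable def rc (e : ℕ → ℕ) (i s a w : ℕ) : ℕ :=
  cnt (fun u => e (2 ^ Nat.pair i s + (a + 2 ^ i * u)) = 1 ∧ ¬ tb (u / 2 ^ i) w)
    (2 ^ (Nat.pair i s - i))

/-- the value decoded at level `k` -/
noncomputable def WK (e : ℕ → ℕ) (i k a : ℕ) : ℕ :=
  sInf {w | SS e i k < w ∨ 16 * (k + 1) * rc e i (SS e i k) a w < 2 ^ (Nat.pair i (SS e i k) - i)}

/-- the level used -/
noncomputable def KK (e : ℕ → ℕ) (i a : ℕ) : ℕ := sInf {k | i < k ∨ WK e i k a ≤ SS e i k}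

/-- the decoder -/
noncomputable def dec (e : ℕ → ℕ) (n : ℕ) : ℕ :=
  WK e (lg n) (KK e (lg n) (n - 2 ^ lg n)) (n - 2 ^ lg n)

/-- errors in block `j` -/
noncomputable def err (e g : ℕ → ℕ) (j : ℕ) : ℕ := bm {x | e x = (AA g).indicator 1 x} j

/-- errors in a row -/
noncomputable def rerr (e g : ℕ → ℕ) (i s a : ℕ) : ℕ :=
  cnt (fun u => 2 ^ Nat.pair i s + (a + 2 ^ i * u) ∉ {x | e x = (AA g).indicator 1 x})
    (2 ^ (Nat.pair i s - i))

/-- number of large values -/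
noncomputable def TT (g : ℕ → ℕ) (i s : ℕ) : ℕ := cnt (fun a => s ≤ g (2 ^ i + a)) (2 ^ i)

theorem SS_ex {e g : ℕ → ℕ} (h : Coarse e ((AA g).indicator 1)) (i k : ℕ) :
    ∃ s, 2 * (k + 1) * ones e (Nat.pair i (s + 1)) < 2 ^ Nat.pair i (s + 1) := by
  unfold Coarse at h
  rw [dens1_iff, D1_iff_bm] at h
  obtain ⟨j0, h0⟩ := eventually_atTop.1 (h (4 * (k + 1)))
  set s := j0 + (Finset.range (2 ^ (i + 1))).sup g
  refine ⟨s, ?_⟩
  have h1 := h0 (Nat.pair i (s + 1)) (by have := Nat.right_le_pair i (s + 1); omega)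
  have h2 : ones e (Nat.pair i (s + 1)) ≤
      bm {x | e x = (AA g).indicator 1 x} (Nat.pair i (s + 1)) := cnt_mono fun p hp h => by
    simp [not_AA (g := g) hp (by omega), h]
  have := Nat.two_pow_pos (Nat.pair i (s + 1))
  nlinarith

section
variable {𝒟 : Set (ℕ → ℕ)} {F G H K : (ℕ → ℕ) → ℕ → ℕ}

theorem TR.two (hF : TR 𝒟 F) : TR 𝒟 fun d a => 2 ^ F d a := (TR.const 2).pow hF

theorem TR.ones (hF : TR 𝒟 F) : TR 𝒟 fun d a => ones d (F d a) :=
  TR.cnt (P := fun d a p => d (2 ^ F d a + p) = 1)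
    (TRP.eq (TR.orc ((hF.comp TR.id.l).two.add TR.id.r)) (TR.const 1)) hF.two

theorem TR.rc (hF : TR 𝒟 F) (hG : TR 𝒟 G) (hH : TR 𝒟 H) (hK : TR 𝒟 K) :
    TR 𝒟 fun d a => rc d (F d a) (G d a) (H d a) (K d a) := by
  have h1 := hF.comp TR.id.l
  exact TR.cnt (P := fun d a u => d (2 ^ Nat.pair (F d a) (G d a) + (H d a + 2 ^ F d a * u)) = 1 ∧
      ¬ tb (u / 2 ^ F d a) (K d a))
    (TRP.and (TRP.eq (TR.orc ((h1.pair (hG.comp TR.id.l)).two.add
      ((hH.comp TR.id.l).add (h1.two.mul TR.id.r)))) (TR.const 1))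
      (TRP.tb (TR.id.r.div h1.two) (hK.comp TR.id.l)).not) ((hF.pair hG).sub hF).two

/-- the searches stop -/
def ExS (𝒟 : Set (ℕ → ℕ)) : Prop := ∀ e ∈ 𝒟, ∀ i k,
  ∃ s, 2 * (k + 1) * ones e (Nat.pair i (s + 1)) < 2 ^ Nat.pair i (s + 1)

variable (ex : ExS 𝒟)
include ex

theorem TR.SS (hF : TR 𝒟 F) (hG : TR 𝒟 G) : TR 𝒟 fun d a => SS d (F d a) (G d a) := by
  have h1 := (hF.comp TR.id.l).pair (TR.id.r.add (TR.const 1))
  exact TR.find (P := fun d a s => 2 * (G d a + 1) *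
      Pool.Agent.P.MP_106a28_lc.ones d (Nat.pair (F d a) (s + 1)) < 2 ^ Nat.pair (F d a) (s + 1))
    (TRP.lt (((TR.const 2).mul ((hG.comp TR.id.l).add (TR.const 1))).mul h1.ones) h1.two)
    fun d hd a => ex d hd _ _

theorem TR.WK (hF : TR 𝒟 F) (hG : TR 𝒟 G) (hH : TR 𝒟 H) :
    TR 𝒟 fun d a => WK d (F d a) (G d a) (H d a) := by
  have h1 := hF.comp TR.id.l
  have h2 := hG.comp TR.id.l
  have h3 := TR.SS ex h1 h2
  exact TR.find (P := fun d a w => Pool.Agent.P.MP_106a28_lc.SS d (F d a) (G d a) < w ∨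
      16 * (G d a + 1) * Pool.Agent.P.MP_106a28_lc.rc d (F d a)
        (Pool.Agent.P.MP_106a28_lc.SS d (F d a) (G d a)) (H d a) w <
      2 ^ (Nat.pair (F d a) (Pool.Agent.P.MP_106a28_lc.SS d (F d a) (G d a)) - F d a))
    (TRP.or (TRP.lt h3 TR.id.r) (TRP.lt (((TR.const 16).mul (h2.add (TR.const 1))).mul
      (TR.rc h1 h3 (hH.comp TR.id.l) TR.id.r)) ((h1.pair h3).sub h1).two))
    fun d _ a => ⟨_, Or.inl (Nat.lt_succ_self _)⟩

theorem TR.KK (hF : TR 𝒟 F) (hG : TR 𝒟 G) : TR 𝒟 fun d a => KK d (F d a) (G d a) := by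
  have h1 := hF.comp TR.id.l
  exact TR.find (P := fun d a k => F d a < k ∨ Pool.Agent.P.MP_106a28_lc.WK d (F d a) k (G d a) ≤
      Pool.Agent.P.MP_106a28_lc.SS d (F d a) k)
    (TRP.or (TRP.lt h1 TR.id.r) (TRP.le (TR.WK ex h1 TR.id.r (hG.comp TR.id.l))
      (TR.SS ex h1 TR.id.r)))
    fun d _ a => ⟨_, Or.inl (Nat.lt_succ_self _)⟩

theorem TR.dec : TR 𝒟 fun d a => dec d a := by
  have h1 := (TR.id (𝒟 := 𝒟)).sub TR.id.lg.two
  exact TR.WK ex TR.id.lg (TR.KK ex TR.id.lg h1) h1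

end

theorem EB'_row {g : ℕ → ℕ} {i s a : ℕ} (ha : a < 2 ^ i) (u : ℕ) :
    EB' g i s (a + 2 ^ i * u) ↔
      s ≤ g (2 ^ i + u % 2 ^ i) ∧ tb (u / 2 ^ i) (min (g (2 ^ i + a)) (s + 1)) := by
  rw [EB', Nat.add_mul_mod_self_left, Nat.mod_eq_of_lt ha,
    Nat.add_mul_div_left _ _ (Nat.two_pow_pos i), Nat.div_eq_of_lt ha, zero_add]

theorem row_lt {i s a u : ℕ} (ha : a < 2 ^ i) (hu : u < 2 ^ (Nat.pair i s - i)) :
    a + 2 ^ i * u < 2 ^ Nat.pair i s := by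
  rw [pow_pair, ← pow_pair']
  nlinarith

theorem true_ones (g : ℕ → ℕ) {i : ℕ} (hi : 2 ≤ i) (s : ℕ) :
    2 * cnt (EB' g i s) (2 ^ Nat.pair i s) = TT g i s * 2 ^ (Nat.pair i s - i) := by
  rw [pow_pair, cnt_grid, Finset.mul_sum, pow_pair',
    Finset.sum_congr rfl (g := fun _ => TT g i s * 2 ^ (Nat.pair i s - 2 * i))]
  · simp only [Finset.sum_const, Finset.card_range, smul_eq_mul]; ring
  · intro a ha
    rw [cnt_congr fun u _ => EB'_row (Finset.mem_range.1 ha) u,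
      cnt_prod (fun a => s ≤ g (2 ^ i + a)) (fun r => tb r (min (g (2 ^ i + a)) (s + 1)))]
    have := cnt_tb (Nat.pair i s - 2 * i) (min (g (2 ^ i + a)) (s + 1))
      (by have := pair_ge' hi s; omega)
    rw [TT]
    conv_rhs => rw [← this]
    ring

theorem ones_le (e g : ℕ → ℕ) (i s : ℕ) :
    ones e (Nat.pair i s) ≤ cnt (EB' g i s) (2 ^ Nat.pair i s) + err e g (Nat.pair i s) :=
  cnt_le_add fun p hp h => by
    by_cases h' : EB' g i s p
    · exact Or.inl h'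
    · exact Or.inr (by simp [mt (mem_AA hp).1 h', h])

theorem le_ones (e g : ℕ → ℕ) (i s : ℕ) :
    cnt (EB' g i s) (2 ^ Nat.pair i s) ≤ ones e (Nat.pair i s) + err e g (Nat.pair i s) :=
  cnt_le_add fun p hp h => by
    by_cases h' : e (2 ^ Nat.pair i s + p) = 1
    · exact Or.inl h'
    · exact Or.inr (by simp [(mem_AA hp).2 h, h'])

theorem sum_rerr (e g : ℕ → ℕ) (i s : ℕ) :
    ∑ a ∈ Finset.range (2 ^ i), rerr e g i s a = err e g (Nat.pair i s) := by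
  have : 2 ^ Nat.pair i s = 2 ^ i * 2 ^ (Nat.pair i s - i) := by rw [pow_pair, pow_pair']
  rw [err, bm]
  conv_rhs => arg 2; rw [this]
  rw [cnt_grid]
  rfl

theorem rc_true (e g : ℕ → ℕ) {i a : ℕ} (s : ℕ) (ha : a < 2 ^ i) :
    rc e i s a (min (g (2 ^ i + a)) (s + 1)) ≤ rerr e g i s a :=
  cnt_mono fun u hu h => by
    have : 2 ^ Nat.pair i s + (a + 2 ^ i * u) ∉ AA g := by
      rw [mem_AA (row_lt ha hu), EB'_row ha]
      exact fun h' => h.2 h'.2
    simp [this, h.1]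

theorem rc_false (e g : ℕ → ℕ) {i a s w : ℕ} (hi : 2 ≤ i) (ha : a < 2 ^ i) (hw : w ≤ s)
    (hne : w ≠ g (2 ^ i + a)) :
    TT g i s * 2 ^ (Nat.pair i s - 2 * i) ≤ 4 * rc e i s a w + 4 * rerr e g i s a := by
  have h1 : cnt (fun u => s ≤ g (2 ^ i + u % 2 ^ i) ∧
      (tb (u / 2 ^ i) (min (g (2 ^ i + a)) (s + 1)) ∧ ¬ tb (u / 2 ^ i) w))
      (2 ^ (Nat.pair i s - i)) ≤ rc e i s a w + rerr e g i s a := cnt_le_add fun u hu h => by
    by_cases h' : e (2 ^ Nat.pair i s + (a + 2 ^ i * u)) = 1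
    · exact Or.inl ⟨h', h.2.2⟩
    · have : 2 ^ Nat.pair i s + (a + 2 ^ i * u) ∈ AA g := by
        rw [mem_AA (row_lt ha hu), EB'_row ha]
        exact ⟨h.1, h.2.1⟩
      exact Or.inr (by simp [this, h'])
  rw [pow_pair', cnt_prod (fun a => s ≤ g (2 ^ i + a))
    (fun r => tb r (min (g (2 ^ i + a)) (s + 1)) ∧ ¬ tb r w)] at h1
  have h3 := pair_ge' hi s
  have h2 := cnt_tb2 (Nat.pair i s - 2 * i) (min (g (2 ^ i + a)) (s + 1)) w (by omega) (by omega)
    (by omega)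
  rw [TT, ← h2]
  nlinarith

section
variable {e g : ℕ → ℕ} {i c k : ℕ} (he : Coarse e ((AA g).indicator 1)) (hi : 2 ≤ i)
  (hc : ∀ s, c * err e g (Nat.pair i s) ≤ 2 ^ Nat.pair i s) (hk : 4 * (k + 1) ≤ c)
include he hi hc hk

theorem TT_small : (k + 1) * TT g i (SS e i k + 1) ≤ 2 * 2 ^ i := by
  have h1 : 2 * (k + 1) * ones e (Nat.pair i (SS e i k + 1)) < 2 ^ Nat.pair i (SS e i k + 1) :=
    Nat.sInf_mem (SS_ex he i k)
  set s := SS e i k + 1
  have h2 := le_ones e g i s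
  have h3 := true_ones g hi s
  have h4 := le_trans (Nat.mul_le_mul_right _ hk) (hc s)
  have h5 : 2 ^ Nat.pair i s = 2 ^ i * 2 ^ (Nat.pair i s - i) := by rw [pow_pair, pow_pair']
  have h6 := Nat.two_pow_pos (Nat.pair i s - i)
  refine Nat.le_of_mul_le_mul_right ?_ h6
  rw [mul_assoc, ← h3, mul_assoc 2 (2 ^ i), ← h5]
  nlinarith

omit he in
theorem TT_large : 2 ^ i ≤ 2 * (k + 1) * TT g i (SS e i k) := by
  rcases Nat.eq_zero_or_pos (SS e i k) with h | h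
  · rw [h, TT, cnt_true fun _ _ => Nat.zero_le _]
    nlinarith [Nat.two_pow_pos i]
  · have h1 : SS e i k - 1 ∉ {s | 2 * (k + 1) * ones e (Nat.pair i (s + 1)) <
        2 ^ Nat.pair i (s + 1)} := Nat.notMem_of_lt_sInf (by change _ < SS e i k; omega)
    rw [mem_ofPred_eq, Nat.sub_add_cancel h, not_lt] at h1
    set s := SS e i k
    have h2 := ones_le e g i s
    have h3 := true_ones g hi s
    have h4 := le_trans (Nat.mul_le_mul_right _ hk) (hc s)
    have h5 : 2 ^ Nat.pair i s = 2 ^ i * 2 ^ (Nat.pair i s - i) := by rw [pow_pair, pow_pair']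
    have h6 := Nat.two_pow_pos (Nat.pair i s - i)
    refine Nat.le_of_mul_le_mul_right ?_ h6
    rw [mul_assoc, ← h3, ← h5]
    nlinarith

theorem WK_good {a : ℕ} (ha : a < 2 ^ i)
    (hg : 16 * (k + 1) * rerr e g i (SS e i k) a < 2 ^ (Nat.pair i (SS e i k) - i)) :
    (WK e i k a ≤ SS e i k → WK e i k a = g (2 ^ i + a)) ∧
      (g (2 ^ i + a) ≤ SS e i k → WK e i k a ≤ SS e i k) := by
  constructor
  · intro h
    have h1 : SS e i k < WK e i k a ∨ 16 * (k + 1) * rc e i (SS e i k) a (WK e i k a) <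
        2 ^ (Nat.pair i (SS e i k) - i) :=
      Nat.sInf_mem (s := {w | SS e i k < w ∨ 16 * (k + 1) * rc e i (SS e i k) a w <
        2 ^ (Nat.pair i (SS e i k) - i)}) ⟨_, Or.inl (Nat.lt_succ_self _)⟩
    replace h1 := h1.resolve_left (by omega)
    by_contra hne
    have h2 := Nat.mul_le_mul_left (4 * (k + 1)) (rc_false e g hi ha h hne)
    have h3 := Nat.mul_le_mul_right (2 ^ (Nat.pair i (SS e i k) - 2 * i)) (TT_large hi hc hk)
    rw [pow_pair'] at h1 hg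
    nlinarith
  · intro h
    refine le_trans (Nat.sInf_le (Or.inr ?_)) h
    have := rc_true e g (SS e i k) ha
    rw [min_eq_left (by omega)] at this
    exact lt_of_le_of_lt (Nat.mul_le_mul_left _ this) hg

end

theorem dec_coarse {e g : ℕ → ℕ} (he : Coarse e ((AA g).indicator 1)) : Coarse (dec e) g := by
  have he' := he
  unfold Coarse at he' ⊢
  rw [dens1_iff, D1_iff_bm] at he' ⊢
  intro t
  set k0 := 4 * t
  set c := 32 * (t + 1) * (k0 + 1) * (k0 + 1) with hcdef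
  obtain ⟨j0, h0⟩ := eventually_atTop.1 (he' c)
  filter_upwards [eventually_ge_atTop (j0 + k0 + 2)] with i hi
  have hi2 : 2 ≤ i := by omega
  have hc : ∀ s, c * err e g (Nat.pair i s) ≤ 2 ^ Nat.pair i s := fun s =>
    h0 _ (by have := Nat.left_le_pair i s; omega)
  have hk : ∀ k ≤ k0, 4 * (k + 1) ≤ c := fun k hk => by
    have : 0 < 8 * (t + 1) * (k0 + 1) := by positivity
    nlinarith
  let B : ℕ → ℕ → Prop := fun k a =>
    2 ^ (Nat.pair i (SS e i k) - i) ≤ 16 * (k + 1) * rerr e g i (SS e i k) a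
  have h1 : bm {n | dec e n = g n} i ≤
      cnt (fun a => ∃ k < k0 + 1, B k a) (2 ^ i) + TT g i (SS e i k0 + 1) := by
    refine cnt_le_add fun a ha h => ?_
    by_contra hcon
    simp only [not_or, not_exists, not_and, B, not_le] at hcon
    obtain ⟨hg, hs⟩ := hcon
    apply h
    simp only [mem_ofPred_eq, dec, lg_block ha, add_tsub_cancel_left]
    have e1 := (WK_good he hi2 hc (hk k0 le_rfl) ha (hg k0 (by omega))).2 (by omega)
    have e2 : KK e i a ≤ k0 := Nat.sInf_le (Or.inr e1)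
    have e3 : i < KK e i a ∨ WK e i (KK e i a) a ≤ SS e i (KK e i a) :=
      Nat.sInf_mem (s := {k | i < k ∨ WK e i k a ≤ SS e i k}) ⟨k0, Or.inr e1⟩
    exact (WK_good he hi2 hc (hk _ e2) ha (hg _ (by omega))).1 (e3.resolve_left (by omega))
  have h2 := cnt_exists B c (16 * (k0 + 1) * 2 ^ i) (2 ^ i) (k0 + 1) fun k hk' => by
    have a1 := markov (rerr e g i (SS e i k)) (16 * (k + 1)) (2 ^ (Nat.pair i (SS e i k) - i))
      (2 ^ i)
    rw [sum_rerr] at a1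
    have a2 := hc (SS e i k)
    rw [pow_pair, ← pow_pair'] at a2
    refine Nat.le_of_mul_le_mul_right ?_ (Nat.two_pow_pos (Nat.pair i (SS e i k) - i))
    have a3 := Nat.mul_le_mul_left c a1
    have a4 := Nat.mul_le_mul_left (16 * (k + 1)) a2
    have a5 : 16 * (k + 1) * (2 ^ i * 2 ^ (Nat.pair i (SS e i k) - i)) ≤
        16 * (k0 + 1) * (2 ^ i * 2 ^ (Nat.pair i (SS e i k) - i)) :=
      Nat.mul_le_mul_right _ (by omega)
    change c * cnt (fun a => 2 ^ (Nat.pair i (SS e i k) - i) ≤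
      16 * (k + 1) * rerr e g i (SS e i k) a) (2 ^ i) * _ ≤ _
    nlinarith
  have h3 := TT_small he hi2 hc (hk k0 le_rfl)
  have h4 : 2 * (t + 1) * cnt (fun a => ∃ k < k0 + 1, B k a) (2 ^ i) ≤ 2 ^ i := by
    refine Nat.le_of_mul_le_mul_left ?_ (by positivity : 0 < 16 * (k0 + 1) * (k0 + 1))
    rw [hcdef] at h2
    nlinarith
  have h5 := Nat.mul_le_mul_left t h1
  simp only [k0] at h3
  nlinarith

theorem uc_dec (g : ℕ → ℕ) : UC g ((AA g).indicator 1) :=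
  TR.uc (TR.dec fun _ he => SS_ex he) fun _ hd => dec_coarse hd

theorem main : AllSets NC ∧ AllSets UC ∧ ¬ AllSets NED ∧ ¬ AllSets UED ∧ ¬ AllSets NG ∧
    ¬ AllSets UG ∧ ¬ AllSets ND ∧ ¬ AllSets UD :=
  ⟨fun g => ⟨AA g, (uc_enc g).nc, (uc_dec g).nc⟩, fun g => ⟨AA g, uc_enc g, uc_dec g⟩, neg_six⟩

end Pool.Agent.P.MP_106a28_lc
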