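import Mathlib

set_option autoImplicit false

namespace Pool.Agent.P.MP_106a28_lc

/-- `A` has asymptotic density one. -/
def Dens1 (A : Set ℕ) : Prop :=
  Filter.Tendsto (fun n : ℕ => ((A ∩ Set.Iio n).ncard : ℝ) / n) Filter.atTop (nhds 1)

/-- `f` is a coarse description of `g`. -/
def Coarse (f g : ℕ → ℕ) : Prop := Dens1 {n | f n = g n}

/-- `f` is a generic description of `g`. -/
def Generic (f : ℕ →. ℕ) (g : ℕ → ℕ) : Prop := Dens1 f.Dom ∧ ∀ n, ∀ v ∈ f n, v = g n

/-- `f` is a dense description of `g`. -/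
def DenseD (f : ℕ →. ℕ) (g : ℕ → ℕ) : Prop := Dens1 {n | g n ∈ f n}

/-- `f` is an effective dense description of `g`; `none` is the box symbol. -/
def EffDense (f : ℕ → Option ℕ) (g : ℕ → ℕ) : Prop :=
  (∀ n v, f n = some v → v = g n) ∧ Dens1 {n | f n ≠ none}

/-- The value of the enumeration operator `W` on the set `X`. -/
def app (W : Set (Finset (ℕ × ℕ) × (ℕ × ℕ))) (X : Set (ℕ × ℕ)) : Set (ℕ × ℕ) :=
  {k | ∃ F, (F, k) ∈ W ∧ (F : Set (ℕ × ℕ)) ⊆ X}

/-- Programs with one oracle (Turing functionals); the constructors are those of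
`Nat.RecursiveIn`. -/
inductive OCode : Type
  | zero : OCode
  | succ : OCode
  | left : OCode
  | right : OCode
  | oracle : OCode
  | pair : OCode → OCode → OCode
  | comp : OCode → OCode → OCode
  | prec : OCode → OCode → OCode
  | rfind : OCode → OCode

/-- The function computed by a program with oracle `d`. -/
def OCode.eval (d : ℕ →. ℕ) : OCode → ℕ →. ℕ
  | .zero => fun _ => Part.some 0
  | .succ => fun n => Part.some (n + 1)
  | .left => fun n => Part.some (Nat.unpair n).1
  | .right => fun n => Part.some (Nat.unpair n).2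
  | .oracle => d
  | .pair a b => fun n => (a.eval d n).bind fun x => (b.eval d n).map fun y => Nat.pair x y
  | .comp a b => fun n => (b.eval d n).bind (a.eval d)
  | .prec a b => fun p => Nat.rec (a.eval d (Nat.unpair p).1)
      (fun y IH => IH.bind fun i => b.eval d (Nat.pair (Nat.unpair p).1 (Nat.pair y i)))
      (Nat.unpair p).2
  | .rfind a => fun x => Nat.rfind fun n => (a.eval d (Nat.pair x n)).map fun m => decide (m = 0)

/-- A function with values in `Option ℕ`, coded as a function on the naturals. -/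
def code (d : ℕ → Option ℕ) : ℕ →. ℕ := fun n => Part.some (Encodable.encode (d n))

/-- nonuniform coarse reducibility -/
def NC (f g : ℕ → ℕ) : Prop :=
  ∀ d, Coarse d g → ∃ e, Coarse e f ∧ TuringReducible (e : ℕ →. ℕ) (d : ℕ →. ℕ)

/-- uniform coarse reducibility -/
def UC (f g : ℕ → ℕ) : Prop :=
  ∃ c : OCode, ∀ d, Coarse d g → ∃ e, Coarse e f ∧ c.eval (d : ℕ →. ℕ) = (e : ℕ →. ℕ)

/-- nonuniform effective dense reducibility -/
def NED (f g : ℕ → ℕ) : Prop :=
  ∀ d, EffDense d g → ∃ e, EffDense e f ∧ TuringReducible (code e) (code d)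

/-- uniform effective dense reducibility -/
def UED (f g : ℕ → ℕ) : Prop :=
  ∃ c : OCode, ∀ d, EffDense d g → ∃ e, EffDense e f ∧ c.eval (code d) = code e

/-- nonuniform generic reducibility -/
def NG (f g : ℕ → ℕ) : Prop :=
  ∀ d, Generic d g → ∃ e, Generic e f ∧ ∃ W, REPred (· ∈ W) ∧ e.graph = app W d.graph

/-- uniform generic reducibility -/
def UG (f g : ℕ → ℕ) : Prop :=
  ∃ W, REPred (· ∈ W) ∧ ∀ d, Generic d g → ∃ e, Generic e f ∧ e.graph = app W d.graph

/-- nonuniform dense reducibility -/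
def ND (f g : ℕ → ℕ) : Prop :=
  ∀ d, DenseD d g → ∃ e, DenseD e f ∧ ∃ W, REPred (· ∈ W) ∧ e.graph = app W d.graph

/-- uniform dense reducibility -/
def UD (f g : ℕ → ℕ) : Prop :=
  ∃ W, REPred (· ∈ W) ∧ ∀ d, DenseD d g → ∃ e, DenseD e f ∧ e.graph = app W d.graph

/-- Every function is `r`-equivalent to the characteristic function of a set. -/
def AllSets (r : (ℕ → ℕ) → (ℕ → ℕ) → Prop) : Prop :=
  ∀ g : ℕ → ℕ, ∃ A : Set ℕ, r (A.indicator 1) g ∧ r g (A.indicator 1)

end Pool.Agent.P.MP_106a28_lc
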