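import Pool.Agent.P.MP_106a28_lc.LbA

set_option autoImplicit false

/-! A generic function that is an iterated limit of a computable function. -/

namespace Pool.Agent.P.MP_106a28_lc

open Filter Set Encodable Denumerable Nat.Partrec

variable {𝒟 : Set (ℕ → ℕ)} {F G H : (ℕ → ℕ) → ℕ → ℕ} {P Q : (ℕ → ℕ) → ℕ → Prop}

/-- length of a coded string -/
def ln (s : ℕ) : ℕ := (ofNat (List ℕ) s).length

/-- entries of a coded string -/
def ent (s n : ℕ) : ℕ := (ofNat (List ℕ) s).getD n 0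

/-- agreement below `L` -/
def Ag (L : ℕ) (h g : ℕ → ℕ) : Prop := ∀ n < L, h n = g n

/-- extension of strings -/
def Ex (s t : ℕ) : Prop := ln s ≤ ln t ∧ Ag (ln s) (ent t) (ent s)

theorem ent_prim : Primrec₂ ent :=
  (Primrec.list_getD 0).comp ((Primrec.ofNat _).comp Primrec.fst) Primrec.snd

theorem TR.ln (hF : TR 𝒟 F) : TR 𝒟 fun d a => ln (F d a) :=
  (TR.prim (f := Pool.Agent.P.MP_106a28_lc.ln)
    (Primrec.list_length.comp (Primrec.ofNat _))).comp hF

theorem TR.ent (hF : TR 𝒟 F) (hG : TR 𝒟 G) : TR 𝒟 fun d a => ent (F d a) (G d a) :=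
  TR.prim2 ent_prim hF hG

theorem TRP.Ex (hF : TR 𝒟 F) (hG : TR 𝒟 G) : TRP 𝒟 fun d a => Ex (F d a) (G d a) :=
  (TRP.le hF.ln hG.ln).and (TRP.ball (R := fun d a n => ent (G d a) n = ent (F d a) n)
    (TRP.eq ((hG.comp TR.id.l).ent TR.id.r) ((hF.comp TR.id.l).ent TR.id.r)) hF.ln)

theorem str_ex (h : ℕ → ℕ) (L : ℕ) : ∃ s, ln s = L ∧ Ag L (ent s) h :=
  ⟨encode ((List.range L).map h), by simp [ln], fun n hn => by simp [ent, hn]⟩

theorem ent_ge {s n : ℕ} (h : ln s ≤ n) : ent s n = 0 := List.getD_eq_default _ _ h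

theorem ocode_str (c : OCode) : Partrec fun p : ℕ × ℕ => c.eval (ent p.1 : ℕ → ℕ) p.2 := by
  induction c with
  | zero => exact (Computable.const 0).partrec
  | succ => exact (Computable.succ.comp Computable.snd).partrec
  | left => exact (Computable.fst.comp (Computable.unpair.comp Computable.snd)).partrec
  | right => exact (Computable.snd.comp (Computable.unpair.comp Computable.snd)).partrec
  | oracle => exact ent_prim.to_comp.partrec
  | pair a b iha ihb =>
    exact iha.bind ((ihb.comp Computable.fst).map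
      (Primrec₂.natPair.to_comp.comp (Computable.snd.comp Computable.fst) Computable.snd).to₂).to₂
  | comp a b iha ihb =>
    exact ihb.bind (iha.comp ((Computable.fst.comp Computable.fst).pair Computable.snd)).to₂
  | prec a b iha ihb =>
    have h1 : Computable fun p : ℕ × ℕ => p.2.unpair.1 :=
      Computable.fst.comp (Computable.unpair.comp Computable.snd)
    exact Partrec.nat_rec (Computable.snd.comp (Computable.unpair.comp Computable.snd))
      (iha.comp (Computable.fst.pair h1))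
      (ihb.comp ((Computable.fst.comp Computable.fst).pair (Primrec₂.natPair.to_comp.comp
        (h1.comp Computable.fst) (Primrec₂.natPair.to_comp.comp
          (Computable.fst.comp Computable.snd) (Computable.snd.comp Computable.snd))))).to₂
  | rfind a ih =>
    exact Partrec.rfind ((ih.comp ((Computable.fst.comp Computable.fst).pair
      (Primrec₂.natPair.to_comp.comp (Computable.snd.comp Computable.fst) Computable.snd))).map
      ((Primrec.eq.decide.to_comp).comp Computable.snd (Computable.const 0)).to₂).to₂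

theorem TRP.str (hP : TRP univ P) (hF : TR {0} F) (hG : TR {0} G) :
    TRP {0} fun d a => P (ent (F d a)) (G d a) := by
  classical
  obtain ⟨c, hc⟩ := hP
  exact TR.comput2 (f := fun s a => if P (ent s) a then 0 else 1)
    ((ocode_str c).of_eq_tot fun p => hc _ trivial _) hF hG

theorem TRP.cont (hP : TRP univ P) (d : ℕ → ℕ) (a : ℕ) (h : P d a) :
    ∃ L, ∀ d', Ag L d' d → P d' a := by
  obtain ⟨c, hc⟩ := hP
  obtain ⟨L, hL⟩ := ocode_use c d a _ (hc d trivial a)
  refine ⟨L, fun d' h' => by_contra fun h2 => ?_⟩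
  have := Part.mem_unique (hL d' h') (hc d' trivial a)
  simp [h, h2] at this

theorem TRP.ev (e : (ℕ → ℕ) → ℕ → ℕ) (he : TR 𝒟 e) (hF : TR 𝒟 F) (hG : TR 𝒟 G) (hH : TR 𝒟 H) :
    TRP 𝒟 fun d a => Code.evaln (F d a) (ofNat Code (e d a)) (G d a) = some (H d a) := by
  have h1 : Primrec₂ fun x y : ℕ => encode (Code.evaln x.unpair.1 (ofNat Code x.unpair.2) y) :=
    Primrec.encode.comp (Code.primrec_evaln.comp (Primrec.pair (Primrec.pair
      (Primrec.fst.comp (Primrec.unpair.comp Primrec.fst)) ((Primrec.ofNat _).comp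
        (Primrec.snd.comp (Primrec.unpair.comp Primrec.fst)))) Primrec.snd))
  refine (TRP.eq (TR.prim2 h1 (hF.pair he) hG) (hH.add (TR.const 1))).congr fun d a => ?_
  simp only [Nat.unpair_pair]
  cases Code.evaln (F d a) (ofNat Code (e d a)) (G d a) <;> simp

/-- stage `w`: no witness against the pair `z` -/
def NW (e z w : ℕ) : Prop :=
  ¬ Code.evaln w.unpair.1 (ofNat Code e) (Nat.pair z.unpair.1 (Nat.pair z.unpair.2 w.unpair.2)) = some 0

/-- one step of the construction, for a search predicate `B` and a bound `p` -/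
noncomputable def stp (B : ℕ → Prop) (s p : ℕ) : ℕ :=
  if sInf {z | p ≤ z ∨ B z} < p then (sInf {z | p ≤ z ∨ B z}).unpair.1
  else encode (ofNat (List ℕ) s ++ [0])

/-- proper extensions -/
def PE (s z : ℕ) : Prop := Ex s z.unpair.1 ∧ ln s < ln z.unpair.1

/-- second approximation -/
noncomputable def sB (p q : ℕ) : ℕ → ℕ :=
  Nat.rec 0 fun e s => stp (fun z => PE s z ∧ ∀ w < q, NW e z w) s p

/-- first approximation -/
noncomputable def sA (p : ℕ) : ℕ → ℕ :=
  Nat.rec 0 fun e s => stp (fun z => PE s z ∧ ∀ w, NW e z w) s p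

open Classical in
/-- the strings -/
noncomputable def sG : ℕ → ℕ :=
  Nat.rec 0 fun e s => if ∃ z, PE s z ∧ ∀ w, NW e z w then
    (sInf {z | PE s z ∧ ∀ w, NW e z w}).unpair.1 else encode (ofNat (List ℕ) s ++ [0])

theorem sB_lim (p e : ℕ) : ∀ᶠ q in atTop, sB p q e = sA p e := by
  induction e with
  | zero => exact Eventually.of_forall fun _ => rfl
  | succ e ih =>
    have h : ∀ᶠ q in atTop, ∀ z ∈ Finset.range p, (∀ w < q, NW e z w) → ∀ w, NW e z w := by
      refine (eventually_all_finset _).2 fun z _ => ?_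
      by_cases hz : ∀ w, NW e z w
      · exact Eventually.of_forall fun _ _ => hz
      · obtain ⟨w, hw⟩ := not_forall.1 hz
        filter_upwards [eventually_gt_atTop w] with q hq h using absurd (h w hq) hw
    filter_upwards [ih, h] with q h1 h2
    have h3 : {z | p ≤ z ∨ PE (sA p e) z ∧ ∀ w < q, NW e z w} =
        {z | p ≤ z ∨ PE (sA p e) z ∧ ∀ w, NW e z w} := Set.ext fun z => by
      by_cases hz : p ≤ z
      · simp [hz]
      · exact or_congr_right (and_congr_right fun _ =>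
          ⟨h2 z (Finset.mem_range.2 (by omega)), fun h w _ => h w⟩)
    show stp (fun z => PE (sB p q e) z ∧ ∀ w < q, NW e z w) (sB p q e) p =
      stp (fun z => PE (sA p e) z ∧ ∀ w, NW e z w) (sA p e) p
    rw [h1]
    unfold stp
    rw [h3]

theorem sA_lim (e : ℕ) : ∀ᶠ p in atTop, sA p e = sG e := by
  induction e with
  | zero => exact Eventually.of_forall fun _ => rfl
  | succ e ih =>
    filter_upwards [ih, eventually_gt_atTop (sInf {z | PE (sG e) z ∧ ∀ w, NW e z w})] with p h1 h2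
    show stp (fun z => PE (sA p e) z ∧ ∀ w, NW e z w) (sA p e) p = _
    rw [h1]
    unfold stp
    by_cases h : ∃ z, PE (sG e) z ∧ ∀ w, NW e z w
    · have h3 : sInf {z | p ≤ z ∨ PE (sG e) z ∧ ∀ w, NW e z w} =
          sInf {z | PE (sG e) z ∧ ∀ w, NW e z w} := by
        have h4 : sInf {z | p ≤ z ∨ PE (sG e) z ∧ ∀ w, NW e z w} ≤ _ :=
          Nat.sInf_le (Or.inr (Nat.sInf_mem (s := {z | PE (sG e) z ∧ ∀ w, NW e z w}) h))
        exact le_antisymm h4 (Nat.sInf_le ((Nat.sInf_mem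
          (s := {z | p ≤ z ∨ PE (sG e) z ∧ ∀ w, NW e z w}) ⟨p, Or.inl le_rfl⟩).resolve_left
            (by omega)))
      rw [h3, if_pos h2]
      exact (if_pos h).symm
    · rw [if_neg (not_lt.2 ((Nat.sInf_mem (s := {z | p ≤ z ∨ PE (sG e) z ∧ ∀ w, NW e z w})
        ⟨p, Or.inl le_rfl⟩).resolve_right fun h' => h ⟨_, h'⟩))]
      exact (if_neg h).symm

theorem sB_comp : Computable fun x : ℕ × ℕ × ℕ => ent (sB x.2.1 x.2.2 (x.1 + 1)) x.1 := by
  have h1 : TR {0} fun _ y => sInf {z | y.unpair.1.unpair.2.unpair.1 ≤ z ∨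
      PE y.unpair.2.unpair.2 z ∧ ∀ w < y.unpair.1.unpair.2.unpair.2, NW y.unpair.2.unpair.1 z w} :=
    TR.find (P := fun _ y z => y.unpair.1.unpair.2.unpair.1 ≤ z ∨
      PE y.unpair.2.unpair.2 z ∧ ∀ w < y.unpair.1.unpair.2.unpair.2, NW y.unpair.2.unpair.1 z w)
      ((TRP.le TR.id.l.l.r.l TR.id.r).or (((TRP.Ex TR.id.l.r.r TR.id.r.l).and
        (TRP.lt TR.id.l.r.r.ln TR.id.r.l.ln)).and (TRP.ball
          (R := fun _ y w => NW y.unpair.1.unpair.2.unpair.1 y.unpair.2 w)
          (TRP.ev _ TR.id.l.l.r.l TR.id.r.l (TR.id.l.r.l.pair (TR.id.l.r.r.pair TR.id.r.r))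
            (TR.const 0)).not TR.id.l.l.r.r))) fun _ _ y => ⟨_, Or.inl le_rfl⟩
  have h2 : TR {0} fun _ y => encode (ofNat (List ℕ) y.unpair.2.unpair.2 ++ [0]) :=
    (TR.prim (f := fun s => encode (ofNat (List ℕ) s ++ [0])) (Primrec.encode.comp
      (Primrec.list_concat.comp (Primrec.ofNat _) (Primrec.const 0)))).comp TR.id.r.r
  have h3 := TR.prec (TR.const 0) (TR.ite (TRP.lt h1 TR.id.l.r.l) h1.l h2)
    (TR.id.l.add (TR.const 1))
  have h5 := h3.ent TR.id.l
  have h4 := (TR.computable h5).comp (Primrec₂.natPair.comp Primrec.fst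
    (Primrec₂.natPair.comp (Primrec.fst.comp Primrec.snd) (Primrec.snd.comp Primrec.snd))).to_comp
  refine Computable.of_eq (α := ℕ × ℕ × ℕ) h4 fun x => ?_
  simp only [Nat.unpair_pair]
  congr 1

theorem sG_pe (e : ℕ) : Ex (sG e) (sG (e + 1)) ∧ ln (sG e) < ln (sG (e + 1)) := by
  by_cases h : ∃ z, PE (sG e) z ∧ ∀ w, NW e z w
  · rw [show sG (e + 1) = _ from if_pos h]
    exact (Nat.sInf_mem (s := {z | PE (sG e) z ∧ ∀ w, NW e z w}) h).1
  · rw [show sG (e + 1) = encode (ofNat (List ℕ) (sG e) ++ [0]) from if_neg h]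
    refine ⟨⟨by simp [ln], fun n hn => ?_⟩, by simp [ln]⟩
    simp only [ent, ofNat_encode]
    exact List.getD_append _ _ _ _ hn

theorem sG_ex {e e' : ℕ} (h : e ≤ e') : Ex (sG e) (sG e') := by
  induction h with
  | refl => exact ⟨le_rfl, fun _ _ => rfl⟩
  | step _ ih =>
    exact ⟨ih.1.trans (sG_pe _).1.1, fun n hn => ((sG_pe _).1.2 n (hn.trans_le ih.1)).trans
      (ih.2 n hn)⟩

theorem sG_ln (e : ℕ) : e ≤ ln (sG e) := by
  induction e with
  | zero => omega
  | succ e ih => have := (sG_pe e).2; omega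

/-- genericity -/
def Gen2 (g : ℕ → ℕ) : Prop :=
  ∀ R : ℕ → ℕ → ℕ → Prop, (TRP {0} fun _ z => R z.unpair.1 z.unpair.2.unpair.1 z.unpair.2.unpair.2) →
    ∃ s, Ag (ln s) g (ent s) ∧ ((∃ u, ∀ y, ¬ R s u y) ∨ ∀ t, Ex s t → ∀ u, ∃ y, R t u y)

theorem gen2_sG : Gen2 fun n => ent (sG (n + 1)) n := by
  intro R hR
  obtain ⟨c, hc⟩ := Code.exists_code.1 (Partrec.nat_iff.1 (TR.computable hR).partrec)
  have key : ∀ z, (∀ w, NW (encode c) z w) ↔ ∀ y, ¬ R z.unpair.1 z.unpair.2 y := fun z => by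
    simp only [NW, ofNat_encode]
    constructor
    · intro h y hy
      obtain ⟨k, hk⟩ := (Code.evaln_complete (c := c) (n := Nat.pair z.unpair.1
        (Nat.pair z.unpair.2 y)) (x := 0)).1 (by rw [hc]; simp [hy])
      exact h (Nat.pair k y) (by simpa using hk)
    · intro h w hw
      have := Code.evaln_sound (Option.mem_def.2 hw)
      rw [hc] at this
      simp [h] at this
  refine ⟨sG (encode c + 1), fun n hn => ?_, ?_⟩
  · rcases le_total (n + 1) (encode c + 1) with h | h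
    · exact ((sG_ex h).2 n (sG_ln _)).symm
    · exact (sG_ex h).2 n hn
  · by_cases h : ∃ z, PE (sG (encode c)) z ∧ ∀ w, NW (encode c) z w
    · rw [show sG (encode c + 1) = _ from if_pos h]
      exact Or.inl ⟨_, (key _).1 (Nat.sInf_mem
        (s := {z | PE (sG (encode c)) z ∧ ∀ w, NW (encode c) z w}) h).2⟩
    · refine Or.inr fun t ht u => by_contra fun h' => h ⟨Nat.pair t u, ?_, (key _).2 ?_⟩
      · obtain ⟨h1, h2⟩ := sG_pe (encode c)
        simp only [PE, Nat.unpair_pair]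
        exact ⟨⟨h1.1.trans ht.1, fun n hn => (ht.2 n (hn.trans h2)).trans (h1.2 n hn)⟩,
          h2.trans_le ht.1⟩
      · simpa using h'

theorem Gen2.two {g : ℕ → ℕ} (hg : Gen2 g) {P D : (ℕ → ℕ) → ℕ → ℕ → Prop}
    (hP : TRP univ fun d z => P d z.unpair.1 z.unpair.2)
    (hD : TRP univ fun d z => D d z.unpair.1 z.unpair.2)
    (hD' : ∀ h h' u L, Ag L h' h → D h u L → D h' u L) :
    (∃ u L, D g u L ∧ ∀ y, ¬ P g u y) ∨
      ∃ L, ∀ h u L', L ≤ L' → Ag L h g → D h u L' → ∃ h' y, Ag L' h' h ∧ P h' u y := by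
  obtain ⟨s, hs, h⟩ := hg (fun s u y => ¬ D (ent s) u (ln s) ∨
      (Ex s y.unpair.1 ∧ P (ent y.unpair.1) u y.unpair.2))
    (((hD.str TR.id.l (TR.id.r.l.pair TR.id.l.ln)).not.or ((TRP.Ex TR.id.l TR.id.r.r.l).and
      (hP.str TR.id.r.r.l (TR.id.r.l.pair TR.id.r.r.r)))).congr fun _ _ => by simp)
  rcases h with ⟨u, h⟩ | h
  · refine Or.inl ⟨u, ln s, hD' _ _ _ _ hs (not_not.1 (not_or.1 (h 0)).1), fun y hy => ?_⟩
    obtain ⟨L, hL⟩ := hP.cont g (Nat.pair u y) (by simpa using hy)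
    obtain ⟨t, h1, h2⟩ := str_ex g (L + ln s)
    refine h (Nat.pair t y) (Or.inr ?_)
    simp only [Nat.unpair_pair] at hL ⊢
    exact ⟨⟨by omega, fun n hn => (h2 n (by omega)).trans (hs n hn)⟩,
      hL _ fun n hn => h2 n (by omega)⟩
  · refine Or.inr ⟨ln s, fun f u L' hL hf hd => ?_⟩
    obtain ⟨t, h1, h2⟩ := str_ex f L'
    obtain ⟨y, hy⟩ := h t ⟨by omega, fun n hn => (h2 n (by omega)).trans
      ((hf n hn).trans (hs n hn))⟩ u
    rcases hy with hy | hy
    · exact absurd (h1 ▸ hD' _ _ _ _ h2 hd) hy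
    · exact ⟨_, _, fun n hn => (hy.1.2 n (by omega)).trans (h2 n hn), hy.2⟩

theorem Gen2.one {g : ℕ → ℕ} (hg : Gen2 g) (hP : TRP univ P) :
    (∃ u, P g u) ∨ ∃ L, ∀ h, Ag L h g → ∀ u, ¬ P h u := by
  rcases hg.two (P := fun d u _ => ¬ P d u) (D := fun _ _ _ => 0 = 0) (hP.comp TR.id.l).not
    (TRP.eq (TR.const 0) (TR.const 0)) fun _ _ _ _ _ h => h with ⟨u, _, _, h⟩ | ⟨L, h⟩
  · exact Or.inl ⟨u, not_not.1 (h 0)⟩
  refine Or.inr ⟨L, fun f hf u hu => ?_⟩
  obtain ⟨L', hL⟩ := hP.cont f u hu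
  obtain ⟨f', -, h1, h2⟩ := h f u (L + L') (by omega) hf rfl
  exact h2 (hL _ fun n hn => h1 n (by omega))

end Pool.Agent.P.MP_106a28_lc
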