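import Pool.Agent.P.MP_106a28_lc.LbC
import Pool.Agent.P.MP_106a28_lc.DtA

set_option autoImplicit false

/-! Tools: effective dense reductions give generic ones; stages of operators; a union lemma. -/

namespace Pool.Agent.P.MP_106a28_lc

open Filter Set Encodable Denumerable Nat.Partrec

theorem D1_Ici (L : ℕ) : D1 (Ici L) := fun t =>
  (eventually_ge_atTop (t * L)).mono fun n hn =>
    (Nat.mul_le_mul_left _ (miss_Ici L n)).trans hn

theorem UED.ug {f g : ℕ → ℕ} (h : UED f g) : UG f g := by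
  classical
  obtain ⟨c, hc⟩ := h
  obtain ⟨e, he⟩ := Code.exists_code.1 (Partrec.nat_iff.1 ((ocode_str c).comp Computable.unpair))
  let R : Finset (ℕ × ℕ) → ℕ → ℕ → ℕ → Prop := fun F x β z =>
    Code.evaln z.unpair.1 (ofNat Code (encode e)) (Nat.pair z.unpair.2 x) = some (β + 1) ∧
      ∀ n < ln z.unpair.2, ent z.unpair.2 n = 0 ∨ (n, ent z.unpair.2 n - 1) ∈ F
  have hW := re_of_TRP R ((TRP.ev _ (TR.const (encode e)) TR.id.r.l (TR.id.r.r.pair TR.id.l.r.l)
    TR.id.l.r.r.s1).and (TRP.ball (R := fun _ y n => ent y.unpair.2.unpair.2 n = 0 ∨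
      (n, ent y.unpair.2.unpair.2 n - 1) ∈ ofNat (Finset (ℕ × ℕ)) y.unpair.1.unpair.1)
      ((TRP.eq (TR.id.l.r.r.ent TR.id.r) (TR.const 0)).or (TRP.memF TR.id.l.l.l TR.id.r
        ((TR.id.l.r.r.ent TR.id.r).sub (TR.const 1)))) TR.id.r.r.ln))
  refine ⟨_, hW, fun d hd => ?_⟩
  have k1 : ∀ x β, (x, β) ∈ app {p | ∃ z, R p.1 p.2.1 p.2.2 z} d.graph → β = f x := by
    rintro x β ⟨F, ⟨z, h1, h2⟩, hF⟩
    have h3 := Code.evaln_sound (Option.mem_def.2 h1)
    simp only [ofNat_encode, he, Nat.unpair_pair] at h3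
    obtain ⟨L, hL⟩ := ocode_use c _ _ _ h3
    obtain ⟨e', h4, h5⟩ := hc (fun n => if n < L then (ent z.unpair.2 n).casesOn none some
      else some (g n)) ⟨fun n v hv => by
        by_cases hn : n < L
        · have h6 : ent z.unpair.2 n = v + 1 := by
            cases h : ent z.unpair.2 n <;> simp_all
          have h7 : n < ln z.unpair.2 := by
            by_contra h
            rw [ent_ge (not_lt.1 h)] at h6
            omega
          have h8 := (h2 n h7).resolve_left (by omega)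
          rw [h6] at h8
          exact hd.2 n v (hF h8)
        · simpa [hn, eq_comm] using hv,
      (dens1_iff _).2 ((D1_Ici L).mono fun n hn => by simp [not_lt.2 (mem_Ici.1 hn)])⟩
    have h6 := hL (fun n => encode (if n < L then (ent z.unpair.2 n).casesOn none some
      else some (g n) : Option ℕ)) fun n hn => by
        cases h : ent z.unpair.2 n <;> simp [hn]
    have h7 : β + 1 ∈ code e' x := h5 ▸ h6
    refine h4.1 x β ?_
    cases h : e' x <;> simp_all [code]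
  obtain ⟨e1, he1⟩ := op_ex (W := {p | ∃ z, R p.1 p.2.1 p.2.2 z}) (d := d) fun x β β' h h' =>
    (k1 _ _ h).trans (k1 _ _ h').symm
  refine ⟨e1, ⟨?_, fun x β h => k1 x β (he1 ▸ h)⟩, he1⟩
  obtain ⟨e', h4, h5⟩ := hc (fun n => if (d n).Dom then some (g n) else none)
    ⟨fun n v hv => by by_cases h : (d n).Dom <;> simp_all,
      (dens1_iff _).2 (((dens1_iff _).1 hd.1).mono fun n hn => by
        have : (d n).Dom := hn
        simp [this])⟩
  refine (dens1_iff _).2 (((dens1_iff _).1 h4.2).mono fun x hx => ?_)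
  obtain ⟨v, hv⟩ := Option.ne_none_iff_exists'.1 hx
  have h6 : v + 1 ∈ c.eval (fun n => encode (if (d n).Dom then some (g n) else none : Option ℕ) :
      ℕ → ℕ) x := by
    have : v + 1 ∈ code e' x := by simp [code, hv]
    exact h5 ▸ this
  obtain ⟨L, hL⟩ := ocode_use c _ _ _ h6
  obtain ⟨t, h7, h8⟩ := str_ex (fun n => encode (if (d n).Dom then some (g n) else none :
    Option ℕ)) L
  obtain ⟨k, hk⟩ := (Code.evaln_complete (c := e) (n := Nat.pair t x) (x := v + 1)).1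
    (by simpa [he] using hL _ h8)
  have h9 : (x, v) ∈ e1.graph := he1 ▸ ⟨((Finset.range L).filter fun n => (d n).Dom).image
    fun n => (n, g n), ⟨Nat.pair k t, by simpa using hk, fun n hn => by
      simp only [Nat.unpair_pair] at hn ⊢
      rw [h8 n (by omega)]
      by_cases h : (d n).Dom
      · exact Or.inr (Finset.mem_image.2 ⟨n, Finset.mem_filter.2
          ⟨Finset.mem_range.2 (by omega), h⟩, by simp [h]⟩)
      · simp [h]⟩, fun p hp => by
    obtain ⟨n, hn, rfl⟩ := Finset.mem_image.1 hp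
    have h := Part.get_mem (Finset.mem_filter.1 hn).2
    show g n ∈ d n
    rwa [hd.2 n _ h] at h⟩
  exact (PFun.mem_dom _ _).2 ⟨v, h9⟩

/-- a bound for the members of a coded finite set -/
def bnd (c : ℕ) : ℕ := (ofNat (List ℕ) c).foldl (fun s m => m + s + 1) 0

theorem raise_lt (l : List ℕ) (n : ℕ) : n ≤ l.foldl (fun s m => m + s + 1) n ∧
    ∀ y ∈ raise' l n, y < l.foldl (fun s m => m + s + 1) n := by
  induction l generalizing n with
  | nil => simp [raise']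
  | cons m l ih =>
    obtain ⟨h1, h2⟩ := ih (m + n + 1)
    rw [List.foldl_cons, raise']
    refine ⟨by omega, fun y hy => ?_⟩
    rcases List.mem_cons.1 hy with h | h
    exacts [by omega, h2 y h]

theorem lt_bnd {c y : ℕ} (h : y.unpair ∈ ofNat (Finset (ℕ × ℕ)) c) : y < bnd c := by
  have h1 : y.unpair ∈ Finset.map (eqv (ℕ × ℕ)).symm.toEmbedding
    (raise'Finset (ofNat (List ℕ) c) 0) := h
  rw [Finset.mem_map_equiv] at h1
  have h2 : encode y.unpair ∈ raise' (ofNat (List ℕ) c) 0 := h1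
  rw [show encode y.unpair = y from Nat.pair_unpair _] at h2
  exact (raise_lt _ _).2 y h2

/-- stage `z` of an operator -/
def appz (e z : ℕ) (X : ℕ → ℕ → Prop) (x β : ℕ) : Prop :=
  ∃ f < z, (∃ w < z, Code.evaln z (ofNat Code e) (Nat.pair f (Nat.pair x β)) = some w) ∧
    ∀ y < bnd f, (y.unpair.1, y.unpair.2) ∈ ofNat (Finset (ℕ × ℕ)) f → X y.unpair.1 y.unpair.2

/-- the operator with a code -/
def opc (c : Code) : Op := {a | (c.eval (enc a)).Dom}

theorem enc_eq (f x β : ℕ) : enc (ofNat (Finset (ℕ × ℕ)) f, (x, β)) = Nat.pair f (Nat.pair x β) :=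
  congrArg (Nat.pair · (Nat.pair x β)) (encode_ofNat (α := Finset (ℕ × ℕ)) f)

theorem appz_sound {c : Code} {z x β : ℕ} {X : ℕ → ℕ → Prop} {Y : Set (ℕ × ℕ)}
    (h : appz (encode c) z X x β) (e : ∀ a b, X a b → (a, b) ∈ Y) : (x, β) ∈ app (opc c) Y := by
  obtain ⟨f, -, ⟨w, -, h1⟩, h2⟩ := h
  rw [ofNat_encode] at h1
  refine ⟨ofNat _ f, ?_, fun p hp => ?_⟩
  · show (c.eval (enc _)).Dom
    rw [enc_eq]
    exact Part.dom_iff_mem.2 ⟨w, Code.evaln_sound (Option.mem_def.2 h1)⟩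
  · have := h2 (Nat.pair p.1 p.2) (lt_bnd (by simpa using hp)) (by simpa using hp)
    simp only [Nat.unpair_pair] at this
    exact e _ _ this

theorem appz_ev {c : Code} {x β : ℕ} {X : ℕ → ℕ → ℕ → Prop} {Y : Set (ℕ × ℕ)}
    (h : (x, β) ∈ app (opc c) Y) (e : ∀ a b, (a, b) ∈ Y → ∀ᶠ z in atTop, X z a b) :
    ∀ᶠ z in atTop, appz (encode c) z (X z) x β := by
  obtain ⟨F, h1, h2⟩ := h
  obtain ⟨f, rfl⟩ : ∃ f, F = ofNat _ f := ⟨_, (ofNat_encode F).symm⟩
  have h3 : (c.eval (enc _)).Dom := h1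
  rw [enc_eq] at h3
  obtain ⟨w, hw⟩ := Part.dom_iff_mem.1 h3
  obtain ⟨k, hk⟩ := Code.evaln_complete.1 hw
  filter_upwards [eventually_gt_atTop (f + w + k), (eventually_all_finset _).2
    fun (p : ℕ × ℕ) hp => e p.1 p.2 (h2 hp)] with z hz h4
  exact ⟨f, by omega, ⟨w, by omega, by
    rw [ofNat_encode]; exact Code.evaln_mono (by omega) hk⟩, fun y _ hy => h4 _ hy⟩

theorem TX.appz {𝒟 : Set (ℕ → ℕ)} {X : (ℕ → ℕ) → ℕ → ℕ → ℕ → Prop} (hX : TX 𝒟 X) (e : ℕ) :
    TX 𝒟 fun d c x β => appz e c.unpair.1 (X d c) x β := by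
  intro C F G hC hF hG
  have hb : TR 𝒟 fun _ a => bnd a := TR.prim (Primrec.list_foldl (Primrec.ofNat _)
    (Primrec.const 0) (Primrec.succ.comp (Primrec.nat_add.comp (Primrec.snd.comp Primrec.snd)
      (Primrec.fst.comp Primrec.snd))).to₂)
  exact TRP.bex (R := fun d a f => (∃ w < (C d a).unpair.1, Code.evaln (C d a).unpair.1
      (ofNat Code e) (Nat.pair f (Nat.pair (F d a) (G d a))) = some w) ∧
      ∀ y < bnd f, (y.unpair.1, y.unpair.2) ∈ ofNat (Finset (ℕ × ℕ)) f →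
        X d (C d a) y.unpair.1 y.unpair.2)
    ((TRP.bex (R := fun d q w => Code.evaln (C d q.unpair.1).unpair.1 (ofNat Code e)
        (Nat.pair q.unpair.2 (Nat.pair (F d q.unpair.1) (G d q.unpair.1))) = some w)
      (TRP.ev _ (TR.const e) hC.l.up.up (TR.id.l.r.pair (hF.up.up.pair hG.up.up)) TR.id.r)
      hC.l.up).and (TRP.ball (R := fun d q y => (y.unpair.1, y.unpair.2) ∈
        ofNat (Finset (ℕ × ℕ)) q.unpair.2 → X d (C d q.unpair.1) y.unpair.1 y.unpair.2)
      ((TRP.memF TR.id.l.r TR.id.r.l TR.id.r.r).imp (hX hC.up.up TR.id.r.l TR.id.r.r))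
      (hb.comp TR.id.r))) hC.l

theorem mask_ex (S : ℕ → Prop) (N : ℕ) : ∃ F < 2 ^ N, ∀ x, tb F x ↔ x < N ∧ S x := by
  classical
  obtain ⟨z, hz⟩ := digits_ex 2 N (fun a => if S a then 1 else 0) fun a _ => by split_ifs <;> omega
  refine ⟨z % 2 ^ N, Nat.mod_lt _ (Nat.two_pow_pos N), fun x => ?_⟩
  rw [tb_iff, Nat.testBit_mod_two_pow, Bool.and_eq_true, decide_eq_true_eq, ← tb_iff]
  refine and_congr_right fun h => ?_
  unfold tb
  rw [hz x h]
  by_cases h' : S x <;> simp [h']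

theorem union_lemma (Φ : Set ℕ → Set ℕ) (hΦ : ∀ S T, S ⊆ T → Φ S ⊆ Φ T)
    (h : ∀ c, ∃ i ≥ c, ∃ D, D1 D ∧ ∀ j, ∃ S : Set ℕ, (∀ x, 2 ^ j ≤ x → x ∈ S) ∧
      (∀ u, c * bm S u ≤ 2 ^ u) ∧ 2 ^ i ≤ 2 * bm (Φ (S ∩ {x | 2 ^ j ≤ x → x ∈ D})) i) :
    ∃ S, D1 S ∧ ¬ D1 (Φ S) := by
  classical
  choose i hi D hD S h1 h2 h3 using h
  have hJ : ∀ (r : ℕ) (U : Set ℕ) (j : ℕ), ∃ j', j < j' ∧
      (D1 U → ∀ u ≥ j', r * bm U u ≤ 2 ^ u) := fun r U j => by
    by_cases hU : D1 U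
    · obtain ⟨k, hk⟩ := eventually_atTop.1 ((D1_iff_bm U).1 hU r)
      exact ⟨j + k + 1, by omega, fun _ u hu => hk u (by omega)⟩
    · exact ⟨j + 1, by omega, fun h => absurd h hU⟩
  choose J hJ1 hJ2 using hJ
  obtain ⟨j, U, e1, e2, e3⟩ : ∃ (j : ℕ → ℕ) (U : ℕ → Set ℕ), U 0 = univ ∧
      (∀ r, U (r + 1) = U r ∩ D (2 ^ j r + r)) ∧ ∀ r, j (r + 1) = J r (U (r + 1)) (j r) := by
    let st : ℕ → ℕ × Set ℕ := Nat.rec (0, univ) fun r p =>
      (J r (p.2 ∩ D (2 ^ p.1 + r)) p.1, p.2 ∩ D (2 ^ p.1 + r))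
    exact ⟨fun r => (st r).1, fun r => (st r).2, rfl, fun _ => rfl, fun _ => rfl⟩
  have hj : StrictMono j := strictMono_nat_of_lt_succ fun r => e3 r ▸ hJ1 _ _ _
  have hU : ∀ r, D1 (U r) := fun r => by
    induction r with
    | zero => exact e1 ▸ (D1_Ici 0).mono (subset_univ _)
    | succ r ih => exact e2 r ▸ ih.inter (hD _)
  have hU2 : Antitone U := antitone_nat_of_succ_le fun r => e2 r ▸ inter_subset_left
  refine ⟨⋂ r, (S (2 ^ j r + r) (j (r + 1)) ∩ {x | 2 ^ j (r + 1) ≤ x → x ∈ D (2 ^ j r + r)}),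
    (D1_iff_bm _).2 fun t => ?_, fun hc => ?_⟩
  · filter_upwards [eventually_ge_atTop (j (2 * t + 1))] with u hu
    have hex : ∃ r, u < j (r + 1) := ⟨u, hj.id_le (u + 1)⟩
    obtain ⟨r, hr1, hr2⟩ : ∃ r, u < j (r + 1 + 1) ∧ j (r + 1) ≤ u := by
      have h4 := Nat.find_spec hex
      cases h5 : Nat.find hex with
      | zero =>
        rw [h5] at h4
        have := hj.monotone (show 0 + 1 ≤ 2 * t + 1 by omega)
        omega
      | succ r => exact ⟨r, h5 ▸ h4, not_lt.1 (Nat.find_min hex (by omega))⟩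
    have hr : 2 * t ≤ r := by
      have := hj.lt_iff_lt.1 (hu.trans_lt hr1)
      omega
    have h4 := h2 (2 ^ j (r + 1) + (r + 1)) (j (r + 1 + 1)) u
    have h5 := hJ2 r _ (j r) (hU (r + 1)) u (e3 r ▸ hr2)
    have h6 : bm (⋂ r, (S (2 ^ j r + r) (j (r + 1)) ∩
        {x | 2 ^ j (r + 1) ≤ x → x ∈ D (2 ^ j r + r)})) u ≤
        bm (S (2 ^ j (r + 1) + (r + 1)) (j (r + 1 + 1))) u + bm (U (r + 1)) u :=
      cnt_le_add fun p hp hx => by
        by_contra hn
        rw [not_or, not_not, not_not] at hn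
        refine hx (mem_iInter.2 fun r' => ⟨?_, fun h7 => ?_⟩)
        · rcases lt_trichotomy r' (r + 1) with h7 | rfl | h7
          · exact h1 _ _ _ ((Nat.pow_le_pow_right (by omega)
              ((hj.monotone (by omega)).trans hr2)).trans (by omega))
          · exact hn.1
          · by_contra h8
            have h9 := h2 (2 ^ j r' + r') (j (r' + 1)) u
            have h10 : 0 < bm (S (2 ^ j r' + r') (j (r' + 1))) u := cnt_pos.2 ⟨p, hp, h8⟩
            have h11 : 2 ^ u < 2 ^ j r' :=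
              Nat.pow_lt_pow_right (by omega) (hr1.trans_le (hj.monotone h7))
            nlinarith
        · have h8 : j (r' + 1) < u + 1 := (Nat.pow_lt_pow_iff_right (a := 2) (by omega)).1
            (by rw [pow_succ]; omega)
          have h9 := hj.lt_iff_lt.1 (show j (r' + 1) < j (r + 1 + 1) by omega)
          have h10 := hU2 (show r' + 1 ≤ r + 1 by omega) hn.2
          rw [e2] at h10
          exact h10.2
    have h7 := Nat.mul_le_mul_right (bm (S (2 ^ j (r + 1) + (r + 1)) (j (r + 1 + 1))) u)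
      (show 2 * t ≤ 2 ^ j (r + 1) + (r + 1) from (by omega : 2 * t ≤ r + 1).trans le_add_self)
    have h8 := Nat.mul_le_mul_right (bm (U (r + 1)) u) hr
    have h9 := Nat.mul_le_mul_left (2 * t) h6
    rw [mul_add] at h9
    nlinarith
  · obtain ⟨r, hr⟩ := eventually_atTop.1 ((D1_iff_bm _).1 hc 3)
    have h4 := hr _ (le_add_self.trans (hi (2 ^ j r + r)))
    have h6 : ∀ S T u, S ⊆ T → bm (Φ T) u ≤ bm (Φ S) u := fun S T u e =>
      cnt_mono fun p _ h h' => h (hΦ _ _ e h')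
    have h5 := (h3 (2 ^ j r + r) (j (r + 1))).trans (Nat.mul_le_mul_left _ (h6 _ _ _
      (iInter_subset (fun r => S (2 ^ j r + r) (j (r + 1)) ∩
        {x | 2 ^ j (r + 1) ≤ x → x ∈ D (2 ^ j r + r)}) r)))
    have := Nat.two_pow_pos (i (2 ^ j r + r))
    omega

end Pool.Agent.P.MP_106a28_lc
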