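import Pool.Agent.P.MP_106a28_lc.DtB

set_option autoImplicit false

/-! A generic function is equivalent to no set. -/

namespace Pool.Agent.P.MP_106a28_lc

open Filter Set Encodable Denumerable Nat.Partrec

/-- the block -/
def Bk (i x : ℕ) : Prop := 2 ^ i ≤ x ∧ x < 2 ^ (i + 1)

/-- graph off a block -/
def gro (h : ℕ → ℕ) (i x v : ℕ) : Prop := ¬ Bk i x ∧ h x = v

/-- graph with a constant value on a block -/
def grm (h : ℕ → ℕ) (i m x v : ℕ) : Prop := (Bk i x ∧ m = v) ∨ gro h i x v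

/-- the set read by the second operator -/
def YY (A B : ℕ → ℕ → Prop) (j F x β : ℕ) : Prop :=
  β < 2 ∧ ¬ tb F x ∧ A x β ∧ (2 ^ j ≤ x → B x β)

/-- sparse sets -/
def Sp (c F j : ℕ) : Prop := ∀ u < j, c * cnt (fun p => tb F (2 ^ u + p)) (2 ^ u) ≤ 2 ^ u

/-- most rows are read, whatever sparse set is removed -/
def EE (B : ℕ → ℕ → Prop) (c i j : ℕ) : Prop :=
  ∀ F < 2 ^ 2 ^ j, Sp c F j → 2 ^ i < 2 * cnt (fun a => B F (2 ^ i + a)) (2 ^ i)

/-- value of an operator on a relation -/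
def ap (W : Code) (X : ℕ → ℕ → Prop) (x β : ℕ) : Prop := (x, β) ∈ app (opc W) {p | X p.1 p.2}

/-- a row is read -/
def Bt (W V : Code) (h : ℕ → ℕ) (i m j F n : ℕ) : Prop :=
  ap V (YY (ap W (grm h i m)) (ap W (gro h i)) j F) n m

/-- a row is read at stage `z` -/
def Bz (W V : Code) (z : ℕ) (h : ℕ → ℕ) (i m j F n : ℕ) : Prop :=
  appz (encode V) z (YY (appz (encode W) z (grm h i m)) (appz (encode W) z (gro h i)) j F) n m

/-- both operators are single valued -/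
def Good (W V : Code) (X : ℕ → ℕ → Prop) : Prop :=
  SV (ap W X) ∧ SV (ap V fun x β => β < 2 ∧ ap W X x β)

variable {W V : Code} {X X' : ℕ → ℕ → Prop} {g h : ℕ → ℕ} {c i m j z x β : ℕ}

theorem ap.mono (h : ap W X x β) (e : ∀ a b, X a b → X' a b) : ap W X' x β :=
  app_mono _ (fun _ hp => e _ _ hp) h

theorem appz.ap (h : appz (encode W) z X x β) : ap W X x β := appz_sound h fun _ _ h => h

theorem ap.ev (h : ap W X x β) : ∀ᶠ z in atTop, appz (encode W) z X x β :=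
  appz_ev (X := fun _ => X) h fun _ _ h => Eventually.of_forall fun _ => h

theorem EE_iff : (∃ y : ℕ, EE (Bz W V y.unpair.1 h i m y.unpair.2) c i y.unpair.2) ↔
    ∃ j, EE (Bt W V h i m j) c i j := by
  constructor
  · rintro ⟨y, hy⟩
    exact ⟨_, fun F h1 h2 => (hy F h1 h2).trans_le (Nat.mul_le_mul_left _ (cnt_mono
      fun a _ h => appz_sound h fun _ _ h => ⟨h.1, h.2.1, h.2.2.1.ap, fun e => (h.2.2.2 e).ap⟩))⟩
  · rintro ⟨j, hj⟩
    have : ∀ᶠ z in atTop, ∀ F ∈ Finset.range (2 ^ 2 ^ j), ∀ a ∈ Finset.range (2 ^ i),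
        Bt W V h i m j F (2 ^ i + a) → Bz W V z h i m j F (2 ^ i + a) := by
      refine (eventually_all_finset _).2 fun F _ => (eventually_all_finset _).2 fun a _ => ?_
      by_cases h1 : Bt W V h i m j F (2 ^ i + a)
      · refine (appz_ev (X := fun z => YY (appz (encode W) z (grm h i m))
          (appz (encode W) z (gro h i)) j F) h1 fun x β ⟨h2, h3, h4, h5⟩ => ?_).mono
          fun _ h _ => h
        by_cases h6 : 2 ^ j ≤ x
        · filter_upwards [h4.ev, (h5 h6).ev] with z a1 a2 using ⟨h2, h3, a1, fun _ => a2⟩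
        · filter_upwards [h4.ev] with z a1 using ⟨h2, h3, a1, fun h => absurd h h6⟩
      · exact Eventually.of_forall fun _ h => absurd h h1
    obtain ⟨z, hz⟩ := this.exists
    refine ⟨Nat.pair z j, ?_⟩
    simp only [Nat.unpair_pair]
    exact fun F h1 h2 => (hj F h1 h2).trans_le (Nat.mul_le_mul_left _ (cnt_mono
      fun a ha => hz F (Finset.mem_range.2 h1) a (Finset.mem_range.2 ha)))

theorem TRP.Bk {F G : (ℕ → ℕ) → ℕ → ℕ} (hF : TR univ F) (hG : TR univ G) :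
    TRP univ fun d a => Bk (F d a) (G d a) := (TRP.le hF.p2 hG).and (TRP.lt hG hF.s1.p2)

theorem trp_EE (W V : Code) (c : ℕ) : TRP univ fun d q => EE (Bz W V q.unpair.2.unpair.1 d
    q.unpair.1.unpair.1 q.unpair.1.unpair.2 q.unpair.2.unpair.2) c q.unpair.1.unpair.1
    q.unpair.2.unpair.2 := by
  have h1 : TX univ fun d k x v => gro d k.unpair.2.unpair.1 x v :=
    fun hC hF hG => (TRP.Bk hC.r.l hF).not.and (TRP.eq hF.orc hG)
  have h2 : TX univ fun d k x v => grm d k.unpair.2.unpair.1 k.unpair.2.unpair.2.unpair.1 x v :=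
    fun hC hF hG => ((TRP.Bk hC.r.l hF).and (TRP.eq hC.r.r.l hG)).or (h1 hC hF hG)
  have h3 : TX univ fun d k x β => YY
      (appz (encode W) k.unpair.1 (grm d k.unpair.2.unpair.1 k.unpair.2.unpair.2.unpair.1))
      (appz (encode W) k.unpair.1 (gro d k.unpair.2.unpair.1))
      k.unpair.2.unpair.2.unpair.2.unpair.1 k.unpair.2.unpair.2.unpair.2.unpair.2 x β :=
    fun hC hF hG => (TRP.lt hG (TR.const 2)).and ((TRP.tb hC.r.r.r.r hF).not.and
      ((TX.appz @h2 (encode W) hC hF hG).and ((TRP.le hC.r.r.r.l.p2 hF).imp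
        (TX.appz @h1 (encode W) hC hF hG))))
  have h4 := TX.appz @h3 (encode V) (TR.id.l.l.r.l.pair (TR.id.l.l.l.l.pair (TR.id.l.l.l.r.pair
    (TR.id.l.l.r.r.pair TR.id.l.r)))) (TR.id.l.l.l.l.p2.add TR.id.r) TR.id.l.l.l.r
  simp only [Nat.unpair_pair] at h4
  exact TRP.ball (R := fun d q F => Sp c F q.unpair.2.unpair.2 → 2 ^ q.unpair.1.unpair.1 <
      2 * cnt (fun a => Bz W V q.unpair.2.unpair.1 d q.unpair.1.unpair.1 q.unpair.1.unpair.2
        q.unpair.2.unpair.2 F (2 ^ q.unpair.1.unpair.1 + a)) (2 ^ q.unpair.1.unpair.1))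
    ((TRP.ball (R := fun _ y u => c * cnt (fun p => tb y.unpair.2 (2 ^ u + p)) (2 ^ u) ≤ 2 ^ u)
      (TRP.le ((TR.const c).mul (TR.cnt
        (P := fun _ y p => tb y.unpair.1.unpair.2 (2 ^ y.unpair.2 + p))
        (TRP.tb TR.id.l.l.r (TR.id.l.r.p2.add TR.id.r)) TR.id.r.p2)) TR.id.r.p2) TR.id.l.r.r).imp
      (TRP.lt TR.id.l.l.l.p2 ((TR.const 2).mul (TR.cnt (P := fun d y a => Bz W V
        y.unpair.1.unpair.2.unpair.1 d y.unpair.1.unpair.1.unpair.1 y.unpair.1.unpair.1.unpair.2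
        y.unpair.1.unpair.2.unpair.2 y.unpair.2 (2 ^ y.unpair.1.unpair.1.unpair.1 + a)) h4
        TR.id.l.l.l.p2)))) TR.id.r.r.p2.p2

theorem good_forced (hg : Gen2 g) (h : Good W V fun x v => g x = v) :
    ∃ L, ∀ f, Ag L f g → Good W V fun x v => f x = v := by
  have h1 : TX univ fun d _ x v => d x = v := fun _ hF hG => TRP.eq hF.orc hG
  have h2 : TX univ fun d k x β => appz (encode W) k.unpair.1 (fun x v => d x = v) x β :=
    fun hC hF hG => TX.appz @h1 (encode W) hC hF hG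
  have h3 : TX univ fun d k x β => β < 2 ∧ appz (encode W) k.unpair.1 (fun x v => d x = v) x β :=
    fun hC hF hG => (TRP.lt hG (TR.const 2)).and (h2 hC hF hG)
  have h4 : TX univ fun d k x β => appz (encode V) k.unpair.1
      (fun x β => β < 2 ∧ appz (encode W) k.unpair.1 (fun x v => d x = v) x β) x β :=
    fun hC hF hG => TX.appz @h3 (encode V) hC hF hG
  rcases hg.one ((TRP.eq TR.id.r.r.l TR.id.r.r.r).not.and
    (((h2 TR.id TR.id.r.l TR.id.r.r.l).and (h2 TR.id TR.id.r.l TR.id.r.r.r)).or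
      ((h4 TR.id TR.id.r.l TR.id.r.r.l).and (h4 TR.id TR.id.r.l TR.id.r.r.r)))) with
    ⟨u, h5, h6 | h6⟩ | ⟨L, hL⟩
  · exact absurd (h.1 _ _ _ h6.1.ap h6.2.ap) h5
  · exact absurd (h.2 _ _ _ (h6.1.ap.mono fun _ _ h => ⟨h.1, h.2.ap⟩)
      (h6.2.ap.mono fun _ _ h => ⟨h.1, h.2.ap⟩)) h5
  refine ⟨L, fun f hf => ⟨fun x β β' a1 a2 => by_contra fun e => ?_,
    fun x β β' a1 a2 => by_contra fun e => ?_⟩⟩
  · obtain ⟨z, h5⟩ := (a1.ev.and a2.ev).exists
    exact hL f hf (Nat.pair z (Nat.pair x (Nat.pair β β')))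
      (by simp only [Nat.unpair_pair]; exact ⟨e, Or.inl h5⟩)
  · have k : ∀ β, ap V (fun x β => β < 2 ∧ ap W (fun x v => f x = v) x β) x β → ∀ᶠ z in atTop,
        appz (encode V) z (fun x β => β < 2 ∧ appz (encode W) z (fun x v => f x = v) x β) x β :=
      fun β h => appz_ev (X := fun z x β => β < 2 ∧ appz (encode W) z (fun x v => f x = v) x β) h
        fun _ _ h => h.2.ev.mono fun _ h' => ⟨h.1, h'⟩
    obtain ⟨z, h5⟩ := ((k _ a1).and (k _ a2)).exists
    exact hL f hf (Nat.pair z (Nat.pair x (Nat.pair β β')))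
      (by simp only [Nat.unpair_pair]; exact ⟨e, Or.inr h5⟩)

theorem claimB (h1 : ∀ m, Good W V (grm g i m)) (h2 : D1 {x | ∃ β < 2, ap W (gro g i) x β})
    (h3 : ∀ m, ∃ j, EE (Bt W V g i m j) c i j) : False := by
  classical
  obtain ⟨k, hk⟩ := eventually_atTop.1 ((D1_iff_bm _).1 h2 c)
  obtain ⟨m, m', e, he⟩ := Finite.exists_ne_map_eq_of_infinite
    fun (m : ℕ) (p : Fin (2 ^ k) × Fin 2) => ap W (grm g i m) p.1 p.2
  obtain ⟨j, hj⟩ := h3 m
  obtain ⟨j', hj'⟩ := h3 m'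
  obtain ⟨F, hF, hF'⟩ := mask_ex (fun x => 2 ^ k ≤ x ∧ ¬ ∃ β < 2, ap W (gro g i) x β) (2 ^ j)
  have a1 := hj F hF fun u _ => by
    by_cases hu : k ≤ u
    · exact le_trans (Nat.mul_le_mul_left _ (cnt_mono fun p _ h => ((hF' _).1 h).2.2)) (hk u hu)
    · rw [cnt_false fun p hp h => by
        have h4 := ((hF' _).1 h).2.1
        have h5 : 2 ^ (u + 1) ≤ 2 ^ k := Nat.pow_le_pow_right (by omega) (by omega)
        rw [pow_succ] at h5
        omega]
      simp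
  have a2 := hj' 0 (Nat.two_pow_pos _) fun u _ => by
    rw [cnt_false fun p _ => by simp [tb]]
    simp
  have a3 := cnt_not (fun a => Bt W V g i m j F (2 ^ i + a)) (2 ^ i)
  have a4 : cnt (fun a => Bt W V g i m' j' 0 (2 ^ i + a)) (2 ^ i) ≤
      cnt (fun a => ¬ Bt W V g i m j F (2 ^ i + a)) (2 ^ i) := cnt_mono fun a _ b1 b2 => by
    refine e ((h1 m').2 _ _ _ (ap.mono b2 fun x β ⟨c1, c2, c3, c4⟩ => ⟨c1, ?_⟩)
      (ap.mono b1 fun _ _ h => ⟨h.1, h.2.2.1⟩))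
    by_cases hx : x < 2 ^ k
    · exact (congrFun he (⟨x, hx⟩, ⟨β, c1⟩)).mp c3
    by_cases hx' : x < 2 ^ j
    · obtain ⟨β', -, c5⟩ : ∃ β < 2, ap W (gro g i) x β :=
        by_contra fun c5 => c2 ((hF' _).2 ⟨hx', not_lt.1 hx, c5⟩)
      rw [(h1 m).1 _ _ _ c3 (c5.mono fun _ _ => Or.inr)]
      exact c5.mono fun _ _ => Or.inr
    · exact (c4 (not_lt.1 hx')).mono fun _ _ => Or.inr
  omega

theorem core2 (hg : Gen2 g) (H1 : Good W V fun x v => g x = v)
    (H2 : ∀ i, D1 {x | ∃ β < 2, ap W (gro g i) x β})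
    (H3 : ∀ S, D1 S →
      D1 {n | ap V (fun x β => x ∈ S ∧ β < 2 ∧ ap W (fun x v => g x = v) x β) n (g n)}) :
    False := by
  classical
  obtain ⟨L0, h0⟩ := good_forced hg H1
  suffices h : ∃ S, D1 S ∧ ¬ D1 {n | ap V
      (fun x β => x ∈ S ∧ β < 2 ∧ ap W (fun x v => g x = v) x β) n (g n)} from
    let ⟨S, a, b⟩ := h; b (H3 S a)
  refine union_lemma (fun S => {n | ap V
    (fun x β => x ∈ S ∧ β < 2 ∧ ap W (fun x v => g x = v) x β) n (g n)})
    (fun S T e n hn => by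
      rw [mem_ofPred_eq] at hn ⊢
      exact hn.mono fun _ _ h => ⟨e h.1, h.2⟩) fun c => ?_
  rcases hg.two (P := fun d u y => EE (Bz W V y.unpair.1 d u.unpair.1 u.unpair.2 y.unpair.2) c
      u.unpair.1 y.unpair.2) (D := fun d u L => c ≤ u.unpair.1 ∧ 2 ^ (u.unpair.1 + 1) ≤ L ∧
      ∀ a < 2 ^ u.unpair.1, d (2 ^ u.unpair.1 + a) = u.unpair.2) (trp_EE W V c)
    ((TRP.le (TR.const c) TR.id.l.l).and ((TRP.le TR.id.l.l.s1.p2 TR.id.r).and
      (TRP.ball (R := fun d y a => d (2 ^ y.unpair.1.unpair.1 + a) = y.unpair.1.unpair.2)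
        (TRP.eq (TR.id.l.l.l.p2.add TR.id.r).orc TR.id.l.l.r) TR.id.l.l.p2)))
    (fun f f' u L e h => ⟨h.1, h.2.1, fun a ha => (e _ (by
      have := h.2.1; rw [pow_succ] at this; omega)).trans (h.2.2 a ha)⟩) with
    ⟨u, L, ⟨a1, -, a2⟩, a3⟩ | ⟨L, hL⟩
  · generalize u.unpair.1 = i at a1 a2 a3
    generalize u.unpair.2 = m at a2 a3
    refine ⟨i, a1, _, H2 i, fun j => ?_⟩
    have a4 : ¬ EE (Bt W V g i m j) c i j := fun h =>
      let ⟨y, hy⟩ := EE_iff.2 ⟨j, h⟩; a3 y hy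
    simp only [EE, not_forall, not_lt] at a4
    obtain ⟨F, b1, b2, b3⟩ := a4
    have b4 : ∀ x, 2 ^ j ≤ x → ¬ tb F x := fun x hx h => by
      rw [tb_iff, Nat.testBit_eq_false_of_lt (b1.trans_le (Nat.pow_le_pow_right (by omega) hx))] at h
      exact Bool.false_ne_true h
    refine ⟨{x | ¬ tb F x}, b4, fun u => ?_, ?_⟩
    · by_cases hu : u < j
      · exact le_trans (Nat.mul_le_mul_left _ (cnt_mono fun p _ h => not_not.1 h)) (b2 u hu)
      · rw [bm, cnt_false fun p _ h => h (b4 _ ((Nat.pow_le_pow_right (by omega)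
          (not_lt.1 hu)).trans (Nat.le_add_right _ _)))]
        simp
    · have b5 := cnt_not (fun a => Bt W V g i m j F (2 ^ i + a)) (2 ^ i)
      refine le_trans (by omega) (Nat.mul_le_mul_left 2 (cnt_mono
        (P := fun a => ¬ Bt W V g i m j F (2 ^ i + a)) fun a ha h h' => h ?_))
      have h6 := h'
      rw [mem_ofPred_eq, a2 a ha] at h6
      refine h6.mono fun x β ⟨c1, c2, c3⟩ => ⟨c2, c1.1, c3.mono fun y v e => ?_, fun hx => ?_⟩
      · by_cases hy : Bk i y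
        · refine Or.inl ⟨hy, ?_⟩
          have h7 := hy.2
          rw [pow_succ] at h7
          rw [← e, ← a2 (y - 2 ^ i) (by omega), Nat.add_sub_cancel' hy.1]
        · exact Or.inr ⟨hy, e⟩
      · obtain ⟨β', -, c4⟩ := c1.2 hx
        rwa [H1.1 _ _ _ c3 (c4.mono fun _ _ h => h.2)]
  · exfalso
    obtain ⟨i, i1, i2, i3⟩ : ∃ i, c ≤ i ∧ L ≤ 2 ^ i ∧ L0 ≤ 2 ^ i :=
      ⟨c + L + L0, by omega, by have := Nat.lt_two_pow_self (n := c + L + L0); omega,
        by have := Nat.lt_two_pow_self (n := c + L + L0); omega⟩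
    have hm : ∀ m L', L' ≤ 2 ^ i → Ag L' (fun x => if Bk i x then m else g x) g :=
      fun m L' h n hn => if_neg fun h' => by have := h'.1; omega
    refine claimB (c := c) (V := V) (fun m => ?_) (H2 i) fun m => EE_iff.1 ?_
    · have e : grm g i m = fun x v => (if Bk i x then m else g x) = v := by
        funext x v
        by_cases h : Bk i x <;> simp [grm, gro, h]
      exact e ▸ h0 _ (hm m _ i3)
    · have h1 := (trp_EE W V c).comp ((TR.const (Nat.pair i m)).pair TR.id)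
      simp only [Nat.unpair_pair] at h1
      refine (hg.one h1).resolve_right fun ⟨L1, h2⟩ => ?_
      obtain ⟨f, y, h3, h4⟩ := hL _ (Nat.pair i m) (L + L1 + 2 ^ (i + 1)) (by omega) (hm m _ i2) (by
        simp only [Nat.unpair_pair]
        exact ⟨i1, by omega, fun a ha => if_pos ⟨by omega, by rw [pow_succ]; omega⟩⟩)
      simp only [Nat.unpair_pair] at h4
      refine h2 (fun x => if Bk i x then g x else f x) (fun n hn => ?_) y ?_
      · have := h3 n (by omega)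
        by_cases h : Bk i n <;> simp_all
      · have e : gro (fun x => if Bk i x then g x else f x) i = gro f i := by
          funext x v
          by_cases h : Bk i x <;> simp [gro, h]
        have e' : grm (fun x => if Bk i x then g x else f x) i m = grm f i m := by
          funext x v
          simp only [grm, e]
        unfold Bz at h4 ⊢
        rwa [e, e']

/-- a relation as a partial function -/
theorem cut_graph (e : ℕ →. ℕ) (S : ℕ → ℕ → Prop) :
    ∃ e' : ℕ →. ℕ, ∀ x β, β ∈ e' x ↔ S x β ∧ β ∈ e x :=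
  ⟨fun x => (e x).bind fun β => Part.assert (S x β) fun _ => Part.some β, fun x β => by
    simp only [Part.mem_bind_iff, Part.mem_assert_iff, Part.mem_some_iff]
    exact ⟨fun ⟨a, h1, h2, h3⟩ => h3 ▸ ⟨h2, h1⟩, fun h => ⟨β, h.2, h.1, rfl⟩⟩⟩

theorem no_set (hg : Gen2 g) (A : Set ℕ) (T : (ℕ →. ℕ) → (ℕ → ℕ) → Prop)
    (t1 : ∀ e f, T e f → D1 {n | f n ∈ e n})
    (t2 : ∀ e e' f, T e f → (∀ x β, β ∈ e' x → β ∈ e x) → D1 {n | f n ∈ e' n} → T e' f)
    (t3 : T g g) {W V : Op} (hW : REPred (· ∈ W)) (hV : REPred (· ∈ V))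
    (w : ∀ d, T d g → ∃ e, T e (A.indicator 1) ∧ e.graph = app W d.graph)
    (v : ∀ d, T d (A.indicator 1) → ∃ e, T e g ∧ e.graph = app V d.graph) : False := by
  obtain ⟨W, rfl⟩ := re_code hW
  obtain ⟨V, rfl⟩ := re_code hV
  have hA : ∀ x, A.indicator (1 : ℕ → ℕ) x < 2 := fun x => by
    rcases ind01 A x with h | h <;> omega
  have k : ∀ {c : Code} {d e : ℕ →. ℕ} {X : ℕ → ℕ → Prop}, e.graph = app (opc c) d.graph →
      (∀ x β, β ∈ d x ↔ X x β) → ∀ x β, β ∈ e x ↔ ap c X x β := fun {c d e X} h1 h2 x β => by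
    have : d.graph = {p | X p.1 p.2} := Set.ext fun p => h2 _ _
    rw [this] at h1
    exact Set.ext_iff.1 h1 (x, β)
  obtain ⟨e, e1, e2⟩ := w _ t3
  have e3 := k (X := fun x v => g x = v) e2 fun x β => by simp [eq_comm]
  have k2 : ∀ S, D1 S → ∃ e', T e' g ∧ ∀ n β, β ∈ e' n ↔
      ap V (fun x β => x ∈ S ∧ β < 2 ∧ ap W (fun x v => g x = v) x β) n β := fun S hS => by
    obtain ⟨d, hd⟩ := cut_graph e fun x β => x ∈ S ∧ β < 2
    obtain ⟨e', h1, h2⟩ := v d (t2 _ _ _ e1 (fun x β h => ((hd _ _).1 h).2)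
      ((hS.inter (t1 _ _ e1)).mono fun n hn => (hd _ _).2 ⟨⟨hn.1, hA n⟩, hn.2⟩))
    exact ⟨e', h1, k h2 fun x β => by rw [hd, e3, and_assoc]⟩
  refine core2 (W := W) (V := V) hg ⟨fun x β β' a b => Part.mem_unique ((e3 _ _).2 a) ((e3 _ _).2 b),
    fun x β β' a b => ?_⟩ (fun i => ?_) fun S hS => ?_
  · obtain ⟨e', -, h⟩ := k2 univ ((D1_Ici 0).mono (subset_univ _))
    exact Part.mem_unique ((h _ _).2 (a.mono fun _ _ h => ⟨trivial, h⟩))
      ((h _ _).2 (b.mono fun _ _ h => ⟨trivial, h⟩))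
  · obtain ⟨d, hd⟩ := cut_graph g fun x _ => ¬ Bk i x
    obtain ⟨e', h1, h2⟩ := w d (t2 _ _ _ t3 (fun x β h => ((hd _ _).1 h).2)
      ((D1_Ici (2 ^ (i + 1))).mono fun n hn => (hd _ _).2
        ⟨fun h => absurd h.2 (not_lt.2 hn), by simp⟩))
    exact (t1 _ _ h1).mono fun x hx => ⟨_, hA x, (k (X := gro g i) h2
      (fun x β => by rw [hd]; simp [gro, eq_comm]) _ _).1 hx⟩
  · obtain ⟨e', h1, h⟩ := k2 S hS
    exact (t1 _ _ h1).mono fun n hn => (h _ _).1 hn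

theorem d3_main : ∃ (g : ℕ → ℕ) (a : ℕ → ℕ → ℕ) (b : ℕ × ℕ × ℕ → ℕ), Computable b ∧
    (∀ n s, ∀ᶠ t in atTop, b (n, s, t) = a n s) ∧ (∀ n, ∀ᶠ s in atTop, a n s = g n) ∧
    ∀ A : Set ℕ, ¬ (UED (A.indicator 1) g ∧ UED g (A.indicator 1)) ∧
      ¬ (UG (A.indicator 1) g ∧ UG g (A.indicator 1)) ∧
      ¬ (UD (A.indicator 1) g ∧ UD g (A.indicator 1)) := by
  refine ⟨fun n => ent (sG (n + 1)) n, fun n s => ent (sA s (n + 1)) n, _, sB_comp,
    fun n s => (sB_lim s (n + 1)).mono fun t h => congrArg (ent · n) h,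
    fun n => (sA_lim (n + 1)).mono fun t h => congrArg (ent · n) h, fun A => ?_⟩
  have hg := gen2_sG
  generalize (fun n => ent (sG (n + 1)) n) = g at hg ⊢
  have hu : D1 univ := (D1_Ici 0).mono (subset_univ _)
  have h1 : ¬ (UG (A.indicator 1) g ∧ UG g (A.indicator 1)) := fun ⟨⟨W, hW, w⟩, V, hV, v⟩ =>
    no_set hg A Generic (fun e f h => ((dens1_iff _).1 h.1).mono fun n hn => by
        obtain ⟨v, hv⟩ := (PFun.mem_dom _ _).1 hn
        show f n ∈ e n
        rwa [h.2 n v hv] at hv)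
      (fun e e' f h h1 h2 => ⟨(dens1_iff _).2 (h2.mono fun n hn => (PFun.mem_dom _ _).2 ⟨_, hn⟩),
        fun n v hv => h.2 n v (h1 _ _ hv)⟩)
      ⟨(dens1_iff _).2 (hu.mono fun n _ => by simp), fun n v hv => by simpa using hv⟩ hW hV w v
  exact ⟨fun h => h1 ⟨h.1.ug, h.2.ug⟩, h1, fun ⟨⟨W, hW, w⟩, V, hV, v⟩ =>
    no_set hg A DenseD (fun e f h => (dens1_iff _).1 h) (fun e e' f _ _ h2 => (dens1_iff _).2 h2)
      ((dens1_iff _).2 (hu.mono fun n _ => by simp)) hW hV w v⟩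

end Pool.Agent.P.MP_106a28_lc
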