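import Pool.Agent.P.MP_106a28_lc.Count

set_option autoImplicit false

namespace Pool.Agent.P.MP_106a28_lc

open Filter Topology Set

/-- index of the dyadic block -/
noncomputable def lg (n : ℕ) : ℕ := sInf {i | n < 2 ^ (i + 1)}

theorem lg_block {i p : ℕ} (hp : p < 2 ^ i) : lg (2 ^ i + p) = i := by
  have h1 : i ∈ {j | 2 ^ i + p < 2 ^ (j + 1)} := by
    simp only [mem_ofPred_eq, pow_succ]; omega
  refine le_antisymm (Nat.sInf_le h1) ?_
  have h2 : 2 ^ i + p < 2 ^ (lg (2 ^ i + p) + 1) := Nat.sInf_mem ⟨i, h1⟩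
  by_contra h
  have : 2 ^ (lg (2 ^ i + p) + 1) ≤ 2 ^ i := Nat.pow_le_pow_right (by omega) (by omega)
  omega

/-- the bit at place `p` of the block with index `(i, s)` -/
def EB' (g : ℕ → ℕ) (i s p : ℕ) : Prop :=
  s ≤ g (2 ^ i + p / 2 ^ i % 2 ^ i) ∧ tb (p / 2 ^ i / 2 ^ i) (min (g (2 ^ i + p % 2 ^ i)) (s + 1))

/-- the set coding `g` -/
def AA (g : ℕ → ℕ) : Set ℕ := {x | EB' g (lg x).unpair.1 (lg x).unpair.2 (x - 2 ^ lg x)}

theorem mem_AA {g : ℕ → ℕ} {i s p : ℕ} (hp : p < 2 ^ Nat.pair i s) :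
    2 ^ Nat.pair i s + p ∈ AA g ↔ EB' g i s p := by
  simp [AA, lg_block hp]

variable {𝒟 : Set (ℕ → ℕ)} {F G H K : (ℕ → ℕ) → ℕ → ℕ}

theorem TR.lg (hF : TR 𝒟 F) : TR 𝒟 fun d a => lg (F d a) :=
  TR.find (P := fun d a i => F d a < 2 ^ (i + 1))
    (TRP.lt (hF.comp TR.id.l) (TR.pow (TR.const 2) (TR.id.r.add (TR.const 1))))
    fun d _ a => ⟨F d a, by have := Nat.lt_two_pow_self (n := F d a + 1); omega⟩

theorem TRP.tb (hF : TR 𝒟 F) (hG : TR 𝒟 G) : TRP 𝒟 fun d a => tb (F d a) (G d a) :=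
  TRP.eq ((hF.div ((TR.const 2).pow hG)).mod (TR.const 2)) (TR.const 1)

theorem TRP.EB' (hF : TR 𝒟 F) (hG : TR 𝒟 G) (hH : TR 𝒟 H) :
    TRP 𝒟 fun d a => EB' d (F d a) (G d a) (H d a) := by
  have h2 := (TR.const (𝒟 := 𝒟) 2).pow hF
  exact TRP.and (TRP.le hG (TR.orc (h2.add ((hH.div h2).mod h2))))
    (TRP.tb ((hH.div h2).div h2) ((TR.orc (h2.add (hH.mod h2))).min (hG.add (TR.const 1))))

theorem TR.AA : TR 𝒟 fun d a => (AA d).indicator (1 : ℕ → ℕ) a :=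
  TR.ite01 (TRP.EB' TR.id.lg.l TR.id.lg.r (TR.id.sub ((TR.const 2).pow TR.id.lg)))

theorem pair_ge (i s : ℕ) : 2 * i ≤ Nat.pair i s := by
  unfold Nat.pair; split_ifs <;> nlinarith

theorem pair_ge' {i : ℕ} (hi : 2 ≤ i) (s : ℕ) : 2 * i + s + 2 ≤ Nat.pair i s := by
  unfold Nat.pair; split_ifs <;> nlinarith

theorem pow_pair (i s : ℕ) : 2 ^ Nat.pair i s = 2 ^ i * (2 ^ i * 2 ^ (Nat.pair i s - 2 * i)) := by
  rw [← pow_add, ← pow_add]; congr 1; have := pair_ge i s; omega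

theorem pow_pair' (i s : ℕ) : 2 ^ (Nat.pair i s - i) = 2 ^ i * 2 ^ (Nat.pair i s - 2 * i) := by
  rw [← pow_add]; congr 1; have := pair_ge i s; omega

theorem enc_err (d g : ℕ → ℕ) (i s : ℕ) :
    bm {x | (AA d).indicator (1 : ℕ → ℕ) x = (AA g).indicator 1 x} (Nat.pair i s) ≤
      2 * bm {x | d x = g x} i * 2 ^ (Nat.pair i s - i) := by
  have h1 : bm {x | (AA d).indicator (1 : ℕ → ℕ) x = (AA g).indicator 1 x} (Nat.pair i s) ≤
      cnt (fun p => 2 ^ i + p % 2 ^ i ∉ {x | d x = g x} ∧ True) (2 ^ Nat.pair i s) +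
      cnt (fun p => True ∧ (2 ^ i + p / 2 ^ i % 2 ^ i ∉ {x | d x = g x} ∧ True))
        (2 ^ Nat.pair i s) := by
    refine cnt_le_add fun p hp h => ?_
    by_contra hc
    simp only [mem_ofPred_eq, and_true, true_and, not_or, not_not] at hc h
    apply h
    have : 2 ^ Nat.pair i s + p ∈ AA d ↔ 2 ^ Nat.pair i s + p ∈ AA g := by
      rw [mem_AA hp, mem_AA hp, EB', EB', hc.1, hc.2]
    by_cases h' : 2 ^ Nat.pair i s + p ∈ AA d
    · simp [h', this.1 h']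
    · simp [h', mt this.2 h']
  rw [pow_pair i s] at h1
  rw [cnt_prod (fun a => 2 ^ i + a ∉ {x | d x = g x}) (fun _ => True),
    cnt_prod (fun _ => True) (fun u => 2 ^ i + u % 2 ^ i ∉ {x | d x = g x} ∧ True),
    cnt_prod (fun a => 2 ^ i + a ∉ {x | d x = g x}) (fun _ => True),
    cnt_true (fun _ _ => trivial), cnt_true (fun _ _ => trivial),
    cnt_true (fun _ _ => trivial)] at h1
  rw [pow_pair']
  unfold bm at h1 ⊢
  nlinarith

theorem not_AA {g : ℕ → ℕ} {i s p : ℕ} (hp : p < 2 ^ Nat.pair i s)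
    (hs : (Finset.range (2 ^ (i + 1))).sup g < s) : 2 ^ Nat.pair i s + p ∉ AA g := by
  rw [mem_AA hp]
  intro h
  have h1 : p / 2 ^ i % 2 ^ i < 2 ^ i := Nat.mod_lt _ (Nat.two_pow_pos i)
  have := Finset.le_sup (f := g) (s := Finset.range (2 ^ (i + 1)))
    (b := 2 ^ i + p / 2 ^ i % 2 ^ i) (Finset.mem_range.2 (by rw [pow_succ]; omega))
  have := h.1
  omega

theorem enc_coarse {d g : ℕ → ℕ} (h : Coarse d g) :
    Coarse ((AA d).indicator 1) ((AA g).indicator 1) := by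
  unfold Coarse at h ⊢
  rw [dens1_iff, D1_iff_bm] at h ⊢
  intro t
  obtain ⟨i0, h0⟩ := eventually_atTop.1 (h (2 * t))
  set B := (Finset.range (2 ^ (i0 + 1))).sup d + (Finset.range (2 ^ (i0 + 1))).sup g with hB
  filter_upwards [eventually_ge_atTop ((i0 + B + 1) ^ 2)] with j hj
  obtain ⟨i, s, rfl⟩ : ∃ i s, j = Nat.pair i s := ⟨_, _, (Nat.pair_unpair j).symm⟩
  by_cases hi : i0 ≤ i
  · have h1 := Nat.mul_le_mul_left t (enc_err d g i s)
    have h2 := Nat.mul_le_mul_right (2 ^ (Nat.pair i s - i)) (h0 i hi)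
    rw [pow_pair, ← pow_pair']
    nlinarith
  · have hs : B < s := by
      by_contra hs
      have h1 := Nat.pair_lt_max_add_one_sq i s
      have h2 : (max i s + 1) ^ 2 ≤ (i0 + B + 1) ^ 2 := Nat.pow_le_pow_left (by omega) 2
      omega
    have hsub : Finset.range (2 ^ (i + 1)) ⊆ Finset.range (2 ^ (i0 + 1)) :=
      Finset.range_subset_range.2 (Nat.pow_le_pow_right (by omega) (by omega))
    have h1 := Finset.sup_mono (f := d) hsub
    have h2 := Finset.sup_mono (f := g) hsub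
    rw [bm, cnt_false fun p hp => by
      simp [not_AA (g := d) hp (by omega), not_AA (g := g) hp (by omega)]]
    simp

theorem uc_enc (g : ℕ → ℕ) : UC ((AA g).indicator 1) g :=
  TR.uc TR.AA fun _ hd => enc_coarse hd

end Pool.Agent.P.MP_106a28_lc
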