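import Pool.Agent.P.MP_106a28_lc.Enc

set_option autoImplicit false

/-! Tools: bounded quantifiers for programs, c.e. operators, effective dense reductions. -/

namespace Pool.Agent.P.MP_106a28_lc

open Filter Set Encodable Denumerable

variable {𝒟 : Set (ℕ → ℕ)} {F G H : (ℕ → ℕ) → ℕ → ℕ} {P Q : (ℕ → ℕ) → ℕ → Prop}

theorem cnt_pos {P : ℕ → Prop} {m : ℕ} : 0 < cnt P m ↔ ∃ u < m, P u := by
  classical
  unfold cnt
  rw [Finset.card_pos]
  constructor
  · rintro ⟨u, hu⟩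
    exact ⟨u, Finset.mem_range.1 (Finset.mem_filter.1 hu).1, (Finset.mem_filter.1 hu).2⟩
  · rintro ⟨u, h1, h2⟩
    exact ⟨u, Finset.mem_filter.2 ⟨Finset.mem_range.2 h1, h2⟩⟩

theorem cnt_not (P : ℕ → Prop) (m : ℕ) : cnt P m + cnt (fun u => ¬ P u) m = m := by
  have h := cnt_split (fun _ => True) P m
  rw [cnt_true (P := fun _ => True) fun _ _ => trivial] at h
  simpa only [true_and] using h

theorem TRP.congr (h : TRP 𝒟 P) (e : ∀ d a, P d a ↔ Q d a) : TRP 𝒟 Q := by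
  have : P = Q := funext fun d => funext fun a => propext (e d a)
  exact this ▸ h

theorem TRP.bex {R : (ℕ → ℕ) → ℕ → ℕ → Prop} (hR : TRP 𝒟 fun d z => R d z.unpair.1 z.unpair.2)
    (hH : TR 𝒟 H) : TRP 𝒟 fun d a => ∃ k < H d a, R d a k :=
  (TRP.lt (TR.const 0) (TR.cnt hR hH)).congr fun _ _ => cnt_pos

theorem TRP.ball {R : (ℕ → ℕ) → ℕ → ℕ → Prop} (hR : TRP 𝒟 fun d z => R d z.unpair.1 z.unpair.2)
    (hH : TR 𝒟 H) : TRP 𝒟 fun d a => ∀ k < H d a, R d a k :=
  (TRP.bex (R := fun d a k => ¬ R d a k) hR.not hH).not.congr fun _ _ => by simp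

theorem TRP.imp (hP : TRP 𝒟 P) (hQ : TRP 𝒟 Q) : TRP 𝒟 fun d a => P d a → Q d a :=
  (hP.not.or hQ).congr fun _ _ => imp_iff_not_or.symm

open Classical in
theorem TR.ite (hP : TRP 𝒟 P) (hF : TR 𝒟 F) (hG : TR 𝒟 G) :
    TR 𝒟 fun d a => if P d a then F d a else G d a :=
  ((((TR.const 1).sub hP).mul hF).add (TR.mul hP hG)).of_eq fun d _ a => by
    by_cases h : P d a <;> simp [h]

theorem TR.comput {f : ℕ → ℕ} (h : Computable f) : TR 𝒟 fun _ a => f a := by
  obtain ⟨c, hc⟩ := partrec_ocode (Partrec.nat_iff.1 h)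
  exact ⟨c, fun d _ a => by rw [hc]; simp⟩

theorem TR.comput2 {f : ℕ → ℕ → ℕ} (h : Computable₂ f) (hF : TR 𝒟 F) (hG : TR 𝒟 G) :
    TR 𝒟 fun d a => f (F d a) (G d a) :=
  ((TR.comput (f := fun z => f z.unpair.1 z.unpair.2)
    (h.comp (Computable.fst.comp Computable.unpair) (Computable.snd.comp Computable.unpair))).comp
      (hF.pair hG)).of_eq fun _ _ _ => by simp

theorem TR.computable {f : ℕ → ℕ} (h : TR {0} fun _ a => f a) : Computable f := by
  obtain ⟨c, hc⟩ := h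
  have e : c.eval ((0 : ℕ → ℕ) : ℕ →. ℕ) = (f : ℕ →. ℕ) :=
    funext fun a => Part.eq_some_iff.2 (hc 0 rfl a)
  have h1 := ocode_red ((0 : ℕ → ℕ) : ℕ →. ℕ) c
  rw [e] at h1
  exact TuringReducible.partrec_of_const (s := Part.some 0) h1

theorem raise_fold (y : ℕ) (l : List ℕ) (n : ℕ) (c : Bool) :
    (l.foldl (fun (s : ℕ × Bool) m => (m + s.1 + 1, s.2 || decide (m + s.1 = y))) (n, c)).2 = true ↔
      c = true ∨ y ∈ raise' l n := by
  induction l generalizing n c with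
  | nil => simp [raise']
  | cons m l ih =>
    rw [List.foldl_cons, ih, raise', List.mem_cons, Bool.or_eq_true, decide_eq_true_eq, or_assoc,
      eq_comm (a := m + n)]

theorem mem_prim : PrimrecRel fun c y : ℕ => y.unpair ∈ ofNat (Finset (ℕ × ℕ)) c := by
  have h1 : Primrec fun p : ℕ × ℕ => ((ofNat (List ℕ) p.1).foldl
      (fun (s : ℕ × Bool) m => (m + s.1 + 1, s.2 || decide (m + s.1 = p.2))) (0, false)).2 := by
    have ha : Primrec fun q : (ℕ × ℕ) × (ℕ × Bool) × ℕ => q.2.2 + q.2.1.1 :=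
      Primrec.nat_add.comp (Primrec.snd.comp Primrec.snd)
        (Primrec.fst.comp (Primrec.fst.comp Primrec.snd))
    exact Primrec.snd.comp (Primrec.list_foldl ((Primrec.ofNat _).comp Primrec.fst)
      (Primrec.const _) (Primrec.pair (Primrec.succ.comp ha) (Primrec.or.comp
        (Primrec.snd.comp (Primrec.fst.comp Primrec.snd))
        ((PrimrecRel.comp Primrec.eq ha (Primrec.snd.comp Primrec.fst)).decide))).to₂)
  refine (PrimrecRel.comp Primrec.eq h1 (Primrec.const true)).of_eq fun p => ?_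
  rw [raise_fold]
  show _ ↔ p.2.unpair ∈ Finset.map (eqv (ℕ × ℕ)).symm.toEmbedding
    (raise'Finset (ofNat (List ℕ) p.1) 0)
  rw [Finset.mem_map_equiv]
  have : encode p.2.unpair = p.2 := Nat.pair_unpair _
  simp only [Bool.false_eq_true, false_or, Equiv.symm_symm]
  show _ ↔ encode p.2.unpair ∈ raise' (ofNat (List ℕ) p.1) 0
  rw [this]

theorem TRP.memF (hF : TR 𝒟 F) (hG : TR 𝒟 G) (hH : TR 𝒟 H) :
    TRP 𝒟 fun d a => (G d a, H d a) ∈ ofNat (Finset (ℕ × ℕ)) (F d a) :=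
  (TRP.rel mem_prim hF (hG.pair hH)).congr fun _ _ => by simp

theorem re_of_TRP (R : Finset (ℕ × ℕ) → ℕ → ℕ → ℕ → Prop)
    (h : TRP {0} fun _ z => R (ofNat (Finset (ℕ × ℕ)) z.unpair.1.unpair.1)
      z.unpair.1.unpair.2.unpair.1 z.unpair.1.unpair.2.unpair.2 z.unpair.2) :
    REPred (· ∈ ({p | ∃ z, R p.1 p.2.1 p.2.2 z} : Op)) := by
  classical
  have h1 := TR.computable h
  have h2 : Computable fun q : (Finset (ℕ × ℕ) × (ℕ × ℕ)) × ℕ => decide (R q.1.1 q.1.2.1 q.1.2.2 q.2) := by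
    have h3 : Computable fun q : (Finset (ℕ × ℕ) × (ℕ × ℕ)) × ℕ => Nat.pair
        (Nat.pair (@encode _ Primcodable.toEncodable q.1.1) (Nat.pair q.1.2.1 q.1.2.2)) q.2 :=
      (Primrec₂.natPair.comp (Primrec₂.natPair.comp
        (Primrec.encode.comp (Primrec.fst.comp Primrec.fst))
        (Primrec₂.natPair.comp (Primrec.fst.comp (Primrec.snd.comp Primrec.fst))
          (Primrec.snd.comp (Primrec.snd.comp Primrec.fst)))) Primrec.snd).to_comp
    refine ((Primrec.eq.decide.to_comp).comp (h1.comp h3) (Computable.const 0)).of_eq fun q => ?_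
    have : ofNat (Finset (ℕ × ℕ)) (@encode _ Primcodable.toEncodable q.1.1) = q.1.1 :=
      ofNat_encode _
    simp [this]
  refine (Partrec.rfind h2.partrec.to₂).dom_re.of_eq fun p => ?_
  refine Nat.rfind_dom.trans ?_
  simp

/-- coded effective dense descriptions -/
def ED (c g : ℕ → ℕ) : Prop := (∀ n v, c n = v + 1 → v = g n) ∧ D1 {n | c n ≠ 0}

theorem TR.ued {f g : ℕ → ℕ} (h : TR {c | ED c g} F) (hc : ∀ c, ED c g → ED (F c) f) :
    UED f g := by
  obtain ⟨c, h⟩ := h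
  refine ⟨c, fun d hd => ?_⟩
  have h1 : ED (fun n => encode (d n)) g :=
    ⟨fun n v hv => hd.1 n v (by cases h : d n <;> simp_all),
      ((dens1_iff _).1 hd.2).mono fun n hn => by cases h : d n <;> simp_all⟩
  have h2 := hc _ h1
  refine ⟨fun n => (F (fun n => encode (d n)) n).casesOn none some, ⟨fun n v hv => h2.1 n v ?_,
    (dens1_iff _).2 (h2.2.mono fun n hn => ?_)⟩, funext fun a => ?_⟩
  · cases h : F (fun n => encode (d n)) n <;> simp_all
  · cases h : F (fun n => encode (d n)) n <;> simp_all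
  · refine (Part.eq_some_iff.2 (h _ h1 a)).trans ?_
    cases h : F (fun n => encode (d n)) a <;> simp [code, h]

theorem digits_ex (B m : ℕ) (f : ℕ → ℕ) (h : ∀ a < m, f a < B) :
    ∃ z, ∀ a < m, z / B ^ a % B = f a := by
  induction m generalizing f with
  | zero => exact ⟨0, by simp⟩
  | succ m ih =>
    obtain ⟨z, hz⟩ := ih (fun a => f (a + 1)) fun a ha => h _ (by omega)
    have h0 := h 0 (by omega)
    refine ⟨f 0 + B * z, fun a ha => ?_⟩
    cases a with
    | zero => simp [Nat.mod_eq_of_lt h0]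
    | succ a =>
      rw [pow_succ', ← Nat.div_div_eq_div_mul, Nat.add_mul_div_left _ _ (by omega),
        Nat.div_eq_of_lt h0, zero_add, hz a (by omega)]

theorem few_top (f : ℕ → ℕ) (k m : ℕ) :
    k * cnt (fun a => k * cnt (fun a' => f a ≤ f a') m < m) m ≤ m := by
  classical
  by_cases h : ∃ a < m, k * cnt (fun a' => f a ≤ f a') m < m
  · obtain ⟨a, ha, hmin⟩ := ((Finset.range m).filter
      fun a => k * cnt (fun a' => f a ≤ f a') m < m).exists_min_image f
      (let ⟨a, h1, h2⟩ := h; ⟨a, Finset.mem_filter.2 ⟨Finset.mem_range.2 h1, h2⟩⟩)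
    refine le_trans (Nat.mul_le_mul_left _ (cnt_mono fun u hu hu' => ?_))
      (Finset.mem_filter.1 ha).2.le
    exact hmin u (Finset.mem_filter.2 ⟨Finset.mem_range.2 hu, hu'⟩)
  · rw [cnt_false fun u hu hu' => h ⟨u, hu, hu'⟩]
    omega

theorem lg_spec {n : ℕ} (h : 1 ≤ lg n) : ∃ a < 2 ^ lg n, n = 2 ^ lg n + a := by
  have h1 : n < 2 ^ (lg n + 1) :=
    Nat.sInf_mem (s := {i | n < 2 ^ (i + 1)})
      ⟨n, by have := Nat.lt_two_pow_self (n := n + 1); simp only [mem_ofPred_eq]; omega⟩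
  have h2 : ¬ n < 2 ^ (lg n - 1 + 1) :=
    Nat.notMem_of_lt_sInf (s := {i | n < 2 ^ (i + 1)}) (show lg n - 1 < lg n by omega)
  rw [Nat.sub_add_cancel h] at h2
  rw [pow_succ] at h1
  exact ⟨n - 2 ^ lg n, by omega, by omega⟩

end Pool.Agent.P.MP_106a28_lc
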