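import Pool.Agent.P.MP_106a28_lc.LbA

set_option autoImplicit false

/-! The coding set for a function below a limit computable bound; certificates. -/

namespace Pool.Agent.P.MP_106a28_lc

open Filter Set

variable (b : ℕ → ℕ → ℕ)

/-- the level `t` of block `i` is enumerated at stage `u` -/
def En (i t u : ℕ) : Prop := ∃ n < 2 ^ (i + 1), t ≤ b n u + 1

/-- `u` is the first such stage -/
def Live (i t u : ℕ) : Prop := En b i t u ∧ ∀ u' < u, ¬ En b i t u'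

/-- index of the block of the set -/
def JJ (i t u : ℕ) : ℕ := Nat.pair i (Nat.pair t u)

/-- a bit -/
def bt (r s : ℕ) : ℕ := r / 2 ^ s % 2

/-- the row `a` of the block shows the symbol `s` -/
def Shows (X : ℕ → ℕ → Prop) (i t u a s : ℕ) : Prop :=
  7 * 2 ^ (JJ i t u - i) <
    8 * cnt (fun r => X (2 ^ JJ i t u + (a + 2 ^ i * r)) (bt r s)) (2 ^ (JJ i t u - i))

/-- the place lies in a live block -/
def Lv (x : ℕ) : Prop := Live b (lg x).unpair.1 (lg x).unpair.2.unpair.1 (lg x).unpair.2.unpair.2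

/-- the argument coded at a place -/
noncomputable def nn (x : ℕ) : ℕ := 2 ^ (lg x).unpair.1 + (x - 2 ^ lg x) % 2 ^ (lg x).unpair.1

/-- the bit at a place, from the value -/
noncomputable def vl (x v : ℕ) : ℕ :=
  bt ((x - 2 ^ lg x) / 2 ^ (lg x).unpair.1) (min v (lg x).unpair.2.unpair.1)

/-- the coding set -/
def AL (g : ℕ → ℕ) : Set ℕ := {x | Lv b x ∧ vl x (g (nn x)) = 1}

/-- certificates -/
structure Cert (X : ℕ → ℕ → Prop) (i a w t u z : ℕ) : Prop where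
  en : En b i t u
  pos : 0 < t
  tau : 0 < cnt (fun a' => w ≤ z / t ^ a' % t) (2 ^ i)
  c1 : ∀ t' < t + 1, ∀ u' < u + 1, Live b i t' u' →
    16 * cnt (fun a' => ¬ Shows X i t' u' a' (min (z / t ^ a' % t) t')) (2 ^ i) ≤
      cnt (fun a' => w ≤ z / t ^ a' % t) (2 ^ i)
  c2 : 8 * cnt (fun a' => ¬ ∃ u' < u + 1, Live b i (z / t ^ a' % t + 1) u' ∧
      Shows X i (z / t ^ a' % t + 1) u' a (min w (z / t ^ a' % t + 1))) (2 ^ i) ≤
    cnt (fun a' => w ≤ z / t ^ a' % t) (2 ^ i)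

/-- single valued -/
def SV (X : ℕ → ℕ → Prop) : Prop := ∀ x β β', X x β → X x β' → β = β'

variable {b} {X X' : ℕ → ℕ → Prop} {g : ℕ → ℕ} {i t u a : ℕ}

theorem bt_lt (r s : ℕ) : bt r s < 2 := Nat.mod_lt _ (by omega)

theorem En.live {t' : ℕ} (h : En b i t u) (ht : t' ≤ t) : ∃ u' < u + 1, Live b i t' u' := by
  classical
  have h1 : En b i t' u := let ⟨n, h1, h2⟩ := h; ⟨n, h1, ht.trans h2⟩
  have h2 : ∃ u, En b i t' u := ⟨u, h1⟩
  exact ⟨Nat.find h2, Nat.lt_succ_of_le (Nat.find_le h1), Nat.find_spec h2,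
    fun _ h => Nat.find_min h2 h⟩

theorem Live.unique {u' : ℕ} (h : Live b i t u) (h' : Live b i t u') : u = u' := by
  rcases lt_trichotomy u u' with e | e | e
  exacts [absurd h.1 (h'.2 u e), e, absurd h'.1 (h.2 u' e)]

theorem le_JJ (i t u : ℕ) : i ≤ JJ i t u := Nat.left_le_pair _ _

theorem lt_JJ (hi : 2 ≤ i) (t u : ℕ) : t < JJ i t u - i := by
  have h1 := pair_ge' hi (Nat.pair t u)
  have h2 := Nat.left_le_pair t u
  unfold JJ
  omega

theorem pow_JJ (i t u : ℕ) : 2 ^ JJ i t u = 2 ^ i * 2 ^ (JJ i t u - i) := by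
  rw [← pow_add, Nat.add_sub_cancel' (le_JJ i t u)]

theorem JJ_mono {t' u' : ℕ} (ht : t' ≤ t) (hu : u' ≤ u) : JJ i t' u' ≤ JJ i t u := by
  have h1 : ∀ a c d : ℕ, c ≤ d → Nat.pair a c ≤ Nat.pair a d := fun a c d h =>
    h.lt_or_eq.elim (fun h => (Nat.pair_lt_pair_right a h).le) fun h => h ▸ le_rfl
  have h2 : Nat.pair t' u ≤ Nat.pair t u :=
    ht.lt_or_eq.elim (fun h => (Nat.pair_lt_pair_left u h).le) fun h => h ▸ le_rfl
  exact h1 _ _ _ ((h1 _ _ _ hu).trans h2)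

theorem live_bdd (hb : ∀ n, ∃ B, ∀ u, b n u ≤ B) (i0 : ℕ) :
    ∃ j0, ∀ i < i0, ∀ t u, Live b i t u → JJ i t u < j0 := by
  classical
  choose B hB using hb
  have h1 : ∀ i t, ∃ U, ∀ u, Live b i t u → u = U := fun i t => by
    by_cases h : ∃ u, Live b i t u
    · obtain ⟨U, hU⟩ := h
      exact ⟨U, fun u hu => hu.unique hU⟩
    · exact ⟨0, fun u hu => absurd ⟨u, hu⟩ h⟩
  choose U hU using h1
  refine ⟨((Finset.range i0).sup fun i => (Finset.range ((Finset.range (2 ^ (i + 1))).sup B + 2)).sup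
    fun t => JJ i t (U i t)) + 1, fun i hi t u h => Nat.lt_succ_of_le ?_⟩
  refine le_trans ?_ (Finset.le_sup (Finset.mem_range.2 hi))
  obtain ⟨n, h2, h3⟩ := h.1
  have h4 : B n ≤ (Finset.range (2 ^ (i + 1))).sup B := Finset.le_sup (Finset.mem_range.2 h2)
  have h5 := hB n u
  rw [hU i t u h]
  exact Finset.le_sup (f := fun t => JJ i t (U i t)) (Finset.mem_range.2 (by omega))

theorem Shows.unique (hX : SV X) (hi : 2 ≤ i) {s s' : ℕ} (hs : s ≤ t) (hs' : s' ≤ t)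
    (h : Shows X i t u a s) (h' : Shows X i t u a s') : s = s' := by
  by_contra e
  have hj := lt_JJ hi t u
  have h1 := cnt_tb2 (JJ i t u - i) s s' (by omega) (by omega) e
  have h2 := cnt_not (fun r => X (2 ^ JJ i t u + (a + 2 ^ i * r)) (bt r s)) (2 ^ (JJ i t u - i))
  have h3 := cnt_not (fun r => X (2 ^ JJ i t u + (a + 2 ^ i * r)) (bt r s')) (2 ^ (JJ i t u - i))
  have h4 : cnt (fun r => tb r s ∧ ¬ tb r s') (2 ^ (JJ i t u - i)) ≤
      cnt (fun r => ¬ X (2 ^ JJ i t u + (a + 2 ^ i * r)) (bt r s)) (2 ^ (JJ i t u - i)) +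
      cnt (fun r => ¬ X (2 ^ JJ i t u + (a + 2 ^ i * r)) (bt r s')) (2 ^ (JJ i t u - i)) :=
    cnt_le_add fun r _ hr => by
      by_contra hc
      simp only [not_or, not_not] at hc
      exact hr.2 ((hX _ _ _ hc.2 hc.1).trans hr.1)
  unfold Shows at h h'
  omega

theorem Shows.mono {s : ℕ} (h : Shows X i t u a s)
    (e : ∀ x β, x < 2 ^ JJ i t u + (a + 2 ^ JJ i t u) → β < 2 → X x β → X' x β) :
    Shows X' i t u a s := by
  refine lt_of_lt_of_le h (Nat.mul_le_mul_left _ (cnt_mono fun r hr => e _ _ ?_ (bt_lt _ _)))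
  have h1 := Nat.mul_lt_mul_of_pos_left hr (Nat.two_pow_pos i)
  rw [← pow_JJ] at h1
  omega

theorem Cert.mono {w z : ℕ} (h : Cert b X i a w t u z)
    (e : ∀ x β, x < 3 * 2 ^ JJ i t u + a → β < 2 → X x β → X' x β) : Cert b X' i a w t u z := by
  have key : ∀ t' ≤ t, ∀ u' < u + 1, ∀ a' < 2 ^ i + a + 1, ∀ s, (a' < 2 ^ i ∨ a' = a) →
      Shows X i t' u' a' s → Shows X' i t' u' a' s := fun t' ht u' hu a' _ s ha hs => by
    have h1 : 2 ^ JJ i t' u' ≤ 2 ^ JJ i t u :=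
      Nat.pow_le_pow_right (by omega) (JJ_mono ht (by omega))
    have h2 : 2 ^ i ≤ 2 ^ JJ i t u := Nat.pow_le_pow_right (by omega) (le_JJ _ _ _)
    exact hs.mono fun x β hx => e x β (by omega)
  refine ⟨h.en, h.pos, h.tau, fun t' ht u' hu hl => le_trans (Nat.mul_le_mul_left _
    (cnt_mono fun a' ha hs hs' => hs (key t' (by omega) u' hu a' (by omega) _ (Or.inl ha) hs')))
    (h.c1 t' ht u' hu hl), le_trans (Nat.mul_le_mul_left _ (cnt_mono ?_)) h.c2⟩
  rintro a' _ hs ⟨u', h1, h2, h3⟩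
  exact hs ⟨u', h1, h2, key _ (Nat.mod_lt _ h.pos) u' h1 a (by omega) _ (Or.inr rfl) h3⟩

theorem Cert.not_lt (hX : SV X) (hi : 2 ≤ i) {w z w' t' u' z' : ℕ} (h : Cert b X i a w t u z)
    (h' : Cert b X i a w' t' u' z') : ¬ w < w' := by
  intro hw
  obtain ⟨u0, h1, h2⟩ := h.en.live (min_le_left t t')
  obtain ⟨u1, h3, h4⟩ := h'.en.live (min_le_right t t')
  obtain rfl := h2.unique h4
  have c1 := h.c1 _ (Nat.lt_succ_of_le (min_le_left t t')) _ h1 h2
  have c1' := h'.c1 _ (Nat.lt_succ_of_le (min_le_right t t')) _ h3 h2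
  have c2 := h.c2
  have c2' := h'.c2
  have ht := h.tau
  have ag : ∀ a', Shows X i (min t t') u0 a' (min (z / t ^ a' % t) (min t t')) →
      Shows X i (min t t') u0 a' (min (z' / t' ^ a' % t') (min t t')) →
      z / t ^ a' % t = z' / t' ^ a' % t' := fun a' s1 s2 => by
    have e := Shows.unique hX hi (min_le_right _ _) (min_le_right _ _) s1 s2
    have e1 := Nat.mod_lt (z / t ^ a') h.pos
    have e2 := Nat.mod_lt (z' / t' ^ a') h'.pos
    omega
  have k1 := (cnt_le_add (m := 2 ^ i) (P := fun a' => w' ≤ z' / t' ^ a' % t')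
    (Q := fun a' => w ≤ z / t ^ a' % t) (R := fun a' =>
      ¬ Shows X i (min t t') u0 a' (min (z / t ^ a' % t) (min t t')) ∨
      ¬ Shows X i (min t t') u0 a' (min (z' / t' ^ a' % t') (min t t'))) fun a' _ ha => by
    by_contra hc
    simp only [not_or, not_not] at hc
    have := ag a' hc.2.1 hc.2.2
    omega).trans (Nat.add_le_add_left (cnt_or _ _ _) _)
  have k2 := (cnt_le_add (m := 2 ^ i) (P := fun a' => w ≤ z / t ^ a' % t) (Q := fun a' =>
      ¬ Shows X i (min t t') u0 a' (min (z / t ^ a' % t) (min t t')) ∨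
      ¬ Shows X i (min t t') u0 a' (min (z' / t' ^ a' % t') (min t t'))) (R := fun a' =>
      (¬ ∃ u1 < u + 1, Live b i (z / t ^ a' % t + 1) u1 ∧
        Shows X i (z / t ^ a' % t + 1) u1 a (min w (z / t ^ a' % t + 1))) ∨
      ¬ ∃ u1 < u' + 1, Live b i (z' / t' ^ a' % t' + 1) u1 ∧
        Shows X i (z' / t' ^ a' % t' + 1) u1 a (min w' (z' / t' ^ a' % t' + 1))) fun a' _ ha => by
    by_contra hc
    simp only [not_or, not_not] at hc
    obtain ⟨⟨s1, s2⟩, ⟨v1, -, l1, s3⟩, v2, -, l2, s4⟩ := hc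
    rw [← ag a' s1 s2] at l2 s4
    obtain rfl := l1.unique l2
    have := Shows.unique hX hi (min_le_right _ _) (min_le_right _ _) s3 s4
    omega).trans (Nat.add_le_add (cnt_or _ _ _) (cnt_or _ _ _))
  omega

theorem Cert.unique (hX : SV X) (hi : 2 ≤ i) {w z w' t' u' z' : ℕ} (h : Cert b X i a w t u z)
    (h' : Cert b X i a w' t' u' z') : w = w' := by
  have h1 := h.not_lt hX hi h'
  have h2 := h'.not_lt hX hi h
  omega

theorem place {p : ℕ} (hp : p < 2 ^ JJ i t u) :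
    (Lv b (2 ^ JJ i t u + p) ↔ Live b i t u) ∧ nn (2 ^ JJ i t u + p) = 2 ^ i + p % 2 ^ i ∧
      ∀ v, vl (2 ^ JJ i t u + p) v = bt (p / 2 ^ i) (min v t) := by
  unfold Lv nn vl
  rw [lg_block hp]
  simp [JJ]

open Classical in
theorem ind_AL (x : ℕ) :
    (AL b g).indicator (1 : ℕ → ℕ) x = if Lv b x then vl x (g (nn x)) else 0 := by
  have : vl x (g (nn x)) < 2 := bt_lt _ _
  by_cases h : Lv b x
  · by_cases h' : vl x (g (nn x)) = 1
    · simp [AL, h, h']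
    · simp only [AL, h, h', indicator, mem_ofPred_eq, and_false, if_false, if_true]
      omega
  · simp [AL, h]

theorem ind_row (hl : Live b i t u) (ha : a < 2 ^ i) {r : ℕ} (hr : r < 2 ^ (JJ i t u - i)) :
    (AL b g).indicator (1 : ℕ → ℕ) (2 ^ JJ i t u + (a + 2 ^ i * r)) =
      bt r (min (g (2 ^ i + a)) t) := by
  have hp : a + 2 ^ i * r < 2 ^ JJ i t u := by rw [pow_JJ]; nlinarith
  obtain ⟨h1, h2, h3⟩ := place (b := b) hp
  rw [ind_AL, if_pos (h1.2 hl), h3, h2, Nat.add_mul_mod_self_left, Nat.mod_eq_of_lt ha,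
    Nat.add_mul_div_left _ _ (Nat.two_pow_pos i), Nat.div_eq_of_lt ha, zero_add]

theorem fail_le (hl : Live b i t u) {K : ℕ}
    (h : K * bm {x | X x ((AL b g).indicator 1 x)} (JJ i t u) ≤ 2 ^ JJ i t u) :
    K * cnt (fun a => ¬ Shows X i t u a (min (g (2 ^ i + a)) t)) (2 ^ i) ≤ 8 * 2 ^ i := by
  have h1 := markov (fun a => cnt (fun r => 2 ^ JJ i t u + (a + 2 ^ i * r) ∉
    {x | X x ((AL b g).indicator 1 x)}) (2 ^ (JJ i t u - i))) 8 (2 ^ (JJ i t u - i)) (2 ^ i)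
  rw [← cnt_grid (fun p => 2 ^ JJ i t u + p ∉ {x | X x ((AL b g).indicator 1 x)}), ← pow_JJ] at h1
  have h2 : cnt (fun a => ¬ Shows X i t u a (min (g (2 ^ i + a)) t)) (2 ^ i) ≤ _ :=
    cnt_mono (Q := fun a => 2 ^ (JJ i t u - i) ≤ 8 * cnt (fun r => 2 ^ JJ i t u + (a + 2 ^ i * r) ∉
      {x | X x ((AL b g).indicator 1 x)}) (2 ^ (JJ i t u - i))) fun a ha hs => by
      have h3 := cnt_not (fun r => X (2 ^ JJ i t u + (a + 2 ^ i * r))
        (bt r (min (g (2 ^ i + a)) t))) (2 ^ (JJ i t u - i))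
      rw [cnt_congr (Q := fun r => ¬ X (2 ^ JJ i t u + (a + 2 ^ i * r))
        (bt r (min (g (2 ^ i + a)) t))) fun r hr => by rw [mem_ofPred_eq, ind_row hl ha hr]]
      unfold Shows at hs
      omega
  have h3 := Nat.mul_le_mul_left K ((Nat.mul_le_mul_right _ h2).trans h1)
  unfold bm at h
  rw [pow_JJ i t u] at h
  refine Nat.le_of_mul_le_mul_right ?_ (Nat.two_pow_pos (JJ i t u - i))
  rw [← pow_JJ] at h
  have h4 := pow_JJ i t u
  nlinarith

theorem top_en (hg : ∀ n, ∃ u, g n ≤ b n u) (i : ℕ) :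
    ∃ t u, En b i t u ∧ ∀ a < 2 ^ i, g (2 ^ i + a) < t := by
  obtain ⟨a, ha, hm⟩ := (Finset.range (2 ^ i)).exists_max_image (fun a => g (2 ^ i + a))
    ⟨0, Finset.mem_range.2 (Nat.two_pow_pos i)⟩
  obtain ⟨u, hu⟩ := hg (2 ^ i + a)
  have := Finset.mem_range.1 ha
  exact ⟨g (2 ^ i + a) + 1, u, ⟨2 ^ i + a, by rw [pow_succ]; omega, by omega⟩,
    fun a' h => Nat.lt_succ_of_le (hm a' (Finset.mem_range.2 h))⟩

theorem cert_many (hg : ∀ n, ∃ u, g n ≤ b n u) {k : ℕ} (hk : 0 < k)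
    (h : ∀ t u, (128 * k + 64 * k * k) * bm {x | X x ((AL b g).indicator 1 x)} (JJ i t u) ≤
      2 ^ JJ i t u) :
    k * cnt (fun a => ¬ ∃ t u z, Cert b X i a (g (2 ^ i + a)) t u z) (2 ^ i) ≤ 2 * 2 ^ i := by
  classical
  obtain ⟨t, u, he, ht⟩ := top_en hg i
  obtain ⟨z, hz⟩ := digits_ex t (2 ^ i) _ ht
  have hm := Nat.two_pow_pos i
  have h1 : ∀ a', ∃ U, a' < 2 ^ i → U < u + 1 ∧ Live b i (g (2 ^ i + a') + 1) U := fun a' => by
    by_cases ha : a' < 2 ^ i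
    · obtain ⟨U, hU⟩ := he.live (ht a' ha)
      exact ⟨U, fun _ => hU⟩
    · exact ⟨0, fun h => absurd h ha⟩
  choose U hU using h1
  let B : ℕ → ℕ → Prop := fun a a' =>
    ¬ Shows X i (g (2 ^ i + a') + 1) (U a') a (min (g (2 ^ i + a)) (g (2 ^ i + a') + 1))
  have h2 := markov (fun a => cnt (B a) (2 ^ i)) (8 * k) (2 ^ i) (2 ^ i)
  have h3 : (128 * k + 64 * k * k) * ∑ a ∈ Finset.range (2 ^ i), cnt (B a) (2 ^ i) ≤
      2 ^ i * (8 * 2 ^ i) := by
    simp only [cnt_eq_sum]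
    rw [Finset.sum_comm, Finset.mul_sum]
    refine le_trans (Finset.sum_le_card_nsmul _ _ (8 * 2 ^ i) fun a' ha => ?_) (by simp)
    have := fail_le (g := g) (hU a' (Finset.mem_range.1 ha)).2 (h _ _)
    rw [cnt_eq_sum] at this
    convert this
  have h4 := few_top (fun a => g (2 ^ i + a)) k (2 ^ i)
  have h5 : cnt (fun a => ¬ ∃ t u z, Cert b X i a (g (2 ^ i + a)) t u z) (2 ^ i) ≤
      cnt (fun a => k * cnt (fun a' => g (2 ^ i + a) ≤ g (2 ^ i + a')) (2 ^ i) < 2 ^ i) (2 ^ i) +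
      cnt (fun a => 2 ^ i ≤ 8 * k * cnt (B a) (2 ^ i)) (2 ^ i) := cnt_le_add fun a ha hc => by
    by_contra hn
    simp only [not_or, not_lt, not_le] at hn
    have e : cnt (fun a' => g (2 ^ i + a) ≤ z / t ^ a' % t) (2 ^ i) =
        cnt (fun a' => g (2 ^ i + a) ≤ g (2 ^ i + a')) (2 ^ i) :=
      cnt_congr fun a' ha' => by rw [hz a' ha']
    refine hc ⟨t, u, z, he, by have := ht a ha; omega, ?_, fun t' _ u' _ hl => ?_, ?_⟩
    · rw [e]
      refine Nat.pos_of_ne_zero fun h0 => ?_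
      rw [h0] at hn
      omega
    · have := fail_le (g := g) hl (h _ _)
      rw [e, cnt_congr (Q := fun a => ¬ Shows X i t' u' a (min (g (2 ^ i + a)) t'))
        fun a' ha' => by rw [hz a' ha']]
      refine Nat.le_of_mul_le_mul_left ?_ (show 0 < 8 * k by omega)
      nlinarith [Nat.zero_le (k * k * cnt (fun a => ¬ Shows X i t' u' a
        (min (g (2 ^ i + a)) t')) (2 ^ i))]
    · rw [e]
      refine le_trans (Nat.mul_le_mul_left _ (cnt_mono (Q := B a) fun a' ha' h6 h7 => h6 ?_)) ?_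
      · rw [hz a' ha']
        exact ⟨U a', (hU a' ha').1, (hU a' ha').2, h7⟩
      · refine Nat.le_of_mul_le_mul_left ?_ hk
        nlinarith
  have h6 : k * cnt (fun a => 2 ^ i ≤ 8 * k * cnt (B a) (2 ^ i)) (2 ^ i) ≤ 2 ^ i := by
    refine Nat.le_of_mul_le_mul_left ?_ (show 0 < 8 * 2 ^ i by omega)
    have h7 := Nat.mul_le_mul_left (8 * k) h2
    nlinarith [Nat.zero_le (k * ∑ a ∈ Finset.range (2 ^ i), cnt (B a) (2 ^ i))]
  have h7 := Nat.mul_le_mul_left k h5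
  rw [mul_add] at h7
  omega

theorem enc_D1 (hb : ∀ n, ∃ B, ∀ u, b n u ≤ B) {S : Set ℕ} (h : D1 S) :
    D1 {x | Lv b x → nn x ∈ S} := by
  rw [D1_iff_bm] at h ⊢
  intro k
  obtain ⟨i0, h0⟩ := eventually_atTop.1 (h k)
  obtain ⟨j0, hj0⟩ := live_bdd hb i0
  filter_upwards [eventually_ge_atTop j0] with j hj
  obtain ⟨i, t, u, rfl⟩ : ∃ i t u, j = JJ i t u :=
    ⟨j.unpair.1, j.unpair.2.unpair.1, j.unpair.2.unpair.2, by simp [JJ]⟩
  by_cases hl : Live b i t u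
  · have hi : i0 ≤ i := by
      by_contra hi
      have := hj0 i (by omega) t u hl
      omega
    have h1 : bm {x | Lv b x → nn x ∈ S} (JJ i t u) ≤
        cnt (fun p => 2 ^ i + p % 2 ^ i ∉ S ∧ True) (2 ^ JJ i t u) := cnt_mono fun p hp hc =>
      ⟨fun h' => hc fun _ => by rwa [(place (b := b) hp).2.1], trivial⟩
    rw [pow_JJ, cnt_prod (fun a => 2 ^ i + a ∉ S) (fun _ => True),
      cnt_true fun _ _ => trivial] at h1
    have h2 := Nat.mul_le_mul_right (2 ^ (JJ i t u - i)) (h0 i hi)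
    have h3 := Nat.mul_le_mul_left k h1
    rw [pow_JJ]
    unfold bm at h2
    nlinarith
  · rw [bm, cnt_false fun p hp hc => hc fun h' => absurd ((place hp).1.1 h') hl]
    simp

end Pool.Agent.P.MP_106a28_lc
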