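import Pool.Agent.P.MP_106a28_lc.LbB

set_option autoImplicit false

/-! The six reductions between a function below a limit computable bound and its coding set. -/

namespace Pool.Agent.P.MP_106a28_lc

open Filter Set Denumerable

variable {b : ℕ → ℕ → ℕ} {g : ℕ → ℕ} {𝒟 : Set (ℕ → ℕ)} {F G H K L M : (ℕ → ℕ) → ℕ → ℕ}

theorem TR.p2 (hF : TR 𝒟 F) : TR 𝒟 fun d a => 2 ^ F d a := (TR.const 2).pow hF

theorem TR.up (hF : TR 𝒟 F) : TR 𝒟 fun d z => F d z.unpair.1 := hF.comp TR.id.l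

theorem TR.s1 (hF : TR 𝒟 F) : TR 𝒟 fun d a => F d a + 1 := hF.add (TR.const 1)

theorem TRP.En (hb : Computable₂ b) (hF : TR 𝒟 F) (hG : TR 𝒟 G) (hH : TR 𝒟 H) :
    TRP 𝒟 fun d a => En b (F d a) (G d a) (H d a) :=
  TRP.bex (R := fun d a n => G d a ≤ b n (H d a) + 1)
    (TRP.le hG.up (TR.comput2 hb TR.id.r hH.up).s1) hF.s1.p2

theorem TRP.Live (hb : Computable₂ b) (hF : TR 𝒟 F) (hG : TR 𝒟 G) (hH : TR 𝒟 H) :
    TRP 𝒟 fun d a => Live b (F d a) (G d a) (H d a) :=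
  (TRP.En hb hF hG hH).and (TRP.ball (R := fun d a u => ¬ Pool.Agent.P.MP_106a28_lc.En b
    (F d a) (G d a) u) (TRP.En hb hF.up hG.up TR.id.r).not hH)

theorem TR.JJ (hF : TR 𝒟 F) (hG : TR 𝒟 G) (hH : TR 𝒟 H) :
    TR 𝒟 fun d a => JJ (F d a) (G d a) (H d a) := hF.pair (hG.pair hH)

theorem TR.bt (hF : TR 𝒟 F) (hG : TR 𝒟 G) : TR 𝒟 fun d a => bt (F d a) (G d a) :=
  (hF.div hG.p2).mod (TR.const 2)

theorem TRP.Lv (hb : Computable₂ b) (hF : TR 𝒟 F) : TRP 𝒟 fun d a => Lv b (F d a) :=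
  TRP.Live hb hF.lg.l hF.lg.r.l hF.lg.r.r

theorem TR.nn (hF : TR 𝒟 F) : TR 𝒟 fun d a => nn (F d a) :=
  hF.lg.l.p2.add ((hF.sub hF.lg.p2).mod hF.lg.l.p2)

theorem TR.vl (hF : TR 𝒟 F) (hG : TR 𝒟 G) : TR 𝒟 fun d a => vl (F d a) (G d a) :=
  ((hF.sub hF.lg.p2).div hF.lg.l.p2).bt (hG.min hF.lg.r.l)

/-- decidable families of relations -/
def TX (𝒟 : Set (ℕ → ℕ)) (X : (ℕ → ℕ) → ℕ → ℕ → ℕ → Prop) : Prop :=
  ∀ {C F G : (ℕ → ℕ) → ℕ → ℕ}, TR 𝒟 C → TR 𝒟 F → TR 𝒟 G →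
    TRP 𝒟 fun d a => X d (C d a) (F d a) (G d a)

variable {X : (ℕ → ℕ) → ℕ → ℕ → ℕ → Prop} {C N : (ℕ → ℕ) → ℕ → ℕ}

theorem TRP.Shows (hX : TX 𝒟 X) (hC : TR 𝒟 C) (hF : TR 𝒟 F) (hG : TR 𝒟 G) (hH : TR 𝒟 H)
    (hK : TR 𝒟 K) (hL : TR 𝒟 L) :
    TRP 𝒟 fun d a => Shows (X d (C d a)) (F d a) (G d a) (H d a) (K d a) (L d a) := by
  have hJ := TR.JJ hF hG hH
  exact TRP.lt ((TR.const 7).mul (hJ.sub hF).p2) ((TR.const 8).mul (TR.cnt
    (P := fun d a r => X d (C d a) (2 ^ JJ (F d a) (G d a) (H d a) + (K d a + 2 ^ F d a * r))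
      (bt r (L d a)))
    (hX hC.up (hJ.p2.up.add (hK.up.add (hF.p2.up.mul TR.id.r))) (TR.id.r.bt hL.up))
    (hJ.sub hF).p2))

theorem TRP.Cert (hb : Computable₂ b) (hX : TX 𝒟 X) (hC : TR 𝒟 C) (hF : TR 𝒟 F) (hG : TR 𝒟 G)
    (hH : TR 𝒟 H) (hK : TR 𝒟 K) (hL : TR 𝒟 L) (hM : TR 𝒟 M) :
    TRP 𝒟 fun d a => Cert b (X d (C d a)) (F d a) (G d a) (H d a) (K d a) (L d a) (M d a) := by
  have hv : TR 𝒟 fun d z => M d z.unpair.1 / K d z.unpair.1 ^ z.unpair.2 % K d z.unpair.1 :=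
    (hM.up.div (hK.up.pow TR.id.r)).mod hK.up
  have ht := TR.cnt (P := fun d a a' => H d a ≤ M d a / K d a ^ a' % K d a) (TRP.le hH.up hv) hF.p2
  have h1 := TRP.ball (R := fun d a t' => ∀ u' < L d a + 1,
      Pool.Agent.P.MP_106a28_lc.Live b (F d a) t' u' →
      16 * cnt (fun a' => ¬ Pool.Agent.P.MP_106a28_lc.Shows (X d (C d a)) (F d a) t' u' a'
        (min (M d a / K d a ^ a' % K d a) t')) (2 ^ F d a) ≤
      cnt (fun a' => H d a ≤ M d a / K d a ^ a' % K d a) (2 ^ F d a))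
    (TRP.ball (R := fun d z u' => Pool.Agent.P.MP_106a28_lc.Live b (F d z.unpair.1) z.unpair.2 u' →
      16 * cnt (fun a' => ¬ Pool.Agent.P.MP_106a28_lc.Shows (X d (C d z.unpair.1)) (F d z.unpair.1)
        z.unpair.2 u' a' (min (M d z.unpair.1 / K d z.unpair.1 ^ a' % K d z.unpair.1) z.unpair.2))
        (2 ^ F d z.unpair.1) ≤
      cnt (fun a' => H d z.unpair.1 ≤ M d z.unpair.1 / K d z.unpair.1 ^ a' % K d z.unpair.1)
        (2 ^ F d z.unpair.1))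
      ((TRP.Live hb hF.up.up TR.id.l.r TR.id.r).imp (TRP.le ((TR.const 16).mul (TR.cnt
        (P := fun d y a' => ¬ Pool.Agent.P.MP_106a28_lc.Shows (X d (C d y.unpair.1.unpair.1))
          (F d y.unpair.1.unpair.1) y.unpair.1.unpair.2 y.unpair.2 a'
          (min (M d y.unpair.1.unpair.1 / K d y.unpair.1.unpair.1 ^ a' % K d y.unpair.1.unpair.1)
            y.unpair.1.unpair.2))
        (TRP.Shows hX hC.up.up.up hF.up.up.up TR.id.l.l.r TR.id.l.r TR.id.r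
          (((hM.up.up.up.div (hK.up.up.up.pow TR.id.r)).mod hK.up.up.up).min TR.id.l.l.r)).not
        hF.up.up.p2)) ht.up.up)) hL.s1.up) hK.s1
  have h2 := TR.cnt (P := fun d a a' => ¬ ∃ u' < L d a + 1,
      Pool.Agent.P.MP_106a28_lc.Live b (F d a) (M d a / K d a ^ a' % K d a + 1) u' ∧
      Pool.Agent.P.MP_106a28_lc.Shows (X d (C d a)) (F d a) (M d a / K d a ^ a' % K d a + 1) u'
        (G d a) (min (H d a) (M d a / K d a ^ a' % K d a + 1)))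
    (TRP.bex (R := fun d z u' => Pool.Agent.P.MP_106a28_lc.Live b (F d z.unpair.1)
        (M d z.unpair.1 / K d z.unpair.1 ^ z.unpair.2 % K d z.unpair.1 + 1) u' ∧
      Pool.Agent.P.MP_106a28_lc.Shows (X d (C d z.unpair.1)) (F d z.unpair.1)
        (M d z.unpair.1 / K d z.unpair.1 ^ z.unpair.2 % K d z.unpair.1 + 1) u' (G d z.unpair.1)
        (min (H d z.unpair.1) (M d z.unpair.1 / K d z.unpair.1 ^ z.unpair.2 % K d z.unpair.1 + 1)))
      ((TRP.Live hb hF.up.up hv.s1.up TR.id.r).and (TRP.Shows hX hC.up.up hF.up.up hv.s1.up TR.id.r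
        hG.up.up (hH.up.up.min hv.s1.up))) hL.s1.up).not hF.p2
  exact ((TRP.En hb hF hK hL).and ((TRP.lt (TR.const 0) hK).and ((TRP.lt (TR.const 0) ht).and
    (h1.and (TRP.le ((TR.const 8).mul h2) ht))))).congr fun d a =>
    ⟨fun h => ⟨h.1, h.2.1, h.2.2.1, h.2.2.2.1, h.2.2.2.2⟩, fun h => ⟨h.1, h.2, h.3, h.4, h.5⟩⟩

theorem op_ex {W : Op} {d : ℕ →. ℕ}
    (h : ∀ n w w', (n, w) ∈ app W d.graph → (n, w') ∈ app W d.graph → w = w') :
    ∃ e : ℕ →. ℕ, e.graph = app W d.graph :=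
  ⟨fun n => ⟨∃ w, (n, w) ∈ app W d.graph, fun h => h.choose⟩, Set.ext fun p =>
    ⟨fun ⟨h1, h2⟩ => by
      have := h1.choose_spec
      rwa [show h1.choose = p.2 from h2] at this,
    fun hp => have h1 : ∃ w, (p.1, w) ∈ app W d.graph := ⟨p.2, hp⟩
      ⟨h1, h _ _ _ h1.choose_spec hp⟩⟩⟩

theorem gen_of {d e : ℕ →. ℕ} {f : ℕ → ℕ} (hd : Generic d g) (h1 : DenseD d g → DenseD e f)
    (h2 : ∀ n, ∀ v ∈ e n, v = f n) : Generic e f :=
  ⟨(dens1_iff _).2 (((dens1_iff _).1 (h1 ((dens1_iff _).2 (((dens1_iff _).1 hd.1).mono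
    fun n hn => by
      obtain ⟨v, hv⟩ := (PFun.mem_dom _ _).1 hn
      have e := hd.2 n v hv
      subst e
      exact hv)))).mono fun n hn => (PFun.mem_dom _ _).2 ⟨_, hn⟩), h2⟩

theorem enc_op (hb : Computable₂ b) (h1 : ∀ n, ∃ B, ∀ u, b n u ≤ B) :
    UG ((AL b g).indicator 1) g ∧ UD ((AL b g).indicator 1) g := by
  let R : Finset (ℕ × ℕ) → ℕ → ℕ → ℕ → Prop := fun F x β v =>
    (¬ Lv b x ∧ β = 0) ∨ (Lv b x ∧ (nn x, v) ∈ F ∧ β = vl x v)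
  have hW := re_of_TRP R (((TRP.Lv hb TR.id.l.r.l).not.and (TRP.eq TR.id.l.r.r (TR.const 0))).or
    ((TRP.Lv hb TR.id.l.r.l).and ((TRP.memF TR.id.l.l TR.id.l.r.l.nn TR.id.r).and
      (TRP.eq TR.id.l.r.r (TR.id.l.r.l.vl TR.id.r)))))
  have key : ∀ (d : ℕ →. ℕ) x β, (x, β) ∈ app {p | ∃ z, R p.1 p.2.1 p.2.2 z} d.graph ↔
      (¬ Lv b x ∧ β = 0) ∨ (Lv b x ∧ ∃ v ∈ d (nn x), β = vl x v) := fun d x β =>
    ⟨fun ⟨F, ⟨v, h⟩, hF⟩ => h.imp id fun h => ⟨h.1, v, hF h.2.1, h.2.2⟩, fun h => h.elim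
      (fun h => ⟨∅, ⟨0, Or.inl h⟩, by simp⟩) fun ⟨h, v, h2, h3⟩ =>
        ⟨{(nn x, v)}, ⟨v, Or.inr ⟨h, by simp, h3⟩⟩, by
          rw [Finset.coe_singleton]
          exact Set.singleton_subset_iff.2 h2⟩⟩
  have main : ∀ d : ℕ →. ℕ, ∃ e : ℕ →. ℕ, e.graph = app {p | ∃ z, R p.1 p.2.1 p.2.2 z} d.graph ∧
      (DenseD d g → DenseD e ((AL b g).indicator 1)) ∧
      ((∀ n, ∀ v ∈ d n, v = g n) → ∀ x, ∀ β ∈ e x, β = (AL b g).indicator 1 x) := fun d => by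
    obtain ⟨e, he⟩ := op_ex (W := {p | ∃ z, R p.1 p.2.1 p.2.2 z}) (d := d) fun x β β' h h' => by
      rcases (key d _ _).1 h with a1 | ⟨a1, v, h2, e1⟩ <;>
        rcases (key d _ _).1 h' with a2 | ⟨a2, v', h2', e2⟩
      exacts [a1.2.trans a2.2.symm, absurd a2 a1.1, absurd a1 a2.1,
        by rw [e1, e2, Part.mem_unique h2 h2']]
    have k2 : ∀ x β, β ∈ e x ↔ _ := fun x β => (Set.ext_iff.1 he (x, β)).trans (key d x β)
    refine ⟨e, he, fun hd => (dens1_iff _).2 ((enc_D1 h1 ((dens1_iff _).1 hd)).mono fun x hx => ?_),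
      fun hd x β hβ => ?_⟩
    · refine (k2 _ _).2 ?_
      rw [ind_AL]
      by_cases h : Lv b x
      · exact Or.inr ⟨h, _, hx h, if_pos h⟩
      · exact Or.inl ⟨h, if_neg h⟩
    · rw [ind_AL]
      rcases (k2 _ _).1 hβ with h | ⟨h, v, h2, rfl⟩
      · rw [if_neg h.1, h.2]
      · rw [if_pos h, hd _ _ h2]
  exact ⟨⟨_, hW, fun d hd => let ⟨e, e1, e2, e3⟩ := main d; ⟨e, gen_of hd e2 (e3 hd.2), e1⟩⟩,
    ⟨_, hW, fun d hd => let ⟨e, e1, e2, _⟩ := main d; ⟨e, e2 hd, e1⟩⟩⟩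

theorem cert_full (hg : ∀ n, ∃ u, g n ≤ b n u) {i a : ℕ} (ha : a < 2 ^ i) :
    ∃ t u z, Cert b (fun x β => β = (AL b g).indicator 1 x) i a (g (2 ^ i + a)) t u z := by
  have h := cert_many (X := fun x β => β = (AL b g).indicator 1 x) (i := i) hg
    (k := 2 * 2 ^ i + 1) (by omega) fun t u => by
      rw [bm, cnt_false fun p _ h => h rfl]
      simp
  by_contra hc
  have := (cnt_pos (P := fun a => ¬ ∃ t u z, Cert b (fun x β => β = (AL b g).indicator 1 x) i a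
    (g (2 ^ i + a)) t u z)).2 ⟨a, ha, hc⟩
  nlinarith

theorem sv_full (f : ℕ → ℕ) : SV fun x β => β = f x := fun _ _ _ h h' => h.trans h'.symm

theorem dec_op (hb : Computable₂ b) (hg : ∀ n, ∃ u, g n ≤ b n u) :
    UG g ((AL b g).indicator 1) ∧ UD g ((AL b g).indicator 1) := by
  classical
  let R : Finset (ℕ × ℕ) → ℕ → ℕ → ℕ → Prop := fun F n w z => 2 ≤ lg n ∧
    Cert b (fun x β => (x, β) ∈ F) (lg n) (n - 2 ^ lg n) w z.unpair.1 z.unpair.2.unpair.1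
      z.unpair.2.unpair.2
  have hW := re_of_TRP R ((TRP.le (TR.const 2) TR.id.l.r.l.lg).and
    (TRP.Cert (X := fun _ c x β => (x, β) ∈ ofNat (Finset (ℕ × ℕ)) c) hb
      (fun h1 h2 h3 => TRP.memF h1 h2 h3) TR.id.l.l TR.id.l.r.l.lg
      (TR.id.l.r.l.sub TR.id.l.r.l.lg.p2) TR.id.l.r.r TR.id.r.l TR.id.r.r.l TR.id.r.r.r))
  have key : ∀ (d : ℕ →. ℕ) n w, (n, w) ∈ app {p | ∃ z, R p.1 p.2.1 p.2.2 z} d.graph ↔
      2 ≤ lg n ∧ ∃ t u z, Cert b (fun x β => β ∈ d x) (lg n) (n - 2 ^ lg n) w t u z := fun d n w =>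
    ⟨fun ⟨F, ⟨z, h1, h2⟩, hF⟩ => ⟨h1, _, _, _, h2.mono fun x β _ _ h => hF h⟩,
      fun ⟨h1, t, u, z, h2⟩ => ⟨(Finset.range (3 * 2 ^ JJ (lg n) t u + (n - 2 ^ lg n)) ×ˢ
        Finset.range 2).filter (· ∈ d.graph), ⟨Nat.pair t (Nat.pair u z), h1, by
          simp only [Nat.unpair_pair]
          exact h2.mono fun x β h3 h4 h5 => Finset.mem_filter.2
            ⟨Finset.mem_product.2 ⟨Finset.mem_range.2 h3, Finset.mem_range.2 h4⟩, h5⟩⟩,
        fun p hp => (Finset.mem_filter.1 hp).2⟩⟩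
  have main : ∀ d : ℕ →. ℕ, ∃ e : ℕ →. ℕ, e.graph = app {p | ∃ z, R p.1 p.2.1 p.2.2 z} d.graph ∧
      (DenseD d ((AL b g).indicator 1) → DenseD e g) ∧
      ((∀ x, ∀ β ∈ d x, β = (AL b g).indicator 1 x) → ∀ n, ∀ v ∈ e n, v = g n) := fun d => by
    obtain ⟨e, he⟩ := op_ex (W := {p | ∃ z, R p.1 p.2.1 p.2.2 z}) (d := d) fun n w w' h h' => by
      obtain ⟨h1, t, u, z, h2⟩ := (key d _ _).1 h
      obtain ⟨-, t', u', z', h3⟩ := (key d _ _).1 h'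
      exact Cert.unique (X := fun x β => β ∈ d x) (fun _ _ _ k k' => Part.mem_unique k k') h1 h2 h3
    have k2 : ∀ n w, w ∈ e n ↔ _ := fun n w => (Set.ext_iff.1 he (n, w)).trans (key d n w)
    refine ⟨e, he, fun hd => ?_, fun hd n w hw => ?_⟩
    · unfold DenseD at hd ⊢
      rw [dens1_iff, D1_iff_bm] at hd ⊢
      intro k
      obtain ⟨j0, h0⟩ := eventually_atTop.1
        (hd (128 * (2 * k + 1) + 64 * (2 * k + 1) * (2 * k + 1)))
      filter_upwards [eventually_ge_atTop j0, eventually_ge_atTop 2] with i hi hi2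
      have h1 := cert_many (X := fun x β => β ∈ d x) (i := i) hg (k := 2 * k + 1) (by omega)
        fun t u => h0 _ (hi.trans (le_JJ i t u))
      have h2 : bm {n | g n ∈ e n} i ≤ cnt (fun a => ¬ ∃ t u z,
          Cert b (fun x β => β ∈ d x) i a (g (2 ^ i + a)) t u z) (2 ^ i) :=
        cnt_mono fun a ha h h' => h ((k2 _ _).2 (by
          rw [lg_block ha, Nat.add_sub_cancel_left]
          exact ⟨hi2, h'⟩))
      nlinarith
    · obtain ⟨h1, t, u, z, h2⟩ := (k2 _ _).1 hw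
      obtain ⟨a, ha, hn⟩ := lg_spec (n := n) (by omega)
      obtain ⟨t', u', z', h3⟩ := cert_full hg ha
      rw [← hn] at h3
      rw [show n - 2 ^ lg n = a by omega] at h2
      exact (h2.mono fun x β _ _ h => hd x β h).unique (sv_full _) h1 h3
  exact ⟨⟨_, hW, fun d hd => let ⟨e, e1, e2, e3⟩ := main d; ⟨e, gen_of hd e2 (e3 hd.2), e1⟩⟩,
    ⟨_, hW, fun d hd => let ⟨e, e1, e2, _⟩ := main d; ⟨e, e2 hd, e1⟩⟩⟩

theorem enc_ued (hb : Computable₂ b) (h1 : ∀ n, ∃ B, ∀ u, b n u ≤ B) :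
    UED ((AL b g).indicator 1) g := by
  refine TR.ued (TR.ite (TRP.Lv hb TR.id) (TR.ite (TRP.eq TR.id.nn.orc (TR.const 0)) (TR.const 0)
    (TR.id.vl (TR.id.nn.orc.sub (TR.const 1))).s1) (TR.const 1)) fun c hc =>
    ⟨fun x v hv => ?_, (enc_D1 h1 hc.2).mono fun x hx => ?_⟩
  · rw [ind_AL]
    by_cases h : Lv b x
    · by_cases h' : c (nn x) = 0
      · simp [h, h'] at hv
      · rw [← hc.1 (nn x) (c (nn x) - 1) (by omega)]
        simpa [h, h', eq_comm] using hv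
    · simpa [h, eq_comm] using hv
  · by_cases h : Lv b x
    · have h' : c (nn x) ≠ 0 := hx h
      simp [h, h']
    · simp [h]

theorem shows_true {c : ℕ → ℕ} (hc : ED c ((AL b g).indicator 1)) {i t u a s : ℕ} (hi : 2 ≤ i)
    (hl : Live b i t u) (ha : a < 2 ^ i) (hs : s ≤ t)
    (h : Shows (fun x β => c x = β + 1) i t u a s) : s = min (g (2 ^ i + a)) t := by
  refine Shows.unique (sv_full ((AL b g).indicator 1)) hi hs (min_le_right _ _)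
    (h.mono fun x β _ _ h => hc.1 x β h) ?_
  unfold Shows
  rw [cnt_true fun r hr => (ind_row hl ha hr).symm]
  have := Nat.two_pow_pos (JJ i t u - i)
  omega

/-- a live block in which no row shows the top symbol -/
noncomputable def zz (b : ℕ → ℕ → ℕ) (c : ℕ → ℕ) (i : ℕ) : ℕ :=
  sInf {z | i < 2 ∨ (Live b i z.unpair.1 z.unpair.2 ∧
    ∀ a < 2 ^ i, ¬ Shows (fun x β => c x = β + 1) i z.unpair.1 z.unpair.2 a z.unpair.1)}

/-- the symbol shown by a row -/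
noncomputable def ss (c : ℕ → ℕ) (i z a : ℕ) : ℕ :=
  sInf {s | z.unpair.1 ≤ s ∨ Shows (fun x β => c x = β + 1) i z.unpair.1 z.unpair.2 a s}

theorem zz_ex (hg : ∀ n, ∃ u, g n ≤ b n u) {c : ℕ → ℕ} (hc : ED c ((AL b g).indicator 1)) (i : ℕ) :
    ∃ z : ℕ, i < 2 ∨ (Live b i z.unpair.1 z.unpair.2 ∧
      ∀ a < 2 ^ i, ¬ Shows (fun x β => c x = β + 1) i z.unpair.1 z.unpair.2 a z.unpair.1) := by
  obtain ⟨t, u, h1, h2⟩ := top_en hg i
  obtain ⟨u', -, h3⟩ := h1.live le_rfl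
  refine ⟨Nat.pair t u', (lt_or_ge i 2).imp id fun hi => ?_⟩
  simp only [Nat.unpair_pair]
  refine ⟨h3, fun a ha h => ?_⟩
  have := shows_true hc hi h3 ha le_rfl h
  have := h2 a ha
  omega

theorem dec_ued (hb : Computable₂ b) (hg : ∀ n, ∃ u, g n ≤ b n u) :
    UED g ((AL b g).indicator 1) := by
  have hX : TX {c | ED c ((AL b g).indicator 1)} fun c _ x β => c x = β + 1 :=
    fun _ h2 h3 => TRP.eq h2.orc h3.s1
  have hz : TR {c | ED c ((AL b g).indicator 1)} fun c n => zz b c (lg n) :=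
    TR.find (P := fun c n z => lg n < 2 ∨ (Live b (lg n) z.unpair.1 z.unpair.2 ∧ ∀ a < 2 ^ lg n,
      ¬ Shows (fun x β => c x = β + 1) (lg n) z.unpair.1 z.unpair.2 a z.unpair.1))
      ((TRP.lt TR.id.l.lg (TR.const 2)).or ((TRP.Live hb TR.id.l.lg TR.id.r.l TR.id.r.r).and
        (TRP.ball (R := fun c y a => ¬ Shows (fun x β => c x = β + 1) (lg y.unpair.1)
          y.unpair.2.unpair.1 y.unpair.2.unpair.2 a y.unpair.2.unpair.1)
          (TRP.Shows hX TR.id TR.id.l.l.lg TR.id.l.r.l TR.id.l.r.r TR.id.r TR.id.l.r.l).not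
          TR.id.l.lg.p2)))
      fun c hc n => zz_ex hg hc _
  have hs : TR {c | ED c ((AL b g).indicator 1)} fun c n =>
      ss c (lg n) (zz b c (lg n)) (n - 2 ^ lg n) :=
    TR.find (P := fun c n s => (zz b c (lg n)).unpair.1 ≤ s ∨ Shows (fun x β => c x = β + 1) (lg n)
      (zz b c (lg n)).unpair.1 (zz b c (lg n)).unpair.2 (n - 2 ^ lg n) s)
      ((TRP.le hz.l.up TR.id.r).or (TRP.Shows hX TR.id TR.id.l.lg hz.l.up hz.r.up
        (TR.id.sub TR.id.lg.p2).up TR.id.r))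
      fun c _ n => ⟨_, Or.inl le_rfl⟩
  refine TR.ued (TR.ite ((TRP.lt TR.id.lg (TR.const 2)).or (TRP.le hz.l hs)) (TR.const 0) hs.s1)
    fun c hc => ?_
  have k1 : ∀ i, 2 ≤ i → Live b i (zz b c i).unpair.1 (zz b c i).unpair.2 ∧ ∀ a < 2 ^ i,
      ¬ Shows (fun x β => c x = β + 1) i (zz b c i).unpair.1 (zz b c i).unpair.2 a
        (zz b c i).unpair.1 := fun i hi =>
    (Nat.sInf_mem (zz_ex hg hc i)).resolve_left (by omega)
  refine ⟨fun n v hv => ?_, ?_⟩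
  · beta_reduce at hv
    split_ifs at hv with h
    rw [not_or, not_lt, not_le] at h
    obtain ⟨a, ha, hn⟩ := lg_spec (n := n) (by omega)
    rw [show n - 2 ^ lg n = a by omega] at h hv
    have h1 := (Nat.sInf_mem (s := {s | (zz b c (lg n)).unpair.1 ≤ s ∨
      Shows (fun x β => c x = β + 1) (lg n) (zz b c (lg n)).unpair.1 (zz b c (lg n)).unpair.2 a s})
      ⟨_, Or.inl le_rfl⟩).resolve_left (not_le.2 h.2)
    have h2 : ss c (lg n) (zz b c (lg n)) a = _ := shows_true hc h.1 (k1 _ h.1).1 ha h.2.le h1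
    rw [← hn] at h2
    omega
  · have hd := hc.2
    rw [D1_iff_bm] at hd ⊢
    intro k
    obtain ⟨j0, h0⟩ := eventually_atTop.1 (hd (8 * k))
    filter_upwards [eventually_ge_atTop j0, eventually_ge_atTop 2] with i hi hi2
    obtain ⟨h1, h2⟩ := k1 i hi2
    have h6 : ∀ j, bm {x | c x = (AL b g).indicator 1 x + 1} j ≤ bm {n | c n ≠ 0} j := fun j => by
      unfold bm
      refine cnt_mono fun p _ h h' => h ?_
      obtain ⟨v, hv⟩ := Nat.exists_eq_succ_of_ne_zero (show c (2 ^ j + p) ≠ 0 from h')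
      exact hv.trans (congrArg (· + 1) (hc.1 _ v hv))
    have h3 := fail_le (X := fun x β => c x = β + 1) (g := g) h1 (K := 8 * k)
      (le_trans (Nat.mul_le_mul_left _ (h6 _)) (h0 _ (hi.trans (le_JJ i _ _))))
    refine Nat.le_of_mul_le_mul_left (le_trans ?_ h3) (show 0 < 8 by omega)
    rw [← mul_assoc]
    refine Nat.mul_le_mul_left _ (cnt_mono fun a ha h h' => h ?_)
    have h4 : min (g (2 ^ i + a)) (zz b c i).unpair.1 ≠ (zz b c i).unpair.1 := fun e =>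
      h2 a ha (by have h7 := h'; rwa [e] at h7)
    have h5 : ss c i (zz b c i) a ≤ min (g (2 ^ i + a)) (zz b c i).unpair.1 :=
      Nat.sInf_le (Or.inr h')
    simp only [mem_ofPred_eq, lg_block ha, Nat.add_sub_cancel_left]
    rw [if_neg (by omega)]
    omega

theorem lim_main (g h : ℕ → ℕ) (b : ℕ → ℕ → ℕ) (hb : Computable₂ b)
    (hl : ∀ n, ∀ᶠ s in atTop, b n s = h n) (hg : ∀ n, g n ≤ h n) :
    ∃ A : Set ℕ, (UED (A.indicator 1) g ∧ UED g (A.indicator 1)) ∧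
      (UG (A.indicator 1) g ∧ UG g (A.indicator 1)) ∧
      (UD (A.indicator 1) g ∧ UD g (A.indicator 1)) := by
  have h1 : ∀ n, ∃ B, ∀ u, b n u ≤ B := fun n => by
    obtain ⟨s, hs⟩ := eventually_atTop.1 (hl n)
    refine ⟨(Finset.range s).sup (b n) + h n, fun u => ?_⟩
    by_cases hu : u < s
    · exact le_add_right (Finset.le_sup (f := b n) (Finset.mem_range.2 hu))
    · rw [hs u (by omega)]
      omega
  have h2 : ∀ n, ∃ u, g n ≤ b n u := fun n => let ⟨u, hu⟩ := (hl n).exists; ⟨u, hu ▸ hg n⟩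
  exact ⟨AL b g, ⟨enc_ued hb h1, dec_ued hb h2⟩, ⟨(enc_op hb h1).1, (dec_op hb h2).1⟩,
    (enc_op hb h1).2, (dec_op hb h2).2⟩

end Pool.Agent.P.MP_106a28_lc
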