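import Pool.Agent.P.MP_106a28_lc.Neg

set_option autoImplicit false

namespace Pool.Agent.P.MP_106a28_lc

open Filter Topology Set

theorem exists_ocode {d f : ℕ →. ℕ} (h : Nat.RecursiveIn {d} f) : ∃ c : OCode, c.eval d = f := by
  induction h with
  | zero => exact ⟨.zero, rfl⟩
  | succ => exact ⟨.succ, rfl⟩
  | left => exact ⟨.left, rfl⟩
  | right => exact ⟨.right, rfl⟩
  | oracle g hg => exact ⟨.oracle, (mem_singleton_iff.1 hg).symm⟩
  | pair _ _ ih1 ih2 =>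
    obtain ⟨a, rfl⟩ := ih1
    obtain ⟨b, rfl⟩ := ih2
    exact ⟨.pair a b, by funext n; simp [OCode.eval, Seq.seq, Part.bind_map]⟩
  | comp _ _ ih1 ih2 =>
    obtain ⟨a, rfl⟩ := ih1
    obtain ⟨b, rfl⟩ := ih2
    exact ⟨.comp a b, rfl⟩
  | prec _ _ ih1 ih2 =>
    obtain ⟨a, rfl⟩ := ih1
    obtain ⟨b, rfl⟩ := ih2
    exact ⟨.prec a b, rfl⟩
  | rfind _ ih =>
    obtain ⟨a, rfl⟩ := ih
    exact ⟨.rfind a, rfl⟩

theorem ocode_rec (d : ℕ →. ℕ) (c : OCode) : Nat.RecursiveIn {d} (c.eval d) := by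
  induction c with
  | zero => exact .zero
  | succ => exact .succ
  | left => exact .left
  | right => exact .right
  | oracle => exact .oracle _ rfl
  | pair a b ih1 ih2 =>
    exact (Nat.RecursiveIn.pair ih1 ih2).of_eq fun n => by
      simp [OCode.eval, Seq.seq, Part.bind_map]
  | comp a b ih1 ih2 => exact .comp ih1 ih2
  | prec a b ih1 ih2 => exact .prec ih1 ih2
  | rfind a ih => exact .rfind ih

theorem ocode_red (d : ℕ →. ℕ) (c : OCode) : TuringReducible (c.eval d) d :=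
  RecursiveIn.iff_nat.2 (ocode_rec d c)

theorem ocode_use (c : OCode) (σ : ℕ → ℕ) : ∀ n x, x ∈ c.eval (σ : ℕ →. ℕ) n →
    ∃ L, ∀ σ' : ℕ → ℕ, (∀ m < L, σ' m = σ m) → x ∈ c.eval (σ' : ℕ →. ℕ) n := by
  induction c with
  | zero => exact fun n x h => ⟨0, fun _ _ => h⟩
  | succ => exact fun n x h => ⟨0, fun _ _ => h⟩
  | left => exact fun n x h => ⟨0, fun _ _ => h⟩
  | right => exact fun n x h => ⟨0, fun _ _ => h⟩
  | oracle =>
    refine fun n x h => ⟨n + 1, fun σ' h' => ?_⟩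
    simp only [OCode.eval, PFun.coe_val, Part.mem_some_iff] at h ⊢
    rw [h, h' n (by omega)]
  | pair a b ih1 ih2 =>
    intro n x h
    simp only [OCode.eval, Part.mem_bind_iff, Part.mem_map_iff] at h ⊢
    obtain ⟨u, hu, v, hv, e⟩ := h
    obtain ⟨L1, h1⟩ := ih1 n u hu
    obtain ⟨L2, h2⟩ := ih2 n v hv
    exact ⟨L1 + L2, fun σ' h' => ⟨u, h1 σ' fun m hm => h' m (by omega), v,
      h2 σ' fun m hm => h' m (by omega), e⟩⟩
  | comp a b ih1 ih2 =>
    intro n x h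
    obtain ⟨u, hu, hv⟩ := Part.mem_bind_iff.1 h
    obtain ⟨L1, h1⟩ := ih2 n u hu
    obtain ⟨L2, h2⟩ := ih1 u x hv
    exact ⟨L1 + L2, fun σ' h' => Part.mem_bind_iff.2 ⟨u, h1 σ' fun m hm => h' m (by omega),
      h2 σ' fun m hm => h' m (by omega)⟩⟩
  | prec a b ih1 ih2 =>
    intro n
    simp only [OCode.eval]
    generalize (Nat.unpair n).1 = u
    generalize (Nat.unpair n).2 = y
    induction y with
    | zero => exact ih1 u
    | succ y ih =>
      intro x h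
      simp only [Part.mem_bind_iff] at h ⊢
      obtain ⟨i, hi, hv⟩ := h
      obtain ⟨L1, h1⟩ := ih i hi
      obtain ⟨L2, h2⟩ := ih2 _ x hv
      exact ⟨L1 + L2, fun σ' h' => ⟨i, h1 σ' fun m hm => h' m (by omega),
        h2 σ' fun m hm => h' m (by omega)⟩⟩
  | rfind a ih =>
    intro n x h
    have key : ∀ σ : ℕ → ℕ, x ∈ (OCode.rfind a).eval (σ : ℕ →. ℕ) n ↔
        (∃ u ∈ a.eval (σ : ℕ →. ℕ) (Nat.pair n x), decide (u = 0) = true) ∧
        ∀ {m}, m < x → ∃ u ∈ a.eval (σ : ℕ →. ℕ) (Nat.pair n m), decide (u = 0) = false := by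
      intro σ
      refine Nat.mem_rfind.trans ?_
      simp only [Part.mem_map_iff]
    simp only [key] at h ⊢
    obtain ⟨⟨u, hu, e⟩, h2⟩ := h
    obtain ⟨L1, h1⟩ := ih _ u hu
    have : ∀ m, ∃ L, m < x → ∀ σ' : ℕ → ℕ, (∀ m < L, σ' m = σ m) →
        ∃ w ∈ a.eval (σ' : ℕ →. ℕ) (Nat.pair n m), decide (w = 0) = false := by
      intro m
      by_cases hm : m < x
      · obtain ⟨w, hw, e'⟩ := h2 hm
        obtain ⟨L, hL⟩ := ih _ w hw
        exact ⟨L, fun _ σ' h' => ⟨w, hL σ' h', e'⟩⟩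
      · exact ⟨0, fun h => absurd h hm⟩
    choose L hL using this
    refine ⟨L1 + (Finset.range x).sup L, fun σ' h' => ⟨⟨u, h1 σ' fun m hm => h' m (by omega), e⟩,
      fun {m} hm => hL m hm σ' fun m' hm' => h' m' ?_⟩⟩
    have : L m ≤ (Finset.range x).sup L := Finset.le_sup (Finset.mem_range.2 hm)
    omega

/-- numbering of programs -/
def OCode.num : OCode → ℕ
  | .zero => Nat.pair 0 0
  | .succ => Nat.pair 1 0
  | .left => Nat.pair 2 0
  | .right => Nat.pair 3 0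
  | .oracle => Nat.pair 4 0
  | .pair a b => Nat.pair 5 (Nat.pair a.num b.num)
  | .comp a b => Nat.pair 6 (Nat.pair a.num b.num)
  | .prec a b => Nat.pair 7 (Nat.pair a.num b.num)
  | .rfind a => Nat.pair 8 a.num

theorem OCode.num_inj : ∀ a b : OCode, a.num = b.num → a = b := by
  intro a
  induction a with
  | pair a1 a2 ih1 ih2 =>
    intro b h
    cases b <;> simp [OCode.num] at h
    rw [ih1 _ h.1, ih2 _ h.2]
  | comp a1 a2 ih1 ih2 =>
    intro b h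
    cases b <;> simp [OCode.num] at h
    rw [ih1 _ h.1, ih2 _ h.2]
  | prec a1 a2 ih1 ih2 =>
    intro b h
    cases b <;> simp [OCode.num] at h
    rw [ih1 _ h.1, ih2 _ h.2]
  | rfind a1 ih =>
    intro b h
    cases b <;> simp [OCode.num] at h
    rw [ih _ h]
  | _ =>
    intro b h
    cases b <;> simp [OCode.num] at h ⊢

instance : Countable OCode := Function.Injective.countable OCode.num_inj

/-- Turing functionals -/
def ΦT (c : OCode) : Fnl where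
  rel σ n v := v + 1 ∈ c.eval (σ : ℕ →. ℕ) n
  cont σ n v h := ocode_use c σ n (v + 1) h

/-- the code of an instruction -/
def enc (a : Finset (ℕ × ℕ) × (ℕ × ℕ)) : ℕ := @Encodable.encode _ Primcodable.toEncodable a

/-- enumeration operators -/
def ΦE (c : Nat.Partrec.Code) : Fnl where
  rel σ n v := (n, v) ∈ app {a | (c.eval (enc a)).Dom} {p | σ p.1 = p.2 + 1}
  cont σ n v := by
    rintro ⟨F, h1, h2⟩
    refine ⟨F.sup Prod.fst + 1, fun σ' h' => ⟨F, h1, fun p hp => ?_⟩⟩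
    have : p.1 ≤ F.sup Prod.fst := Finset.le_sup (f := Prod.fst) hp
    have h3 := h2 hp
    simp only [mem_ofPred_eq] at h3 ⊢
    rw [h' _ (by omega), h3]

theorem re_code {W : Op} (h : REPred (· ∈ W)) :
    ∃ c : Nat.Partrec.Code, W = {a | (c.eval (enc a)).Dom} := by
  obtain ⟨c, hc⟩ := Nat.Partrec.Code.exists_code.1 h
  refine ⟨c, ?_⟩
  ext a
  simp only [hc, enc, Encodable.encodek, mem_ofPred_eq]
  simp [Part.assert]

/-- restriction to `Y` -/
def restr (b : ℕ → ℕ) (Y : ℕ → Bool) : ℕ →. ℕ := fun m => ⟨Y m = true, fun _ => b m⟩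

theorem mem_restr {b : ℕ → ℕ} {Y : ℕ → Bool} {m v : ℕ} :
    v ∈ restr b Y m ↔ Y m = true ∧ b m = v := by
  simp [restr, Part.mem_eq]

theorem graph_restr (b : ℕ → ℕ) (Y : ℕ → Bool) :
    (restr b Y).graph = {p | cd b Y p.1 = p.2 + 1} := by
  ext p
  simp only [PFun.graph, mem_restr, cd, mem_ofPred_eq]
  by_cases h : Y p.1 = true <;> simp [h]

theorem NG.red {f g : ℕ → ℕ} (h : NG f g) : RedW ΦE f g := by
  intro Y hY
  obtain ⟨e, ⟨h1, h2⟩, W, hW, he⟩ := h (restr g Y)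
    ⟨(dens1_iff _).2 hY, fun n v hv => (mem_restr.1 hv).2.symm⟩
  obtain ⟨c, rfl⟩ := re_code hW
  have key : ∀ n v, (ΦE c).rel (cd g Y) n v ↔ v ∈ e n := fun n v => by
    simp only [ΦE]
    rw [← graph_restr, ← he]; rfl
  refine ⟨c, fun ⟨n, v, h3, h4⟩ => h4 (h2 n v ((key n v).1 h3)),
    ((dens1_iff _).1 h1).mono fun n hn => (key n _).2 ?_⟩
  obtain ⟨v, hv⟩ := (PFun.mem_dom _ _).1 hn
  rwa [← h2 n v hv]

theorem ND.red {f g : ℕ → ℕ} (h : ND f g) : RedM ΦE f g := by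
  intro b Y hY hb
  obtain ⟨e, h1, W, hW, he⟩ := h (restr b Y)
    ((dens1_iff _).2 ((hY.inter hb).mono fun n hn => mem_restr.2 hn))
  obtain ⟨c, rfl⟩ := re_code hW
  have key : ∀ n v, (ΦE c).rel (cd b Y) n v ↔ v ∈ e n := fun n v => by
    simp only [ΦE]
    rw [← graph_restr, ← he]; rfl
  exact ⟨c, fun ⟨n, v, v', h3, h4, h5⟩ => h5 (Part.mem_unique ((key _ _).1 h3) ((key _ _).1 h4)),
    ((dens1_iff _).1 h1).mono fun n hn => (key n _).2 hn⟩

theorem NED.red {f g : ℕ → ℕ} (h : NED f g) : RedW ΦT f g := by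
  intro Y hY
  obtain ⟨e, ⟨h1, h2⟩, he⟩ := h (fun m => if Y m then some (g m) else none)
    ⟨fun n v hv => by
      by_cases h : Y n = true
      · simp only [h, if_true, Option.some.injEq] at hv; exact hv.symm
      · simp [h] at hv,
     (dens1_iff _).2 (hY.mono fun n hn => by simpa using hn)⟩
  obtain ⟨c, hc⟩ := exists_ocode (RecursiveIn.iff_nat.1 he)
  have e1 : code (fun m => if Y m then some (g m) else none) = (cd g Y : ℕ →. ℕ) := by
    funext m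
    by_cases h : Y m = true <;> simp [code, cd, h]
  have key : ∀ n v, (ΦT c).rel (cd g Y) n v ↔ e n = some v := fun n v => by
    simp only [ΦT]
    rw [← e1, hc]
    cases h : e n <;> simp [code, h, eq_comm]
  refine ⟨c, fun ⟨n, v, h3, h4⟩ => h4 (h1 n v ((key n v).1 h3)),
    ((dens1_iff _).1 h2).mono fun n hn => (key n _).2 ?_⟩
  obtain ⟨v, hv⟩ := Option.ne_none_iff_exists'.1 hn
  rw [hv, h1 n v hv]

theorem UG.ng {f g : ℕ → ℕ} (h : UG f g) : NG f g := fun d hd =>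
  let ⟨W, hW, h⟩ := h
  let ⟨e, h1, h2⟩ := h d hd
  ⟨e, h1, W, hW, h2⟩

theorem UD.nd {f g : ℕ → ℕ} (h : UD f g) : ND f g := fun d hd =>
  let ⟨W, hW, h⟩ := h
  let ⟨e, h1, h2⟩ := h d hd
  ⟨e, h1, W, hW, h2⟩

theorem UED.ned {f g : ℕ → ℕ} (h : UED f g) : NED f g := fun d hd =>
  let ⟨c, h⟩ := h
  let ⟨e, h1, h2⟩ := h d hd
  ⟨e, h1, h2 ▸ ocode_red _ c⟩

theorem UC.nc {f g : ℕ → ℕ} (h : UC f g) : NC f g := fun d hd =>
  let ⟨c, h⟩ := h
  let ⟨e, h1, h2⟩ := h d hd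
  ⟨e, h1, h2 ▸ ocode_red _ c⟩

theorem ind01 (A : Set ℕ) (m : ℕ) :
    A.indicator (1 : ℕ → ℕ) m = 0 ∨ A.indicator (1 : ℕ → ℕ) m = 1 := by
  by_cases h : m ∈ A <;> simp [h]

/-- the set of functions which are equivalent to no set is comeager -/
theorem neg_all : ∀ᶠ g in residual (ℕ → ℕ), ∀ A : Set ℕ,
    ¬ (NED (A.indicator 1) g ∧ NED g (A.indicator 1)) ∧
    ¬ (NG (A.indicator 1) g ∧ NG g (A.indicator 1)) ∧
    ¬ (ND (A.indicator 1) g ∧ ND g (A.indicator 1)) := by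
  have : Nonempty OCode := ⟨.zero⟩
  filter_upwards [negW ΦT, negW ΦE, negM ΦE (fun c b Y Y' n v hY h => app_mono _ (fun p hp => by
    simp only [cd, mem_ofPred_eq] at hp ⊢
    by_cases h' : Y p.1 = true
    · simpa [h', hY _ h'] using hp
    · simp [h'] at hp) h)] with g h1 h2 h3 A
  exact ⟨fun h => h1 _ (ind01 A) ⟨h.1.red, h.2.red⟩, fun h => h2 _ (ind01 A) ⟨h.1.red, h.2.red⟩,
    fun h => h3 _ (ind01 A) ⟨h.1.red, h.2.red⟩⟩

theorem neg_six : ¬ AllSets NED ∧ ¬ AllSets UED ∧ ¬ AllSets NG ∧ ¬ AllSets UG ∧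
    ¬ AllSets ND ∧ ¬ AllSets UD := by
  obtain ⟨g, hg⟩ := (dense_of_mem_residual neg_all).nonempty
  refine ⟨fun h => ?_, fun h => ?_, fun h => ?_, fun h => ?_, fun h => ?_, fun h => ?_⟩ <;>
    obtain ⟨A, h1, h2⟩ := h g
  · exact (hg A).1 ⟨h1, h2⟩
  · exact (hg A).1 ⟨h1.ned, h2.ned⟩
  · exact (hg A).2.1 ⟨h1, h2⟩
  · exact (hg A).2.1 ⟨h1.ng, h2.ng⟩
  · exact (hg A).2.2 ⟨h1, h2⟩
  · exact (hg A).2.2 ⟨h1.nd, h2.nd⟩

end Pool.Agent.P.MP_106a28_lc
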