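import Pool.Agent.P.MP_106a28_lc.Core

set_option autoImplicit false

namespace Pool.Agent.P.MP_106a28_lc

open Filter Topology Set

/-- admissible domains -/
def Adm (Z0 : Finset ℕ) (q k : ℕ) : Set (ℕ → Bool) :=
  {Y | ∀ x, (x ∈ Z0 → Y x = false) ∧ (Y x = false → x ∈ Z0 ∨ (k ≤ x ∧ q ∣ x))}

theorem isClosed_Adm (Z0 : Finset ℕ) (q k : ℕ) : IsClosed (Adm Z0 q k) := by
  have : Adm Z0 q k = ⋂ x, (fun Y : ℕ → Bool => Y x) ⁻¹'
      {b | (x ∈ Z0 → b = false) ∧ (b = false → x ∈ Z0 ∨ (k ≤ x ∧ q ∣ x))} := by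
    ext Y; simp [Adm]
  rw [this]
  exact isClosed_iInter fun x => (isClosed_discrete _).preimage
    (continuous_apply (A := fun _ : ℕ => Bool) x)

theorem Adm_nonempty (Z0 : Finset ℕ) (q k : ℕ) : (Adm Z0 q k).Nonempty :=
  ⟨fun x => decide (x ∉ Z0), fun x => ⟨fun h => by simp [h], fun h => Or.inl (by simpa using h)⟩⟩

theorem Adm_or {Z0 : Finset ℕ} {q k : ℕ} {Y Y' : ℕ → Bool} (h : Y ∈ Adm Z0 q k)
    (h' : Y' ∈ Adm Z0 q k) : (fun m => Y m || Y' m) ∈ Adm Z0 q k := fun x =>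
  ⟨fun hx => by simp [(h x).1 hx, (h' x).1 hx], fun hx => (h x).2 (by
    simp only [Bool.or_eq_false_iff] at hx; exact hx.1)⟩

/-- the operator searching over all admissible domains -/
def WW (Φ : Fnl) (Z0 : Finset ℕ) (q k : ℕ) : Op :=
  {p | ∃ L : ℕ, ∃ σ : ℕ → ℕ, (∀ x < L, (σ x = 0 ∧ (x ∈ Z0 ∨ (k ≤ x ∧ q ∣ x))) ∨
    (x ∉ Z0 ∧ σ x ≠ 0 ∧ (x, σ x - 1) ∈ p.1)) ∧
    ∀ σ', (∀ x < L, σ' x = σ x) → Φ.rel σ' p.2.1 p.2.2}

theorem WW_A {Φ : Fnl} {Z0 : Finset ℕ} {q k : ℕ} {g : ℕ → ℕ} {m v : ℕ}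
    (h : (m, v) ∈ app (WW Φ Z0 q k) (gr g Z0)) : ∃ Y ∈ Adm Z0 q k, Φ.rel (cd g Y) m v := by
  obtain ⟨F, ⟨L, σ, h1, h2⟩, hF⟩ := h
  refine ⟨fun x => if x < L then decide (σ x ≠ 0) else decide (x ∉ Z0), fun x => ?_,
    h2 _ fun x hx => ?_⟩
  · by_cases hx : x < L
    · rcases h1 x hx with h | h
      · simp only [hx, if_true, h.1]
        exact ⟨fun _ => by simp, fun _ => h.2⟩
      · simp [hx, h.1, h.2.1]
    · simp only [hx, if_false]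
      exact ⟨fun h => by simp [h], fun h => Or.inl (by simpa using h)⟩
  · rcases h1 x hx with h | h
    · simp [cd, hx, h.1]
    · have := (hF h.2.2).2
      have h3 := h.2.1
      simp only at this
      simp only [cd, hx, if_true, ne_eq, h3, not_false_eq_true, decide_true, this]
      omega

theorem WW_B {Φ : Fnl} {Z0 P : Finset ℕ} {q k : ℕ} {g : ℕ → ℕ} {m v : ℕ} {Y : ℕ → Bool}
    (hY : Y ∈ Adm Z0 q k) (hP : ∀ x ∈ P, Y x = false) (h : Φ.rel (cd g Y) m v) :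
    (m, v) ∈ app (WW Φ Z0 q k) (gr g (Z0 ∪ P)) := by
  obtain ⟨L, hL⟩ := Φ.cont _ _ _ h
  refine ⟨((Finset.range L).filter (fun x => Y x = true)).image fun x => (x, g x),
    ⟨L, cd g Y, fun x hx => ?_, hL⟩, ?_⟩
  · by_cases hYx : Y x = true
    · refine Or.inr ⟨fun h => ?_, by simp [cd, hYx], ?_⟩
      · simp [(hY x).1 h] at hYx
      · simp only [cd, hYx, if_true, add_tsub_cancel_right]
        exact Finset.mem_image.2 ⟨x, by simp [hx, hYx], rfl⟩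
    · exact Or.inl ⟨by simp [cd, hYx], (hY x).2 (by simpa using hYx)⟩
  · intro p hp
    obtain ⟨x, hx, rfl⟩ := Finset.mem_image.1 hp
    have hx' := (Finset.mem_filter.1 hx).2
    refine ⟨fun h => ?_, rfl⟩
    rcases Finset.mem_union.1 h with h | h
    · simp [(hY x).1 h] at hx'
    · simp [hP x h] at hx'

theorem step1 {ι : Type} [Countable ι] [Nonempty ι] (Φ : ι → Fnl) (g a : ℕ → ℕ)
    (Fatal : ι → (ℕ → Bool) → Prop)
    (hF1 : ∀ φ Y, Fatal φ Y → ∃ L, ∀ Y', (∀ m < L, Y' m = Y m) → Fatal φ Y')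
    (H : ∀ Y : ℕ → Bool, D1 {m | Y m = true} →
      ∃ φ, ¬ Fatal φ Y ∧ D1 {m | (Φ φ).rel (cd g Y) m (a m)}) :
    ∃ φ Z0 q k, 0 < q ∧ (∀ Y ∈ Adm Z0 q k, ¬ Fatal φ Y) ∧
      ∀ P : Finset ℕ, (∀ x ∈ P, k ≤ x ∧ q ∣ x) →
        D1 {m | (m, a m) ∈ app (WW (Φ φ) Z0 q k) (gr g (Z0 ∪ P))} := by
  classical
  by_contra hcon
  push Not at hcon
  let Good : ℕ → Set (ℕ → Bool) → Prop := fun t K => ∃ Z0 k, K = Adm Z0 (2 ^ t) k
  let Win : ι → Set (ℕ → Bool) := fun φ =>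
    {Y | Fatal φ Y ∨ ¬ D1 {m | (Φ φ).rel (cd g Y) m (a m)}}
  have step : ∀ t K r, Good t K → ∃ K' ⊆ K, Good (t + 1) K' ∧ K' ⊆ Win r := by
    rintro t K φ ⟨Z0, k, rfl⟩
    have hdv : ∀ x, 2 ^ (t + 1) ∣ x → 2 ^ t ∣ x := fun x h =>
      dvd_trans (pow_dvd_pow 2 (Nat.le_succ t)) h
    by_cases hc : ∃ Y ∈ Adm Z0 (2 ^ t) k, Fatal φ Y
    · obtain ⟨Y, hY, hf⟩ := hc
      obtain ⟨L, hL⟩ := hF1 φ Y hf
      refine ⟨Adm (Z0 ∪ (Finset.range (L + k)).filter (fun x => Y x = false)) (2 ^ (t + 1)) (L + k),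
        fun Y' hY' x => ⟨fun hx => (hY' x).1 (Finset.mem_union_left _ hx), fun hx => ?_⟩,
        ⟨_, _, rfl⟩, fun Y' hY' => Or.inl (hL Y' fun m hm => ?_)⟩
      · rcases (hY' x).2 hx with h | h
        · rcases Finset.mem_union.1 h with h | h
          · exact Or.inl h
          · exact (hY x).2 (Finset.mem_filter.1 h).2
        · exact Or.inr ⟨by omega, hdv x h.2⟩
      · by_cases h : Y m = false
        · rw [h]
          exact (hY' m).1 (Finset.mem_union_right _ (by simp [h]; omega))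
        · by_contra h'
          have h'' : Y' m = false := by
            cases e1 : Y' m <;> cases e2 : Y m <;> simp_all
          rcases (hY' m).2 h'' with h3 | h3
          · rcases Finset.mem_union.1 h3 with h3 | h3
            · exact h ((hY m).1 h3)
            · exact h (Finset.mem_filter.1 h3).2
          · omega
    · push Not at hc
      obtain ⟨P, hP, hD⟩ := hcon φ Z0 (2 ^ t) k (by positivity) hc
      have hsub : Adm (Z0 ∪ P) (2 ^ (t + 1)) k ⊆ Adm Z0 (2 ^ t) k := fun Y' hY' x =>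
        ⟨fun hx => (hY' x).1 (Finset.mem_union_left _ hx), fun hx => by
          rcases (hY' x).2 hx with h | h
          · rcases Finset.mem_union.1 h with h | h
            · exact Or.inl h
            · exact Or.inr (hP x h)
          · exact Or.inr ⟨h.1, hdv x h.2⟩⟩
      refine ⟨Adm (Z0 ∪ P) (2 ^ (t + 1)) k, hsub, ⟨_, _, rfl⟩, fun Y' hY' => Or.inr fun h => ?_⟩
      exact hD (h.mono fun m hm => WW_B (hsub hY')
        (fun x hx => (hY' x).1 (Finset.mem_union_right _ hx)) hm)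
  obtain ⟨Y, -, hW, hG⟩ := diag Good
    (fun t K ⟨Z0, k, e⟩ => ⟨e ▸ isClosed_Adm _ _ _, e ▸ Adm_nonempty _ _ _⟩) Win inferInstance
    step (Adm ∅ (2 ^ 0) 0) ⟨_, _, rfl⟩
  obtain ⟨φ, h1, h2⟩ := H Y (fun t => by
    obtain ⟨K, ⟨Z0, k, rfl⟩, hK⟩ := hG (2 * t)
    obtain ⟨b, hb⟩ := Z0.bddAbove
    filter_upwards [eventually_ge_atTop (2 * t * (b + 1) + 2 ^ (2 * t))] with n hn
    have e1 := miss_le_add (S := {x | ¬ 2 ^ (2 * t) ∣ x}) (T := {m | Y m = true}) (b + 1) n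
      (fun m hm h => by
        by_contra h'
        rcases (hK m).2 (by simpa using h') with h3 | h3
        · have := hb h3; omega
        · exact h h3.2)
    have e2 := miss_not_dvd (2 ^ (2 * t)) n (by positivity)
    have e3 := Nat.mul_le_mul_right (miss {x | ¬ 2 ^ (2 * t) ∣ x} n)
      (Nat.lt_two_pow_self (n := 2 * t)).le
    have e4 := Nat.mul_le_mul_left (2 * t) e1
    rw [mul_add] at e4
    rw [mul_assoc] at e4
    omega)
  exact (hW φ).elim h1 fun h => h h2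

theorem cd_congr {b : ℕ → ℕ} {Y Y' : ℕ → Bool} {L : ℕ} (h : ∀ m < L, Y' m = Y m) :
    ∀ m < L, cd b Y' m = cd b Y m := fun m hm => by simp [cd, h m hm]

/-- a wrong value -/
def Wrong (Φ : Fnl) (b f : ℕ → ℕ) (Y : ℕ → Bool) : Prop := ∃ n v, Φ.rel (cd b Y) n v ∧ v ≠ f n

/-- two values -/
def Multi (Φ : Fnl) (b : ℕ → ℕ) (Y : ℕ → Bool) : Prop :=
  ∃ n v v', Φ.rel (cd b Y) n v ∧ Φ.rel (cd b Y) n v' ∧ v ≠ v'

theorem Wrong.cont {Φ : Fnl} {b f : ℕ → ℕ} {Y : ℕ → Bool} (h : Wrong Φ b f Y) :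
    ∃ L, ∀ Y', (∀ m < L, Y' m = Y m) → Wrong Φ b f Y' := by
  obtain ⟨n, v, h, hv⟩ := h
  obtain ⟨L, hL⟩ := Φ.cont _ _ _ h
  exact ⟨L, fun Y' hY' => ⟨n, v, hL _ (cd_congr hY'), hv⟩⟩

theorem Multi.cont {Φ : Fnl} {b : ℕ → ℕ} {Y : ℕ → Bool} (h : Multi Φ b Y) :
    ∃ L, ∀ Y', (∀ m < L, Y' m = Y m) → Multi Φ b Y' := by
  obtain ⟨n, v, v', h, h', hv⟩ := h
  obtain ⟨L, hL⟩ := Φ.cont _ _ _ h
  obtain ⟨L', hL'⟩ := Φ.cont _ _ _ h'
  exact ⟨L + L', fun Y' hY' => ⟨n, v, v', hL _ fun m hm => cd_congr hY' m (by omega),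
    hL' _ fun m hm => cd_congr hY' m (by omega), hv⟩⟩

/-- abstract reduction without errors -/
def RedW {ι : Type} (Φ : ι → Fnl) (f g : ℕ → ℕ) : Prop :=
  ∀ Y : ℕ → Bool, D1 {m | Y m = true} →
    ∃ φ, ¬ Wrong (Φ φ) g f Y ∧ D1 {n | (Φ φ).rel (cd g Y) n (f n)}

/-- abstract reduction with errors -/
def RedM {ι : Type} (Φ : ι → Fnl) (f g : ℕ → ℕ) : Prop :=
  ∀ (b : ℕ → ℕ) (Y : ℕ → Bool), D1 {m | Y m = true} → D1 {m | b m = g m} →
    ∃ φ, ¬ Multi (Φ φ) b Y ∧ D1 {n | (Φ φ).rel (cd b Y) n (f n)}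

theorem dom01_of {a : ℕ → ℕ} (ha : ∀ m, a m = 0 ∨ a m = 1) (X : Set (ℕ × ℕ)) :
    {m | (m, a m) ∈ X} ⊆ dom01 X := fun m hm => by
  rcases ha m with h | h
  · left; simpa [h] using hm
  · right; simpa [h] using hm

theorem negW {ι : Type} [Countable ι] [Nonempty ι] (Φ : ι → Fnl) :
    ∀ᶠ g in residual (ℕ → ℕ), ∀ a : ℕ → ℕ, (∀ m, a m = 0 ∨ a m = 1) →
      ¬ (RedW Φ a g ∧ RedW Φ g a) := by
  filter_upwards [core (fun w : ι × Finset ℕ × ℕ × ℕ => WW (Φ w.1) w.2.1 w.2.2.1 w.2.2.2) Φ]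
    with g hg a ha ⟨h1, h2⟩
  obtain ⟨φ, Z0, q, k, hq, hA, hD⟩ := step1 Φ g a (fun φ Y => Wrong (Φ φ) g a Y)
    (fun φ Y h => h.cont) h1
  have hcor : ∀ m v, (m, v) ∈ app (WW (Φ φ) Z0 q k) (gr g Z0) → v = a m := fun m v h => by
    obtain ⟨Y, hY, h⟩ := WW_A h
    by_contra h'
    exact hA Y hY ⟨m, v, h, h'⟩
  obtain ⟨Y, hY, hdom, hψ⟩ := hg (φ, Z0, q, k) Z0 q k hq
    (fun m h h' => by have := hcor m _ h; have := hcor m _ h'; omega)
    (fun P hP => (hD P hP).mono (dom01_of ha _))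
    (fun ψ Y => Wrong (Φ ψ) (bit (app (WW (Φ φ) Z0 q k) (gr g Z0))) g Y)
    (fun ψ Y h => h.cont) (fun ψ Y Y' n v _ h hv => Or.inl ⟨n, v, h, hv⟩)
  have e : cd (bit (app (WW (Φ φ) Z0 q k) (gr g Z0))) Y = cd a Y := by
    funext m
    by_cases hm : Y m = true
    · simp only [cd, hm, if_true, bit]
      rcases hdom m hm with h | h
      · have h0 := hcor m _ h
        have : (m, 1) ∉ app (WW (Φ φ) Z0 q k) (gr g Z0) := fun h' => by
          have := hcor m _ h'; omega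
        simp [this, ← h0]
      · simp only at h
        simp [h, ← hcor m _ h]
    · simp [cd, hm]
  obtain ⟨ψ, h3, h4⟩ := h2 Y hY
  rcases hψ ψ with h | h
  · exact h3 (by simpa only [Wrong, e] using h)
  · exact h (by simpa only [e] using h4)

theorem negM {ι : Type} [Countable ι] [Nonempty ι] (Φ : ι → Fnl)
    (hmono : ∀ φ b Y Y' n v, (∀ m, Y m = true → Y' m = true) →
      (Φ φ).rel (cd b Y) n v → (Φ φ).rel (cd b Y') n v) :
    ∀ᶠ g in residual (ℕ → ℕ), ∀ a : ℕ → ℕ, (∀ m, a m = 0 ∨ a m = 1) →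
      ¬ (RedM Φ a g ∧ RedM Φ g a) := by
  filter_upwards [core (fun w : ι × Finset ℕ × ℕ × ℕ => WW (Φ w.1) w.2.1 w.2.2.1 w.2.2.2) Φ]
    with g hg a ha ⟨h1, h2⟩
  obtain ⟨φ, Z0, q, k, hq, hA, hD⟩ := step1 Φ g a (fun φ Y => Multi (Φ φ) g Y)
    (fun φ Y h => h.cont) (fun Y hY => h1 g Y hY (by
      exact hY.mono fun _ _ => rfl))
  have hsv : ∀ m, (m, 0) ∈ app (WW (Φ φ) Z0 q k) (gr g Z0) →
      (m, 1) ∉ app (WW (Φ φ) Z0 q k) (gr g Z0) := fun m h h' => by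
    obtain ⟨Y, hY, h⟩ := WW_A h
    obtain ⟨Y', hY', h'⟩ := WW_A h'
    exact hA _ (Adm_or hY hY') ⟨m, 0, 1, hmono _ _ _ _ _ _ (fun x hx => by simp [hx]) h,
      hmono _ _ _ _ _ _ (fun x hx => by simp [hx]) h', by omega⟩
  obtain ⟨Y, hY, -, hψ⟩ := hg (φ, Z0, q, k) Z0 q k hq hsv
    (fun P hP => (hD P hP).mono (dom01_of ha _))
    (fun ψ Y => Multi (Φ ψ) (bit (app (WW (Φ φ) Z0 q k) (gr g Z0))) Y)
    (fun ψ Y h => h.cont) (fun ψ Y Y' n v h h' hv => Or.inr ⟨n, v, g n,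
      hmono _ _ _ _ _ _ (fun x hx => by simp [hx]) h',
      hmono _ _ _ _ _ _ (fun x hx => by simp [hx]) h, hv⟩)
  obtain ⟨ψ, h3, h4⟩ := h2 (bit (app (WW (Φ φ) Z0 q k) (gr g Z0))) Y hY
    ((hD ∅ (by simp)).mono fun m hm => by
      simp only [Finset.union_empty, mem_ofPred_eq] at hm ⊢
      rcases ha m with h | h
      · rw [h] at hm ⊢; simp [bit, hsv m hm]
      · rw [h] at hm ⊢; simp [bit, hm])
  exact (hψ ψ).elim h3 fun h => h h4

end Pool.Agent.P.MP_106a28_lc
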