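import Pool.Agent.P.MP_106a28_lc.Link

set_option autoImplicit false

namespace Pool.Agent.P.MP_106a28_lc

open Filter Topology Set

/-- `F` is computed by one program on all oracles in `𝒟` -/
def TR (𝒟 : Set (ℕ → ℕ)) (F : (ℕ → ℕ) → ℕ → ℕ) : Prop :=
  ∃ c : OCode, ∀ d ∈ 𝒟, ∀ a, F d a ∈ c.eval (d : ℕ →. ℕ) a

open Classical in
/-- `P` is decided by one program on all oracles in `𝒟` -/
def TRP (𝒟 : Set (ℕ → ℕ)) (P : (ℕ → ℕ) → ℕ → Prop) : Prop :=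
  TR 𝒟 fun d a => if P d a then 0 else 1

open Classical in
/-- counting -/
noncomputable def cnt (P : ℕ → Prop) (m : ℕ) : ℕ := ((Finset.range m).filter P).card

theorem partrec_ocode {f : ℕ →. ℕ} (h : Nat.Partrec f) : ∃ c : OCode, ∀ d, c.eval d = f := by
  induction h with
  | zero => exact ⟨.zero, fun _ => rfl⟩
  | succ => exact ⟨.succ, fun _ => rfl⟩
  | left => exact ⟨.left, fun _ => rfl⟩
  | right => exact ⟨.right, fun _ => rfl⟩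
  | pair _ _ ih1 ih2 =>
    obtain ⟨a, ha⟩ := ih1
    obtain ⟨b, hb⟩ := ih2
    exact ⟨.pair a b, fun d => by
      funext n; simp [OCode.eval, Seq.seq, Part.bind_map, ha, hb]⟩
  | comp _ _ ih1 ih2 =>
    obtain ⟨a, ha⟩ := ih1
    obtain ⟨b, hb⟩ := ih2
    exact ⟨.comp a b, fun d => by rw [← ha d, ← hb d]; rfl⟩
  | prec _ _ ih1 ih2 =>
    obtain ⟨a, ha⟩ := ih1
    obtain ⟨b, hb⟩ := ih2
    exact ⟨.prec a b, fun d => by rw [← ha d, ← hb d]; rfl⟩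
  | rfind _ ih =>
    obtain ⟨a, ha⟩ := ih
    exact ⟨.rfind a, fun d => by rw [← ha d]; rfl⟩

variable {𝒟 : Set (ℕ → ℕ)} {F G H : (ℕ → ℕ) → ℕ → ℕ} {P Q : (ℕ → ℕ) → ℕ → Prop}

theorem TR.of_eq (h : TR 𝒟 F) (e : ∀ d ∈ 𝒟, ∀ a, F d a = G d a) : TR 𝒟 G := by
  obtain ⟨c, hc⟩ := h
  exact ⟨c, fun d hd a => e d hd a ▸ hc d hd a⟩

theorem TR.prim {f : ℕ → ℕ} (h : Primrec f) : TR 𝒟 fun _ a => f a := by
  obtain ⟨c, hc⟩ := partrec_ocode (Nat.Partrec.of_primrec (Primrec.nat_iff.1 h))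
  exact ⟨c, fun d _ a => by rw [hc]; simp⟩

theorem TR.comp (hF : TR 𝒟 F) (hG : TR 𝒟 G) : TR 𝒟 fun d a => F d (G d a) := by
  obtain ⟨c, hc⟩ := hF
  obtain ⟨c', hc'⟩ := hG
  exact ⟨.comp c c', fun d hd a => Part.mem_bind_iff.2 ⟨_, hc' d hd a, hc d hd _⟩⟩

theorem TRP.comp (hP : TRP 𝒟 P) (hG : TR 𝒟 G) : TRP 𝒟 fun d a => P d (G d a) :=
  TR.comp hP hG

theorem TR.orc (hG : TR 𝒟 G) : TR 𝒟 fun d a => d (G d a) :=
  TR.comp (F := fun d a => d a) ⟨.oracle, fun d _ a => by simp [OCode.eval]⟩ hG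

theorem TR.pair (hF : TR 𝒟 F) (hG : TR 𝒟 G) : TR 𝒟 fun d a => Nat.pair (F d a) (G d a) := by
  obtain ⟨c, hc⟩ := hF
  obtain ⟨c', hc'⟩ := hG
  exact ⟨.pair c c', fun d hd a => Part.mem_bind_iff.2 ⟨_, hc d hd a,
    Part.mem_map _ (hc' d hd a)⟩⟩

theorem TR.id : TR 𝒟 fun _ a => a := TR.prim Primrec.id

theorem TR.const (n : ℕ) : TR 𝒟 fun _ _ => n := TR.prim (Primrec.const n)

theorem TR.l (hF : TR 𝒟 F) : TR 𝒟 fun d a => (F d a).unpair.1 :=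
  TR.comp (TR.prim (Primrec.fst.comp Primrec.unpair)) hF

theorem TR.r (hF : TR 𝒟 F) : TR 𝒟 fun d a => (F d a).unpair.2 :=
  TR.comp (TR.prim (Primrec.snd.comp Primrec.unpair)) hF

theorem TR.prim2 {f : ℕ → ℕ → ℕ} (h : Primrec₂ f) (hF : TR 𝒟 F) (hG : TR 𝒟 G) :
    TR 𝒟 fun d a => f (F d a) (G d a) :=
  (TR.comp (TR.prim (Primrec₂.unpaired.2 h)) (TR.pair hF hG)).of_eq fun d _ a => by simp

theorem TR.add (hF : TR 𝒟 F) (hG : TR 𝒟 G) : TR 𝒟 fun d a => F d a + G d a :=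
  TR.prim2 Primrec.nat_add hF hG

theorem TR.sub (hF : TR 𝒟 F) (hG : TR 𝒟 G) : TR 𝒟 fun d a => F d a - G d a :=
  TR.prim2 Primrec.nat_sub hF hG

theorem TR.mul (hF : TR 𝒟 F) (hG : TR 𝒟 G) : TR 𝒟 fun d a => F d a * G d a :=
  TR.prim2 Primrec.nat_mul hF hG

theorem TR.div (hF : TR 𝒟 F) (hG : TR 𝒟 G) : TR 𝒟 fun d a => F d a / G d a :=
  TR.prim2 Primrec.nat_div hF hG

theorem TR.mod (hF : TR 𝒟 F) (hG : TR 𝒟 G) : TR 𝒟 fun d a => F d a % G d a :=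
  TR.prim2 Primrec.nat_mod hF hG

theorem TR.min (hF : TR 𝒟 F) (hG : TR 𝒟 G) : TR 𝒟 fun d a => min (F d a) (G d a) :=
  TR.prim2 Primrec.nat_min hF hG

theorem TR.pow (hF : TR 𝒟 F) (hG : TR 𝒟 G) : TR 𝒟 fun d a => F d a ^ G d a :=
  TR.prim2 (Primrec₂.unpaired'.1 Nat.Primrec.pow) hF hG

theorem TRP.rel {R : ℕ → ℕ → Prop} (h : PrimrecRel R) (hF : TR 𝒟 F) (hG : TR 𝒟 G) :
    TRP 𝒟 fun d a => R (F d a) (G d a) := by
  classical
  exact TR.prim2 (f := fun x y => if R x y then 0 else 1)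
    (Primrec.ite h (Primrec.const 0) (Primrec.const 1)) hF hG

theorem TRP.lt (hF : TR 𝒟 F) (hG : TR 𝒟 G) : TRP 𝒟 fun d a => F d a < G d a :=
  TRP.rel Primrec.nat_lt hF hG

theorem TRP.le (hF : TR 𝒟 F) (hG : TR 𝒟 G) : TRP 𝒟 fun d a => F d a ≤ G d a :=
  TRP.rel Primrec.nat_le hF hG

theorem TRP.eq (hF : TR 𝒟 F) (hG : TR 𝒟 G) : TRP 𝒟 fun d a => F d a = G d a :=
  TRP.rel Primrec.eq hF hG

theorem TRP.not (hP : TRP 𝒟 P) : TRP 𝒟 fun d a => ¬ P d a :=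
  (TR.sub (TR.const 1) hP).of_eq fun d _ a => by by_cases h : P d a <;> simp [h]

theorem TRP.or (hP : TRP 𝒟 P) (hQ : TRP 𝒟 Q) : TRP 𝒟 fun d a => P d a ∨ Q d a :=
  (TR.mul hP hQ).of_eq fun d _ a => by
    by_cases h : P d a <;> by_cases h' : Q d a <;> simp [h, h']

theorem TRP.and (hP : TRP 𝒟 P) (hQ : TRP 𝒟 Q) : TRP 𝒟 fun d a => P d a ∧ Q d a :=
  (TRP.or hP.not hQ.not).not.of_eq fun d _ a => by
    by_cases h : P d a <;> by_cases h' : Q d a <;> simp [h, h']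

theorem TR.prec (hF : TR 𝒟 F) (hG : TR 𝒟 G) (hH : TR 𝒟 H) :
    TR 𝒟 fun d a => Nat.rec (F d a) (fun y ih => G d (Nat.pair a (Nat.pair y ih))) (H d a) := by
  have : TR 𝒟 fun d p => Nat.rec (F d p.unpair.1)
      (fun y ih => G d (Nat.pair p.unpair.1 (Nat.pair y ih))) p.unpair.2 := by
    obtain ⟨c, hc⟩ := hF
    obtain ⟨c', hc'⟩ := hG
    refine ⟨.prec c c', fun d hd p => ?_⟩
    simp only [OCode.eval]
    generalize p.unpair.1 = a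
    generalize p.unpair.2 = y
    induction y with
    | zero => exact hc d hd a
    | succ y ih => exact Part.mem_bind_iff.2 ⟨_, ih, hc' d hd _⟩
  exact (TR.comp this (TR.pair TR.id hH)).of_eq fun d _ a => by simp

theorem cnt_succ (P : ℕ → Prop) (m : ℕ) [Decidable (P m)] :
    cnt P (m + 1) = cnt P m + if P m then 1 else 0 := by
  classical
  unfold cnt
  rw [Finset.range_add_one, Finset.filter_insert]
  split_ifs with h
  · rw [Finset.card_insert_of_notMem (by simp)]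
  · rfl

theorem TR.cnt {P : (ℕ → ℕ) → ℕ → ℕ → Prop} (hP : TRP 𝒟 fun d z => P d z.unpair.1 z.unpair.2)
    (hH : TR 𝒟 H) : TR 𝒟 fun d a => cnt (P d a) (H d a) := by
  classical
  have h1 := TR.add (TR.r (TR.r TR.id)) (TR.sub (TR.const 1)
    (TR.comp hP (TR.pair (TR.l TR.id) (TR.l (TR.r TR.id)))))
  refine (TR.prec (TR.const 0) h1 hH).of_eq fun d _ a => ?_
  generalize H d a = m
  induction m with
  | zero => simp [Pool.Agent.P.MP_106a28_lc.cnt]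
  | succ m ih =>
    rw [cnt_succ, ← ih]
    by_cases h : P d a m <;> simp [h]

theorem TR.find {P : (ℕ → ℕ) → ℕ → ℕ → Prop} (hP : TRP 𝒟 fun d z => P d z.unpair.1 z.unpair.2)
    (ex : ∀ d ∈ 𝒟, ∀ a, ∃ n, P d a n) : TR 𝒟 fun d a => sInf {n | P d a n} := by
  obtain ⟨c, hc⟩ := hP
  refine ⟨.rfind c, fun d hd a => Nat.mem_rfind.2 ⟨?_, fun {m} hm => ?_⟩⟩
  · have h1 : P d a (sInf {n | P d a n}) := Nat.sInf_mem (s := {n | P d a n}) (ex d hd a)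
    refine (Part.mem_map_iff _).2 ⟨_, hc d hd _, ?_⟩
    simp [h1]
  · have h1 : ¬ P d a m := Nat.notMem_of_lt_sInf hm
    refine (Part.mem_map_iff _).2 ⟨_, hc d hd _, ?_⟩
    simp [h1]

theorem TR.ite01 (hP : TRP 𝒟 P) :
    TR 𝒟 fun d a => ({x | P d x} : Set ℕ).indicator (1 : ℕ → ℕ) a :=
  (TR.sub (TR.const 1) hP).of_eq fun d _ a => by by_cases h : P d a <;> simp [h]

theorem TR.uc {f g : ℕ → ℕ} (h : TR {d | Coarse d g} F)
    (hc : ∀ d, Coarse d g → Coarse (F d) f) : UC f g := by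
  obtain ⟨c, h⟩ := h
  exact ⟨c, fun d hd => ⟨F d, hc d hd, funext fun a => Part.eq_some_iff.2 (h d hd a)⟩⟩

end Pool.Agent.P.MP_106a28_lc
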